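import Pool.Agent.Work.MP_46fa68_31.Row
import Pool.Agent.Work.MP_46fa68_28.Joint

/-! # The cell function and the both function of a full marked kernel from the integer tables -/

set_option autoImplicit false

open Finset Equiv

namespace Pool.JM.RT

/-! ### values of a class function -/

theorem valChk_sound {N M K L R c0 m : ℕ} (hM : N < M) (hm : m ≤ N) (hc0 : c0 = cd (range M))
    (hL : ∀ r, 1 ≤ r → r ≤ R → r ∣ L) (hL0 : 0 < L) (hR : m ≤ R) (hK : M + m ≤ K)
    {sch : List Sc} (hlen : sch.length = m)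
    (hgood : ∀ (i : ℕ) (hi : i < sch.length), Good31 M K (m - 1 - i) sch[i])
    {B : Ct} {b : Finset ℕ → ℝ} {S p q : ℝ} (hB : RepC M m B (NC b) S) (hS : 0 < S) {P Q : ℤ}
    (hQ : (Q : ℝ) ≤ S * (-q / m.factorial)) (hP : (P : ℝ) ≤ S * (p - q / m.factorial))
    (h : valChk L c0 sch B P Q = true) : Val N M m b p q := by
  unfold valChk at h
  rw [Bool.and_eq_true] at h
  obtain ⟨h1, h2⟩ := h
  have h2' := of_decide_eq_true h2
  have hgd : ∀ (i : ℕ) (hi : i < sch.length), Good31 M K (m - 1 - i) sch[i] ∧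
      Div31 M L (m - 1 - i) := by
    intro i hi
    exact ⟨hgood i hi, Div31_of hL (by omega)⟩
  have c1 := clTree_sound hc0 hL0 m sch B (NC b) S (-q / m.factorial) Q hlen hK hgd hB hS hQ h1
  have c2 := ClV_of_n m b (NC b) _ (fun C _ => rfl) c1
  have c3 := ClV_sound (N := N) hM m b _ hm c2
  have i1 := idVal_sound hc0 m sch B (NC b) S hlen hK hgood hB
  intro g hg
  by_cases h3 : g = 1
  · rw [if_pos h3, h3, G_one_id hM m b hm]
    have h4 : ((idVal c0 sch B : ℤ) : ℝ) ≤ S * (p - q / m.factorial) := by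
      refine le_trans ?_ hP
      exact_mod_cast h2'
    rw [i1] at h4
    exact le_of_mul_le_mul_left h4 hS
  · rw [if_neg h3, zero_sub, ← neg_div]
    exact c3 g hg h3

/-! ### both: the row function of the level `m + 1` at the permutations which fix the mark -/

theorem sumL_map (l : List ℕ) (f : ℕ → ℤ) : MK.sumL l f = (l.map f).sum := by
  induction l with
  | nil => rfl
  | cons a l ih => rw [MK.sumL_cons, ih, List.map_cons, List.sum_cons]

theorem bothChk_sound {N M m K L R W c0 : ℕ} {S : ℝ} {tB tD : MK.Tr} {w z : ℤ} {cs : List ℕ}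
    {s0 : Sc} {sch : List Sc} (hM : N < M) (hm : m < N) (hS : 0 < S)
    (hL : ∀ r, 1 ≤ r → r ≤ R → r ∣ L) (hL0 : 0 < L) (hR : m + 1 ≤ R) (hW : M + m + 1 ≤ W)
    (hK : M + m + 1 ≤ K) (hc0 : c0 = cd (range M)) (hlen : sch.length = m)
    (hs : scOK K c0 cs (s0 :: sch) = true)
    (h : bothChk L W c0 m s0 sch tB tD w z = true) :
    Val N M m (EX (rowF (MK.bK (S * (m + 1).factorial) tB) (MK.dK (S * (m + 1).factorial) tD)))
      ((w : ℝ) / S) ((z : ℝ) / S) := by
  set σ : ℝ := S * (m + 1).factorial with hσdef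
  have hf : (0 : ℝ) < (m + 1).factorial := by positivity
  have hfm : (0 : ℝ) < m.factorial := by positivity
  have hσ : 0 < σ := by positivity
  have hLr : (0 : ℝ) < L := by exact_mod_cast hL0
  have hfs : ((m + 1).factorial : ℝ) = ((m : ℝ) + 1) * m.factorial := by
    rw [Nat.factorial_succ]
    push_cast
    ring
  obtain ⟨-, hgood⟩ := scOK_sound hc0 (s0 :: sch) cs (m + 1) (by simp [hlen]) (by omega) hs
  have hg0 : Good31 M K m s0 := hgood 0 (by simp)
  unfold bothChk at h
  rw [rowsC_eq, fI_eq, fI_eq] at h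
  refine valChk_sound (K := K) hM hm.le hc0 hL hL0 (by omega) (by omega) hlen ?_
    (S := (L : ℝ) ^ 2 * σ) ?_ (by positivity) ?_ ?_ h
  · intro i hi
    have h1 := hgood (i + 1) (by simpa using hi)
    have e : m + 1 - 1 - (i + 1) = m - 1 - i := by omega
    rw [e] at h1
    exact h1
  · intro C hC
    rw [lookC_map (fun c us => bothI L W tB tD c us) s0 (us := adL K (cd C))
      (fun p hp hp' => by rw [hg0.1 p hp, hp']) (hg0.2 C hC)]
    change ((MK.sumL (adL K (cd C)) (fun u => rowI L W tB tD (cd C) u) : ℤ) : ℝ) = _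
    rw [sumL_map, list_cast, sum_adL (fun x hx => by have := Lv_lt hC x hx; omega), NC_EX]
    unfold nEX
    rw [Finset.mul_sum]
    exact Finset.sum_congr rfl fun u hu => rowI_real hL hR hW hσ.ne' hC hu
  · have e : ((Int.mul (Int.ofNat (L * L * (m + 1))) (Int.neg z) : ℤ) : ℝ) =
        -((L : ℝ) ^ 2 * (m + 1) * z) := by
      change (((((L * L * (m + 1) : ℕ) : ℤ)) * (-z) : ℤ) : ℝ) = _
      push_cast
      ring
    rw [e, hσdef, hfs]
    refine le_of_eq ?_
    field_simp
  · have e : ((Int.mul (Int.ofNat (L * L * (m + 1))) (Int.add (Int.mul (Int.ofNat m.factorial) w)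
        (Int.neg z)) : ℤ) : ℝ) = (L : ℝ) ^ 2 * (m + 1) * (m.factorial * w - z) := by
      change (((((L * L * (m + 1) : ℕ) : ℤ)) * (((m.factorial : ℕ) : ℤ) * w + -z) : ℤ) : ℝ) = _
      push_cast
      ring
    rw [e, hσdef, hfs]
    refine le_of_eq ?_
    field_simp

/-! ### search trees of codes and of values -/

theorem mapV_eq {β : Type} (g : ℕ → ℤ) : ∀ (T : CT) (k : VT → β), mapV g T k = k (mapT g T) := by
  intro T
  induction T with
  | l c =>
    intro k
    exact fI_eq (g c) _
  | t a x y ihx ihy =>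
    intro k
    change mapV g x (fun x' => mapV g y fun y' => k (.t a x' y')) = _
    rw [ihx, ihy]
    rfl

theorem fndV_mapT (g : ℕ → ℤ) (c : ℕ) : ∀ T : CT, fndV (mapT g T) c = g (fndC T c) := by
  intro T
  induction T with
  | l a => rfl
  | t a x y ihx ihy =>
    change (bif Nat.ble a c then fndV (mapT g y) c else fndV (mapT g x) c) =
      g (bif Nat.ble a c then fndC y c else fndC x c)
    cases Nat.ble a c
    · exact ihx
    · exact ihy

theorem fL_eq {β : Type} : ∀ (l : List ℕ) (k : List ℕ → β), fL l k = k l := by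
  intro l
  induction l with
  | nil => intro k; rfl
  | cons a l ih =>
    intro k
    change fN a (fun a' => fL l fun l' => k (a' :: l')) = _
    rw [fN_eq, ih]

/-- the value tree `V` represents the class function `f` of level `k` with the factor `σ` -/
def RepV (M k : ℕ) (V : VT) (f : Finset ℕ → ℝ) (σ : ℝ) : Prop :=
  ∀ C ∈ Lv M k, ((fndV V (cd C) : ℤ) : ℝ) = σ * NC f C

/-- the tree of codes is complete -/
def GoodT (M k : ℕ) (T : CT) : Prop := ∀ C ∈ Lv M k, fndC T (cd C) = cd C

theorem desc_sound {β : Type} {W M m : ℕ} {σ : ℝ} (k : VT → β) :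
    ∀ (r : List CT) (V : VT) (f : Finset ℕ → ℝ), M + (m + r.length) ≤ W →
    RepV M (m + r.length) V f σ →
    (∀ (i : ℕ) (hi : i < r.length), GoodT M (m + r.length - 1 - i) r[i]) →
    ∃ (V' : VT) (a : ℕ → Finset ℕ → ℝ), desc W r V k = k V' ∧ a (m + r.length) = f ∧
      (∀ i, m ≤ i → i < m + r.length → ∀ C ∈ Lv M i,
        a i C = ∑ x ∈ ad C, w C x * a (i + 1) (mv C x)) ∧ RepV M m V' (a m) σ := by
  intro r
  induction r with
  | nil =>
    intro V f _ hV _
    exact ⟨V, fun _ => f, rfl, rfl, fun i h1 h2 => absurd h2 (by simp; omega), hV⟩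
  | cons T r ih =>
    intro V f hW hV hT
    have hlen : (T :: r).length = r.length + 1 := rfl
    rw [hlen] at hW hV ⊢
    set f1 : Finset ℕ → ℝ := fun C => ∑ x ∈ ad C, w C x * f (mv C x) with hf1
    set g : ℕ → ℤ := fun c => MK.sumL (MK.posl 1 W c)
      (fun x => fndV V (Nat.add c (Nat.pow 2 x))) with hg
    have hT0 : GoodT M (m + r.length) T := by
      have := hT 0 (by omega)
      have e : m + (T :: r).length - 1 - 0 = m + r.length := by omega
      rw [e] at this
      exact this
    have hV1 : RepV M (m + r.length) (mapT g T) f1 σ := by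
      intro C hC
      rw [fndV_mapT, hT0 C hC]
      change ((MK.sumL (MK.posl 1 W (MK.cd C)) (fun x => fndV V (Nat.add (cd C) (Nat.pow 2 x)))
        : ℤ) : ℝ) = _
      rw [MK.sum_ad_real (fun z hz => by
        have := MK.Lv_ad_lt hC hz
        omega)]
      have e2 : NC f1 C = ∑ x ∈ ad C, NC f (mv C x) := by
        unfold NC
        rw [hf1, Finset.mul_sum]
        refine Finset.sum_congr rfl fun x hx => ?_
        rw [ex_mv hx]
        ring
      rw [e2, Finset.mul_sum]
      refine Finset.sum_congr rfl fun x hx => ?_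
      have c1 : Nat.add (cd C) (Nat.pow 2 x) = cd (mv C x) := (cd_mv hx).symm
      rw [c1]
      exact hV (mv C x) (mv_mem hC hx)
    obtain ⟨V', a, h1, h2, h3, h4⟩ := ih (mapT g T) f1 (by omega) hV1 (by
      intro i hi
      have := hT (i + 1) (by omega)
      have e : m + (T :: r).length - 1 - (i + 1) = m + r.length - 1 - i := by omega
      rw [e] at this
      exact this)
    refine ⟨V', fun i => if i = m + (r.length + 1) then f else a i, ?_, ?_, ?_, ?_⟩
    · rw [← h1]
      change mapV g T (fun V' => desc W r V' k) = _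
      rw [mapV_eq]
    · exact if_pos rfl
    · intro i hi1 hi2 C hC
      have n1 : i ≠ m + (r.length + 1) := by omega
      by_cases hi3 : i = m + r.length
      · subst hi3
        have e1 : (fun i => if i = m + (r.length + 1) then f else a i) (m + r.length) = f1 := by
          simp only
          rw [if_neg n1, h2]
        have e2 : (fun i => if i = m + (r.length + 1) then f else a i) (m + r.length + 1) = f := by
          simp only
          rw [if_pos (by omega)]
        rw [e1, e2]
      · have e1 : (fun i => if i = m + (r.length + 1) then f else a i) i = a i := by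
          simp only
          rw [if_neg n1]
        have e2 : (fun i => if i = m + (r.length + 1) then f else a i) (i + 1) = a (i + 1) := by
          simp only
          rw [if_neg (by omega)]
        rw [e1, e2]
        exact h3 i hi1 (by omega) C hC
    · have e1 : (fun i => if i = m + (r.length + 1) then f else a i) m = a m := by
        simp only
        rw [if_neg (by omega)]
      rw [e1]
      exact h4

/-! ### the level of a bead set -/

/-- the level of a bead set -/
def lev31 (M : ℕ) (C : Finset ℕ) : ℕ := ∑ z ∈ C, z - ∑ z ∈ range M, z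

theorem sum_mv31 {C : Finset ℕ} {x : ℕ} (hx : x ∈ ad C) : ∑ z ∈ mv C x, z = ∑ z ∈ C, z + 1 := by
  obtain ⟨h1, h2⟩ := mem_ad.1 hx
  have h3 : x + 1 ∉ C.erase x := fun h => h2 (mem_of_mem_erase h)
  unfold mv
  rw [sum_insert h3]
  have h4 := Finset.add_sum_erase C (fun z => z) h1
  omega

theorem lev31_eq {M : ℕ} : ∀ {k : ℕ} {C : Finset ℕ}, C ∈ Lv M k →
    ∑ z ∈ C, z = ∑ z ∈ range M, z + k := by
  intro k
  induction k with
  | zero =>
    intro C hC
    rw [show Lv M 0 = {range M} from rfl, mem_singleton] at hC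
    rw [hC, add_zero]
  | succ k ih =>
    intro C hC
    simp only [Lv, mem_biUnion, mem_image] at hC
    obtain ⟨B, hB, x, hx, rfl⟩ := hC
    rw [sum_mv31 hx, ih hB]
    ring

theorem lev31_Lv {M k : ℕ} {C : Finset ℕ} (hC : C ∈ Lv M k) : lev31 M C = k := by
  unfold lev31
  rw [lev31_eq hC]
  omega

/-! ### the cell function -/

theorem tChk_sound {M : ℕ} : ∀ (Ts : List CT) (ls : List (List ℕ)) (k : ℕ), Ts.length ≤ k + 1 →
    (∀ (i : ℕ) (hi : i < ls.length), i < Ts.length → ∀ C ∈ Lv M (k - i), cd C ∈ ls[i]) →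
    tChk ls Ts = true →
    ∀ (i : ℕ) (hi : i < Ts.length), GoodT M (k - i) Ts[i] := by
  intro Ts
  induction Ts with
  | nil =>
    intro ls k _ _ _ i hi
    exact absurd hi (by simp)
  | cons T Ts ih =>
    intro ls k hk hls h i hi
    cases ls with
    | nil =>
      have h' : false = true := h
      exact absurd h' (by simp)
    | cons l ls =>
      have h' : (MK.allL l (fun c => Nat.beq (fndC T c) c) && tChk ls Ts) = true := h
      rw [Bool.and_eq_true] at h'
      obtain ⟨h1, h2⟩ := h'
      cases i with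
      | zero =>
        intro C hC
        have h3 := MK.allL_iff.1 h1 (cd C) (hls 0 (by simp) (by simp) C hC)
        exact Nat.eq_of_beq_eq_true h3
      | succ i =>
        have hTl : Ts.length ≤ k := by simpa using hk
        have hi' : i < Ts.length := by simpa using hi
        have hk1 : k ≠ 0 := by omega
        have := ih ls (k - 1) (by omega) (fun j hj hj2 C hC => by
          have e : k - 1 - j = k - (j + 1) := by omega
          rw [e] at hC
          exact hls (j + 1) (by simpa using hj) (by simpa using hj2) C hC) h2 i hi'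
        have e : k - 1 - i = k - (i + 1) := by omega
        rw [e] at this
        exact this

theorem cellI_real {M k W : ℕ} {σ : ℝ} {tB : MK.Tr} (hW : M + k ≤ W) (hσ : σ ≠ 0)
    {C : Finset ℕ} (hC : C ∈ Lv M k) :
    ((cellI W tB (cd C) : ℤ) : ℝ) = σ * NC (cellF (MK.bK σ tB)) C := by
  have hW0 : ∀ z ∈ ad C, z < W := fun z hz => by
    have := MK.Lv_ad_lt hC hz
    omega
  unfold cellI
  rw [fL_eq]
  change ((MK.sumL (MK.posl 1 W (MK.cd C)) (fun x => MK.sumL (MK.posl 1 W (MK.cd C))
    (fun y => MK.gt tB (MK.cd C) x y)) : ℤ) : ℝ) = _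
  rw [MK.sum_ad_real hW0]
  unfold NC
  rw [hat_cell (MK.HB_bK σ tB), Finset.mul_sum]
  refine Finset.sum_congr rfl fun x _ => ?_
  rw [MK.sum_ad_real hW0, Finset.mul_sum]
  refine Finset.sum_congr rfl fun y _ => ?_
  unfold MK.bt
  field_simp

theorem cellChk_sound {N M m n K L R W c0 F1 G1 : ℕ} {S : ℝ} {tB : MK.Tr} {w1 z : ℤ}
    {cs : ℕ → List ℕ} {s0 : Sc} {sch : List Sc} {Tn : CT} {Ts : List CT} (hM : N < M) (hm : m ≤ n)
    (hn : n ≤ N) (hS : 0 < S)
    (hL : ∀ r, 1 ≤ r → r ≤ R → r ∣ L) (hL0 : 0 < L) (hR : m ≤ R) (hW : M + n ≤ W)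
    (hK : M + m + 1 ≤ K) (hc0 : c0 = cd (range M)) (hlen : sch.length = m)
    (hTs : Ts.length = n - m) (hF : F1 * m.factorial = n.factorial) (hG : G1 = n.factorial)
    (hcs : ∀ k ≤ n, ∀ C ∈ Lv M k, cd C ∈ cs k)
    (ht : tChk ((List.range (n + 1 - m)).map fun i => cs (n - i)) (Tn :: Ts) = true)
    (hs : scOK K c0 (cs (m + 1)) (s0 :: sch) = true)
    (h : cellChk L W c0 Tn Ts s0 sch tB F1 G1 w1 z = true) :
    ∃ al : Finset ℕ → ℝ, (∀ C ∈ Lv M n, al C = cellF (MK.bK (S * n.factorial) tB) C) ∧
      Harm M m n al ∧ Val N M m al ((w1 : ℝ) / S) ((z : ℝ) / S) := by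
  set σ : ℝ := S * n.factorial with hσdef
  have hfn : (0 : ℝ) < n.factorial := by positivity
  have hfm : (0 : ℝ) < m.factorial := by positivity
  have hσ : 0 < σ := by positivity
  obtain ⟨-, hgood⟩ := scOK_sound hc0 (s0 :: sch) (cs (m + 1)) (m + 1) (by simp [hlen]) (by omega) hs
  have hg0 : Good31 M K m s0 := hgood 0 (by simp)
  have hT := tChk_sound (M := M) (Tn :: Ts) _ n (by simp [hTs]) (by
    intro i hi _ C hC
    rw [List.getElem_map, List.getElem_range]
    exact hcs (n - i) (by omega) C hC) ht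
  have hTn : GoodT M n Tn := hT 0 (by simp)
  unfold cellChk at h
  rw [mapV_eq] at h
  have hmn : m + Ts.length = n := by omega
  have hV : RepV M (m + Ts.length) (mapT (cellI W tB) Tn) (cellF (MK.bK σ tB)) σ := by
    rw [hmn]
    intro C hC
    rw [fndV_mapT, hTn C hC]
    exact cellI_real hW hσ.ne' hC
  obtain ⟨V', a, h1, h2, h3, h4⟩ := desc_sound (W := W) (M := M) (m := m) (σ := σ)
    (fun V' => rowsC (fun c _ => fndV V' c) s0 fun B =>
      fI (Int.add (Int.mul (Int.ofNat G1) w1) (Int.neg (Int.mul (Int.ofNat F1) z))) fun P =>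
      fI (Int.neg (Int.mul (Int.ofNat F1) z)) fun Q => valChk L c0 sch B P Q)
    Ts (mapT (cellI W tB) Tn) (cellF (MK.bK σ tB)) (by omega) hV (by
      intro i hi
      have := hT (i + 1) (by simpa using hi)
      have e : n - (i + 1) = m + Ts.length - 1 - i := by omega
      rw [e] at this
      exact this)
  rw [h1] at h
  rw [hmn] at h2 h3
  change rowsC (fun c _ => fndV V' c) s0 (fun B =>
      fI (Int.add (Int.mul (Int.ofNat G1) w1) (Int.neg (Int.mul (Int.ofNat F1) z))) fun P =>
      fI (Int.neg (Int.mul (Int.ofNat F1) z)) fun Q => valChk L c0 sch B P Q) = true at h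
  rw [rowsC_eq, fI_eq, fI_eq] at h
  have hFr : (F1 : ℝ) * m.factorial = n.factorial := by exact_mod_cast hF
  have hval : Val N M m (a m) ((w1 : ℝ) / S) ((z : ℝ) / S) := by
    refine valChk_sound (K := K) hM (by omega) hc0 hL hL0 hR (by omega) hlen ?_ (S := σ) ?_ hσ
      ?_ ?_ h
    · intro i hi
      have h5 := hgood (i + 1) (by simpa using hi)
      have e : m + 1 - 1 - (i + 1) = m - 1 - i := by omega
      rw [e] at h5
      exact h5
    · intro C hC
      rw [lookC_map (fun c _ => fndV V' c) s0 (us := adL K (cd C))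
        (fun p hp hp' => by rw [hg0.1 p hp, hp']) (hg0.2 C hC)]
      exact h4 C hC
    · have e : ((Int.neg (Int.mul (Int.ofNat F1) z) : ℤ) : ℝ) = -((F1 : ℝ) * z) := by
        change ((-(((F1 : ℕ) : ℤ) * z) : ℤ) : ℝ) = _
        push_cast
        ring
      rw [e, hσdef, ← hFr]
      refine le_of_eq ?_
      field_simp
    · have e : ((Int.add (Int.mul (Int.ofNat G1) w1) (Int.neg (Int.mul (Int.ofNat F1) z)) : ℤ) : ℝ) =
          (G1 : ℝ) * w1 - (F1 : ℝ) * z := by
        change (((((G1 : ℕ) : ℤ) * w1) + -(((F1 : ℕ) : ℤ) * z) : ℤ) : ℝ) = _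
        push_cast
        ring
      rw [e, hG, hσdef, ← hFr]
      refine le_of_eq ?_
      field_simp
  refine ⟨fun C => a (lev31 M C) C, ?_, ?_, ?_⟩
  · intro C hC
    simp only
    rw [lev31_Lv hC, h2]
  · intro k hk1 hk2 C hC
    change a (lev31 M C) C = ∑ x ∈ ad C, w C x * a (lev31 M (mv C x)) (mv C x)
    rw [lev31_Lv hC, h3 k hk1 hk2 C hC]
    refine Finset.sum_congr rfl fun x hx => ?_
    rw [lev31_Lv (mv_mem hC hx)]
  · intro g hg
    have e : G N M (fun C => a (lev31 M C) C) m = G N M (a m) m := by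
      unfold G
      exact Finset.sum_congr rfl fun C hC => by simp only; rw [lev31_Lv hC]
    rw [e]
    exact hval g hg

end Pool.JM.RT
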