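import Pool.Agent.Work.MP_46fa68_19.MkD

/-! # Definitions of the kernel checks of a full marked kernel (no proofs)

Row, cell, both, positivity.  The check modules import only this file and the tables. -/

set_option autoImplicit false

namespace Pool.JM.RT

/-- force a natural number -/
def fN {β : Type} (n : ℕ) (k : ℕ → β) : β :=
  match n with
  | 0 => k 0
  | m + 1 => k (m + 1)

/-- force an integer -/
def fI {β : Type} (z : ℤ) (k : ℤ → β) : β :=
  match z with
  | Int.ofNat n => fN n fun n => k (Int.ofNat n)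
  | Int.negSucc n => fN n fun n => k (Int.negSucc n)

/-- forced map -/
def mapF {β : Type} (g : ℕ → ℤ) : List ℕ → (List (ℕ × ℤ) → β) → β
  | [], k => k []
  | u :: us, k => fI (g u) fun z => mapF g us fun l => k ((u, z) :: l)

/-- one-mark tables -/
abbrev Tb := List (ℕ × List (ℕ × ℤ))

/-- one level of the schema -/
abbrev Sc := List (ℕ × List ℕ)

/-- forced one-mark table -/
def rowsF {β : Type} (g : ℕ → ℕ → ℤ) : Sc → (Tb → β) → β
  | [], k => k []
  | (c, us) :: r, k => mapF (g c) us fun l => rowsF g r fun t => k ((c, l) :: t)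

/-- class function tables -/
abbrev Ct := List (ℕ × ℤ)

/-- forced class function table -/
def rowsC {β : Type} (g : ℕ → List ℕ → ℤ) : Sc → (Ct → β) → β
  | [], k => k []
  | (c, us) :: r, k => fI (g c us) fun z => rowsC g r fun t => k ((c, z) :: t)

/-- look up of a row -/
def look : Tb → ℕ → List (ℕ × ℤ)
  | [], _ => []
  | (c', l) :: t, c => bif Nat.beq c' c then l else look t c

/-- look up of a value -/
def lookC : Ct → ℕ → ℤ
  | [], _ => 0
  | (c', z) :: t, c => bif Nat.beq c' c then z else lookC t c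

/-- `L / (y - u)` -/
def cf (L y u : ℕ) : ℤ :=
  bif Nat.blt u y then Int.ofNat (L / (y - u)) else Int.neg (Int.ofNat (L / (u - y)))

/-- sum of the values -/
def sumV : List (ℕ × ℤ) → ℤ
  | [] => 0
  | p :: l => p.2 + sumV l

/-- sum with the weights `L / (y - u)` -/
def sumP (L u : ℕ) : List (ℕ × ℤ) → ℤ
  | [] => 0
  | p :: l => cf L p.1 u * p.2 + sumP L u l

/-- sum of a class function over the covers -/
def sumB (B : Ct) (c : ℕ) : List ℕ → ℤ
  | [] => 0
  | u :: us => lookC B (c + 2 ^ u) + sumB B c us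

/-- the tree, all permutations -/
def tree (L c0 : ℕ) : List Sc → Tb → ℤ → Bool
  | [], T, Q => decide (sumV (look T c0) ≤ Q)
  | s :: r, T, Q =>
    fI (Int.ofNat L * Q) fun Q' =>
      (rowsF (fun c u => sumP L u (look T (c + 2 ^ u))) s fun T' => tree L c0 r T' Q') &&
      (rowsF (fun c u => Int.ofNat L * sumV (look T (c + 2 ^ u))) s fun T' => tree L c0 r T' Q')

/-- the tree, the mark is moved -/
def mkTree (L c0 : ℕ) : List Sc → Tb → ℤ → Bool
  | [], _, _ => true
  | s :: r, T, Q =>
    fI (Int.ofNat L * Q) fun Q' =>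
      rowsF (fun c u => sumP L u (look T (c + 2 ^ u))) s fun T' => tree L c0 r T' Q'

/-- class functions off the identity -/
def clTree (L c0 : ℕ) : List Sc → Ct → ℤ → Bool
  | [], _, _ => true
  | s :: r, B, Q =>
    (rowsF (fun c u => lookC B (c + 2 ^ u)) s fun T => mkTree L c0 r T Q) &&
    (rowsC (fun c us => sumB B c us) s fun B' => clTree L c0 r B' Q)

/-- value at the identity -/
def idVal (c0 : ℕ) : List Sc → Ct → ℤ
  | [], B => lookC B c0
  | s :: r, B => rowsC (fun c us => sumB B c us) s fun B' => idVal c0 r B'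

/-- movable beads of a code -/
def adL (K c : ℕ) : List ℕ := (List.range K).filter fun i => c.testBit i && !c.testBit (i + 1)

/-- check of one level of the schema against the level above -/
def lvOK (K : ℕ) (up : List ℕ) (s : Sc) : Bool :=
  s.all fun p => (p.2 == adL K p.1) && p.2.all fun u => up.contains (p.1 + 2 ^ u)

/-- the levels `k-1, ..., 0` of the schema; `up` = codes of the level `k` -/
def scOK (K c0 : ℕ) : List ℕ → List Sc → Bool
  | up, [] => up.contains c0
  | up, s :: r => lvOK K up s && scOK K c0 (s.map fun p => p.1) r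

/-- the row function at `(mv C u, C)`, times `L ^ 2 * σ`; `c` = code of `C` -/
noncomputable def rowI (L W : ℕ) (tB tD : MK.Tr) (c u : ℕ) : ℤ :=
  Int.add
    (MK.sumL (MK.posl 1 W (Nat.add c (Nat.pow 2 u))) (fun x => Int.mul (MK.pp L x u)
      (MK.sumL (MK.posl 1 W (Nat.add c (Nat.pow 2 u)))
        (fun y => Int.mul (MK.pp L y u) (MK.gt tB (Nat.add c (Nat.pow 2 u)) x y)))))
    (MK.sumL (MK.posl 1 W c) (fun y => cond (Nat.beq y u) (Int.ofNat 0)
      (Int.mul (MK.rI L y u) (MK.gt tD (Nat.add (Nat.add c (Nat.pow 2 u)) (Nat.pow 2 y)) u y))))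

/-- the check of the row and of the column; the value is `- z / S / m !` -/
noncomputable def rowChk (L W c0 : ℕ) (s0 : Sc) (sch : List Sc) (tB tD : MK.Tr) (z : ℤ) : Bool :=
  fI (Int.neg (Int.mul (Int.ofNat (Nat.mul L L)) z)) fun Q =>
    rowsF (rowI L W tB tD) s0 fun T => mkTree L c0 sch T Q

/-- values of a class function at the level `m` from its table -/
def valChk (L c0 : ℕ) (sch : List Sc) (B : Ct) (P Q : ℤ) : Bool :=
  clTree L c0 sch B Q && decide (idVal c0 sch B ≤ P)

/-- the table of the both function, times `L ^ 2 * σ` -/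
noncomputable def bothI (L W : ℕ) (tB tD : MK.Tr) (c : ℕ) (us : List ℕ) : ℤ :=
  MK.sumL us (fun u => rowI L W tB tD c u)

/-- the check of both; `W2 = w / S`, `S22 = z / S` -/
noncomputable def bothChk (L W c0 m : ℕ) (s0 : Sc) (sch : List Sc) (tB tD : MK.Tr) (w z : ℤ) :
    Bool :=
  rowsC (bothI L W tB tD) s0 fun B =>
    fI (Int.mul (Int.ofNat (L * L * (m + 1))) (Int.add (Int.mul (Int.ofNat m.factorial) w)
      (Int.neg z))) fun P =>
    fI (Int.mul (Int.ofNat (L * L * (m + 1))) (Int.neg z)) fun Q => valChk L c0 sch B P Q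

/-- search tree of codes -/
inductive CT where
  | l : ℕ → CT
  | t : ℕ → CT → CT → CT

/-- search tree of values -/
inductive VT where
  | l : ℤ → VT
  | t : ℕ → VT → VT → VT

/-- the code found in the tree -/
def fndC : CT → ℕ → ℕ
  | .l a, _ => a
  | .t k x y, c => bif Nat.ble k c then fndC y c else fndC x c

/-- the value found in the tree -/
def fndV : VT → ℕ → ℤ
  | .l a, _ => a
  | .t k x y, c => bif Nat.ble k c then fndV y c else fndV x c

/-- forced value tree -/
def mapV {β : Type} (g : ℕ → ℤ) : CT → (VT → β) → β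
  | .l c, k => fI (g c) fun z => k (.l z)
  | .t a x y, k => mapV g x fun x' => mapV g y fun y' => k (.t a x' y')

/-- value tree -/
def mapT (g : ℕ → ℤ) : CT → VT
  | .l c => .l (g c)
  | .t a x y => .t a (mapT g x) (mapT g y)

/-- forced list -/
def fL {β : Type} : List ℕ → (List ℕ → β) → β
  | [], k => k []
  | a :: l, k => fN a fun a' => fL l fun l' => k (a' :: l')

/-- the cell function at a code -/
noncomputable def cellI (W : ℕ) (tB : MK.Tr) (c : ℕ) : ℤ :=
  fL (MK.posl 1 W c) fun l => MK.sumL l (fun x => MK.sumL l (fun y => MK.gt tB c x y))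

/-- harmonic descent -/
noncomputable def desc {β : Type} (W : ℕ) : List CT → VT → (VT → β) → β
  | [], V, k => k V
  | T :: r, V, k =>
    mapV (fun c => MK.sumL (MK.posl 1 W c) (fun x => fndV V (Nat.add c (Nat.pow 2 x)))) T
      fun V' => desc W r V' k

/-- all the trees of codes are complete -/
noncomputable def tChk : List (List ℕ) → List CT → Bool
  | _, [] => true
  | [], _ :: _ => false
  | l :: ls, T :: Ts => MK.allL l (fun c => Nat.beq (fndC T c) c) && tChk ls Ts

/-- the check of the cell function; `W1 = w / S`, `s11 = z / S`; `F1 = n! / m!`, `G1 = n!` -/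
noncomputable def cellChk (L W c0 : ℕ) (Tn : CT) (Ts : List CT) (s0 : Sc) (sch : List Sc)
    (tB : MK.Tr) (F1 G1 : ℕ) (w z : ℤ) : Bool :=
  mapV (cellI W tB) Tn fun V => desc W Ts V fun V' => rowsC (fun c _ => fndV V' c) s0 fun B =>
    fI (Int.add (Int.mul (Int.ofNat G1) w) (Int.neg (Int.mul (Int.ofNat F1) z))) fun P =>
    fI (Int.neg (Int.mul (Int.ofNat F1) z)) fun Q => valChk L c0 sch B P Q

end Pool.JM.RT

namespace Pool.PsdZ

open Pool.JM.RT (fI)

/-- forced `row` -/
def rowK {β : Type} (a ui : ℤ) : List ℤ → List ℤ → (List ℤ → β) → β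
  | z :: zs, y :: ys, k => fI (a * z - ui * y) fun v => rowK a ui zs ys fun l => k (v :: l)
  | _, _, k => k []

/-- forced `step` -/
def stepK {β : Type} (a : ℤ) : List ℤ → List (List ℤ) → (List (List ℤ) → β) → β
  | ui :: us, r :: rs, k => rowK a ui r (ui :: us) fun v => stepK a us rs fun l => k (v :: l)
  | _, _, k => k []

/-- the forced check -/
def psdK : ℕ → List (List ℤ) → Bool
  | _, [] => true
  | n + 1, (a :: u) :: rows => Nat.ble 1 a.toNat && stepK a u rows fun rs => psdK n rs
  | _, _ => false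

/-- forced list -/
def lstK {β : Type} (f : ℕ → ℤ) : List ℕ → (List ℤ → β) → β
  | [], k => k []
  | x :: xs, k => fI (f x) fun v => lstK f xs fun l => k (v :: l)

/-- forced triangular rows -/
def mkK {β : Type} (B : ℕ → ℕ → ℤ) : List ℕ → (List (List ℤ) → β) → β
  | [], k => k []
  | x :: xs, k => lstK (B x) (x :: xs) fun r => mkK B xs fun l => k (r :: l)

end Pool.PsdZ

namespace Pool.JM.MK

open Pool.PsdZ

/-- the block of the code `c` is positive definite -/
noncomputable def chP (W : ℕ) (t : Tr) (c : ℕ) : Bool :=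
  mkK (gt t c) (posl 1 W c) fun rows => psdK 64 rows

end Pool.JM.MK
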