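import Pool.Agent.Work.MP_46fa68_31.NormV
import Pool.Agent.Work.MP_46fa68_31.RtD
import Mathlib.Combinatorics.Colex

/-! # Integer evaluation of the peeling recursions

Shapes are coded by `cd C = ∑ 2^i`. A schema is the list of the levels `k-1, ..., 0`, each level a list of
`(code, list of the movable beads)`. Everything is in the kernel friendly form: forced integers, lists. -/

set_option autoImplicit false

open Finset

namespace Pool.JM.RT

/-! ## forcing -/

theorem fN_eq {β : Type} (n : ℕ) (k : ℕ → β) : fN n k = k n := by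
  cases n <;> rfl

theorem fI_eq {β : Type} (z : ℤ) (k : ℤ → β) : fI z k = k z := by
  cases z with
  | ofNat n => exact fN_eq n (fun n => k (Int.ofNat n))
  | negSucc n => exact fN_eq n (fun n => k (Int.negSucc n))

theorem mapF_eq {β : Type} (g : ℕ → ℤ) : ∀ (us : List ℕ) (k : List (ℕ × ℤ) → β),
    mapF g us k = k (us.map fun u => (u, g u)) := by
  intro us
  induction us with
  | nil => intro k; rfl
  | cons u us ih =>
    intro k
    change fI (g u) (fun z => mapF g us fun l => k ((u, z) :: l)) = _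
    rw [fI_eq, ih]
    rfl

theorem rowsF_eq {β : Type} (g : ℕ → ℕ → ℤ) : ∀ (s : Sc) (k : Tb → β),
    rowsF g s k = k (s.map fun p => (p.1, p.2.map fun u => (u, g p.1 u))) := by
  intro s
  induction s with
  | nil => intro k; rfl
  | cons p r ih =>
    intro k
    obtain ⟨c, us⟩ := p
    change mapF (g c) us (fun l => rowsF g r fun t => k ((c, l) :: t)) = _
    rw [mapF_eq, ih]
    rfl

theorem rowsC_eq {β : Type} (g : ℕ → List ℕ → ℤ) : ∀ (s : Sc) (k : Ct → β),
    rowsC g s k = k (s.map fun p => (p.1, g p.1 p.2)) := by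
  intro s
  induction s with
  | nil => intro k; rfl
  | cons p r ih =>
    intro k
    obtain ⟨c, us⟩ := p
    change fI (g c us) (fun z => rowsC g r fun t => k ((c, z) :: t)) = _
    rw [fI_eq, ih]
    rfl

/-! ## look up -/

theorem look_map (f : ℕ → List ℕ → List (ℕ × ℤ)) {c : ℕ} {us : List ℕ} : ∀ (s : Sc),
    (∀ p ∈ s, p.1 = c → p.2 = us) → (∃ p ∈ s, p.1 = c) →
    look (s.map fun p => (p.1, f p.1 p.2)) c = f c us := by
  intro s
  induction s with
  | nil =>
    rintro - ⟨p, hp, -⟩
    exact absurd hp (by simp)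
  | cons p r ih =>
    intro h1 h2
    change (bif Nat.beq p.1 c then f p.1 p.2 else look (r.map fun p => (p.1, f p.1 p.2)) c) = _
    by_cases h : p.1 = c
    · have hb : Nat.beq p.1 c = true := by rw [h]; exact Nat.beq_refl c
      rw [hb, cond_true, h, h1 p (by simp) h]
    · have hb : Nat.beq p.1 c = false := by
        rw [Bool.eq_false_iff]
        exact fun h' => h (Nat.eq_of_beq_eq_true h')
      rw [hb, cond_false]
      refine ih (fun q hq => h1 q (List.mem_cons_of_mem _ hq)) ?_
      obtain ⟨q, hq, hq'⟩ := h2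
      rcases List.mem_cons.1 hq with h3 | h3
      · exact absurd (h3 ▸ hq') h
      · exact ⟨q, h3, hq'⟩

theorem lookC_map (f : ℕ → List ℕ → ℤ) {c : ℕ} {us : List ℕ} : ∀ (s : Sc),
    (∀ p ∈ s, p.1 = c → p.2 = us) → (∃ p ∈ s, p.1 = c) →
    lookC (s.map fun p => (p.1, f p.1 p.2)) c = f c us := by
  intro s
  induction s with
  | nil =>
    rintro - ⟨p, hp, -⟩
    exact absurd hp (by simp)
  | cons p r ih =>
    intro h1 h2
    change (bif Nat.beq p.1 c then f p.1 p.2 else lookC (r.map fun p => (p.1, f p.1 p.2)) c) = _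
    by_cases h : p.1 = c
    · have hb : Nat.beq p.1 c = true := by rw [h]; exact Nat.beq_refl c
      rw [hb, cond_true, h, h1 p (by simp) h]
    · have hb : Nat.beq p.1 c = false := by
        rw [Bool.eq_false_iff]
        exact fun h' => h (Nat.eq_of_beq_eq_true h')
      rw [hb, cond_false]
      refine ih (fun q hq => h1 q (List.mem_cons_of_mem _ hq)) ?_
      obtain ⟨q, hq, hq'⟩ := h2
      rcases List.mem_cons.1 hq with h3 | h3
      · exact absurd (h3 ▸ hq') h
      · exact ⟨q, h3, hq'⟩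

/-! ## the evaluator -/

/-! ## codes -/

/-- code of a bead set -/
def cd (C : Finset ℕ) : ℕ := ∑ i ∈ C, 2 ^ i

theorem testBit_cd (C : Finset ℕ) (i : ℕ) : (cd C).testBit i = true ↔ i ∈ C := by
  unfold cd
  rw [← Nat.mem_bitIndices, ← List.mem_toFinset, Finset.toFinset_bitIndices_sum_two_pow]

theorem cd_inj {C D : Finset ℕ} (h : cd C = cd D) : C = D := by
  ext i
  rw [← testBit_cd, ← testBit_cd, h]

theorem mem_adL {K : ℕ} {C : Finset ℕ} (hK : ∀ x ∈ C, x < K) (i : ℕ) :
    i ∈ adL K (cd C) ↔ i ∈ ad C := by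
  unfold adL
  rw [List.mem_filter, List.mem_range, mem_ad, Bool.and_eq_true, Bool.not_eq_true',
    testBit_cd, Bool.eq_false_iff, Ne, testBit_cd]
  exact ⟨fun h => h.2, fun h => ⟨hK i h.1, h⟩⟩

theorem adL_nodup (K c : ℕ) : (adL K c).Nodup := List.Nodup.filter _ List.nodup_range

theorem sum_adL {α : Type} [AddCommMonoid α] {K : ℕ} {C : Finset ℕ} (hK : ∀ x ∈ C, x < K)
    (f : ℕ → α) : ((adL K (cd C)).map f).sum = ∑ x ∈ ad C, f x := by
  rw [← List.sum_toFinset f (adL_nodup K _)]
  refine Finset.sum_congr ?_ fun _ _ => rfl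
  ext i
  rw [List.mem_toFinset, mem_adL hK]

theorem cd_mv {C : Finset ℕ} {u : ℕ} (hu : u ∈ ad C) : cd (mv C u) = cd C + 2 ^ u := by
  obtain ⟨h1, h2⟩ := mem_ad.1 hu
  have n1 : u + 1 ∉ C.erase u := fun h => h2 (mem_of_mem_erase h)
  unfold cd mv
  rw [Finset.sum_insert n1]
  have e : 2 ^ u + ∑ i ∈ C.erase u, 2 ^ i = ∑ i ∈ C, 2 ^ i :=
    Finset.add_sum_erase C (fun i => 2 ^ i) h1
  rw [← e, pow_succ]
  ring

theorem Lv_lt {M k : ℕ} {C : Finset ℕ} (hC : C ∈ Lv M k) : ∀ x ∈ C, x < M + k :=
  (Lv_spec hC).2.2.1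

/-! ## the schema -/

/-- a level of the schema is complete and correct -/
def Good31 (M K k : ℕ) (s : Sc) : Prop :=
  (∀ p ∈ s, p.2 = adL K p.1) ∧ ∀ C ∈ Lv M k, ∃ p ∈ s, p.1 = cd C

/-- the weights are exact -/
def Div31 (M L k : ℕ) : Prop :=
  ∀ C ∈ Lv M k, ∀ u ∈ ad C, ∀ y ∈ ad (mv C u), (y - u + (u - y)) ∣ L

theorem scOK_sound {M K c0 : ℕ} (hc0 : c0 = cd (range M)) : ∀ (sch : List Sc) (up : List ℕ)
    (k : ℕ), sch.length = k → M + k ≤ K → scOK K c0 up sch = true →
    (∀ C ∈ Lv M k, cd C ∈ up) ∧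
    ∀ (i : ℕ) (hi : i < sch.length), Good31 M K (k - 1 - i) sch[i] := by
  intro sch
  induction sch with
  | nil =>
    intro up k hk hK h
    have hk0 : k = 0 := hk.symm
    subst hk0
    refine ⟨?_, fun i hi => absurd hi (by simp)⟩
    intro C hC
    have hC' : C = range M := by
      have h' : C ∈ ({range M} : Finset (Finset ℕ)) := hC
      exact mem_singleton.1 h'
    have h1 : up.contains c0 = true := h
    rw [hC', ← hc0]
    exact List.contains_iff_mem.1 h1
  | cons s r ih =>
    intro up k hk hK h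
    obtain ⟨j, rfl⟩ : ∃ j, k = j + 1 := ⟨r.length, by rw [← hk]; rfl⟩
    have h' : (lvOK K up s && scOK K c0 (s.map fun p => p.1) r) = true := h
    rw [Bool.and_eq_true] at h'
    obtain ⟨h1, h2⟩ := h'
    obtain ⟨i1, i2⟩ := ih (s.map fun p => p.1) j (by simpa using hk) (by omega) h2
    have hs : ∀ p ∈ s, p.2 = adL K p.1 ∧ ∀ u ∈ p.2, (p.1 + 2 ^ u) ∈ up := by
      intro p hp
      have h3 := List.all_eq_true.1 h1 p hp
      rw [Bool.and_eq_true] at h3
      obtain ⟨h4, h5⟩ := h3
      exact ⟨by simpa using h4, fun u hu => List.contains_iff_mem.1 (List.all_eq_true.1 h5 u hu)⟩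
    have hcomp : ∀ C ∈ Lv M j, ∃ p ∈ s, p.1 = cd C := by
      intro C hC
      obtain ⟨p, hp, hp'⟩ := List.mem_map.1 (i1 C hC)
      exact ⟨p, hp, hp'⟩
    have hmem : ∀ C ∈ Lv M j, ∀ u ∈ ad C, ∃ p ∈ s, p.1 = cd C ∧ u ∈ p.2 := by
      intro C hC u hu
      obtain ⟨p, hp, hp'⟩ := hcomp C hC
      refine ⟨p, hp, hp', ?_⟩
      rw [(hs p hp).1, hp']
      exact (mem_adL (fun x hx => by have := Lv_lt hC x hx; omega) u).2 hu
    constructor
    · intro C' hC'
      have hC'' : C' ∈ (Lv M j).biUnion fun C => (ad C).image (mv C) := hC'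
      rw [mem_biUnion] at hC''
      obtain ⟨C, hC, h3⟩ := hC''
      obtain ⟨u, hu, rfl⟩ := mem_image.1 h3
      obtain ⟨p, hp, hp', hup⟩ := hmem C hC u hu
      rw [cd_mv hu, ← hp']
      exact (hs p hp).2 u hup
    · intro i hi
      rcases i with _ | i
      · exact ⟨fun p hp => (hs p hp).1, hcomp⟩
      · have h3 := i2 i (by simpa using hi)
        have e : j + 1 - 1 - (i + 1) = j - 1 - i := by omega
        rw [e]
        exact h3

/-! ## soundness -/

/-- the table `T` represents the one-mark function `A` of level `k` with the factor `S` -/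
def Rep (M K k : ℕ) (T : Tb) (A : Finset ℕ → Finset ℕ → ℝ) (S : ℝ) : Prop :=
  ∀ C ∈ Lv M k, ∃ z : ℕ → ℤ, look T (cd C) = (adL K (cd C)).map (fun u => (u, z u)) ∧
    ∀ u ∈ ad C, (z u : ℝ) = S * A (mv C u) C

/-- the table `B` represents the class function `b` of level `k` with the factor `S` -/
def RepC (M k : ℕ) (B : Ct) (b : Finset ℕ → ℝ) (S : ℝ) : Prop :=
  ∀ C ∈ Lv M k, (lookC B (cd C) : ℝ) = S * b C

theorem sumV_map (z : ℕ → ℤ) : ∀ l : List ℕ, sumV (l.map fun u => (u, z u)) = (l.map z).sum := by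
  intro l
  induction l with
  | nil => rfl
  | cons a l ih =>
    change z a + sumV (l.map fun u => (u, z u)) = _
    rw [ih, List.map_cons, List.sum_cons]

theorem sumP_map (L u : ℕ) (z : ℕ → ℤ) : ∀ l : List ℕ,
    sumP L u (l.map fun y => (y, z y)) = (l.map fun y => cf L y u * z y).sum := by
  intro l
  induction l with
  | nil => rfl
  | cons a l ih =>
    change cf L a u * z a + sumP L u (l.map fun y => (y, z y)) = _
    rw [ih, List.map_cons, List.sum_cons]

theorem sumB_map (B : Ct) (c : ℕ) : ∀ l : List ℕ,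
    sumB B c l = (l.map fun u => lookC B (c + 2 ^ u)).sum := by
  intro l
  induction l with
  | nil => rfl
  | cons a l ih =>
    change lookC B (c + 2 ^ a) + sumB B c l = _
    rw [ih, List.map_cons, List.sum_cons]

theorem cf_eq {L y u : ℕ} (hne : y ≠ u) (h0 : (y - u + (u - y)) ∣ L) :
    ((cf L y u : ℤ) : ℝ) = L * ((y : ℝ) - u)⁻¹ := by
  unfold cf
  by_cases h : u < y
  · have hb : Nat.blt u y = true := by rw [Nat.blt_eq]; exact h
    rw [hb, cond_true]
    have e0 : y - u + (u - y) = y - u := by omega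
    rw [e0] at h0
    obtain ⟨q, hq⟩ := h0
    have hpos : 0 < y - u := by omega
    have e : L / (y - u) = q := by
      rw [hq]
      exact Nat.mul_div_cancel_left q hpos
    rw [e, hq]
    have hr : ((y - u : ℕ) : ℝ) = (y : ℝ) - u := by
      rw [Nat.cast_sub h.le]
    have hr0 : (y : ℝ) - u ≠ 0 := by
      rw [← hr]
      exact_mod_cast hpos.ne'
    rw [Nat.cast_mul, hr, mul_comm, ← mul_assoc, inv_mul_cancel₀ hr0, one_mul]
    simp
  · have hb : Nat.blt u y = false := by
      rw [Bool.eq_false_iff]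
      exact fun h' => h (by rwa [Nat.blt_eq] at h')
    rw [hb, cond_false]
    have e0 : y - u + (u - y) = u - y := by omega
    rw [e0] at h0
    obtain ⟨q, hq⟩ := h0
    have hlt : y < u := by omega
    have hpos : 0 < u - y := by omega
    have e : L / (u - y) = q := by
      rw [hq]
      exact Nat.mul_div_cancel_left q hpos
    rw [e, hq]
    have hr : ((u - y : ℕ) : ℝ) = -((y : ℝ) - u) := by
      rw [Nat.cast_sub hlt.le]
      ring
    have hr0 : (y : ℝ) - u ≠ 0 := by
      intro h'
      rw [h', neg_zero] at hr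
      have : (u - y : ℕ) = 0 := by exact_mod_cast hr
      omega
    rw [Nat.cast_mul, hr]
    change ((-(q : ℤ) : ℤ) : ℝ) = _
    push_cast
    field_simp

theorem list_cast (f : ℕ → ℤ) : ∀ l : List ℕ, (((l.map f).sum : ℤ) : ℝ) =
    (l.map fun u => ((f u : ℤ) : ℝ)).sum := by
  intro l
  induction l with
  | nil => simp
  | cons a l ih =>
    rw [List.map_cons, List.sum_cons, List.map_cons, List.sum_cons, Int.cast_add, ih]

section steps

variable {M K k : ℕ} (hK : M + (k + 1) ≤ K)

include hK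

theorem bd_of {C : Finset ℕ} (hC : C ∈ Lv M k) : ∀ x ∈ C, x < K := fun x hx => by
  have := Lv_lt hC x hx
  omega

theorem bd_of' {C : Finset ℕ} (hC : C ∈ Lv M (k + 1)) : ∀ x ∈ C, x < K := fun x hx => by
  have := Lv_lt hC x hx
  omega

omit hK in
theorem rep_step {s : Sc} (hs : Good31 M K k s) {S' : ℝ}
    (g : ℕ → ℕ → ℤ) (A' : Finset ℕ → Finset ℕ → ℝ)
    (h : ∀ C ∈ Lv M k, ∀ u ∈ ad C, (g (cd C) u : ℝ) = S' * A' (mv C u) C) :
    Rep M K k (s.map fun p => (p.1, p.2.map fun u => (u, g p.1 u))) A' S' := by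
  intro C hC
  refine ⟨g (cd C), ?_, fun u hu => h C hC u hu⟩
  exact look_map (fun c us => us.map fun u => (u, g c u)) s
    (fun p hp hp' => by rw [hs.1 p hp, hp']) (hs.2 C hC)

theorem gPE_eq {L : ℕ} (hdiv : Div31 M L k) {T : Tb} {A : Finset ℕ → Finset ℕ → ℝ} {S : ℝ}
    (hT : Rep M K (k + 1) T A S) : ∀ C ∈ Lv M k, ∀ u ∈ ad C,
    ((sumP L u (look T (cd C + 2 ^ u)) : ℤ) : ℝ) = (S * L) * nPE A (mv C u) C := by
  intro C hC u hu
  obtain ⟨z, hz1, hz2⟩ := hT (mv C u) (mv_mem hC hu)
  rw [← cd_mv hu, hz1, sumP_map, list_cast, sum_adL (bd_of' hK (mv_mem hC hu))]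
  unfold nPE
  rw [ub_mv hu, Finset.mul_sum]
  refine Finset.sum_congr rfl fun y hy => ?_
  rw [Int.cast_mul, cf_eq (path_ne hy) (hdiv C hC u hu y hy), hz2 y hy]
  ring

theorem gEX_eq {L : ℕ} {T : Tb} {A : Finset ℕ → Finset ℕ → ℝ} {S : ℝ}
    (hT : Rep M K (k + 1) T A S) : ∀ C ∈ Lv M k, ∀ u ∈ ad C,
    (((Int.ofNat L) * sumV (look T (cd C + 2 ^ u)) : ℤ) : ℝ) = (S * L) * nEX A (mv C u) := by
  intro C hC u hu
  obtain ⟨z, hz1, hz2⟩ := hT (mv C u) (mv_mem hC hu)
  rw [← cd_mv hu, hz1, sumV_map, Int.cast_mul, list_cast, sum_adL (bd_of' hK (mv_mem hC hu))]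
  unfold nEX
  rw [Finset.mul_sum, Finset.mul_sum]
  refine Finset.sum_congr rfl fun y hy => ?_
  rw [hz2 y hy]
  change ((L : ℤ) : ℝ) * _ = _
  push_cast
  ring

end steps

theorem tree_sound {M K L c0 : ℕ} (hc0 : c0 = cd (range M)) (hL : 0 < L) :
    ∀ (k : ℕ) (sch : List Sc) (T : Tb) (A : Finset ℕ → Finset ℕ → ℝ) (S q : ℝ) (Q : ℤ),
    sch.length = k → M + k ≤ K →
    (∀ (i : ℕ) (hi : i < sch.length), Good31 M K (k - 1 - i) sch[i] ∧ Div31 M L (k - 1 - i)) →
    Rep M K k T A S → 0 < S → (Q : ℝ) ≤ S * q → tree L c0 sch T Q = true → nMaV M k A q := by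
  intro k
  induction k with
  | zero =>
    intro sch T A S q Q hlen hK _ hT hS hQ h
    have hsch : sch = [] := List.length_eq_zero_iff.1 hlen
    subst hsch
    have h1 : sumV (look T c0) ≤ Q := by
      have h' : decide (sumV (look T c0) ≤ Q) = true := h
      exact of_decide_eq_true h'
    have h0 : range M ∈ Lv M 0 := by
      change range M ∈ ({range M} : Finset (Finset ℕ))
      exact mem_singleton_self _
    obtain ⟨z, hz1, hz2⟩ := hT (range M) h0
    rw [hc0, hz1, sumV_map] at h1
    have h2 : (((adL K (cd (range M))).map z).sum : ℝ) ≤ S * q := by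
      refine le_trans ?_ hQ
      exact_mod_cast h1
    rw [list_cast, sum_adL (fun x hx => by have := mem_range.1 hx; omega)] at h2
    change nEX A (range M) ≤ q
    unfold nEX
    have e : ∑ u ∈ ad (range M), ((z u : ℤ) : ℝ) = S * ∑ x ∈ ad (range M), A (mv (range M) x)
        (range M) := by
      rw [Finset.mul_sum]
      exact Finset.sum_congr rfl fun u hu => hz2 u hu
    rw [e] at h2
    exact le_of_mul_le_mul_left h2 hS
  | succ k ih =>
    intro sch T A S q Q hlen hK hsch hT hS hQ h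
    match sch, hlen, hsch, h with
    | s :: r, hlen, hsch, h =>
      have hr : r.length = k := by simpa using hlen
      have h0 := hsch 0 (by simp)
      have hg : Good31 M K k s := h0.1
      have hd : Div31 M L k := h0.2
      have h' : fI (Int.ofNat L * Q) (fun Q' =>
          (rowsF (fun c u => sumP L u (look T (c + 2 ^ u))) s fun T' => tree L c0 r T' Q') &&
          (rowsF (fun c u => Int.ofNat L * sumV (look T (c + 2 ^ u))) s
            fun T' => tree L c0 r T' Q')) = true := h
      rw [fI_eq, rowsF_eq, rowsF_eq, Bool.and_eq_true] at h'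
      have hLr : (0 : ℝ) < L := by exact_mod_cast hL
      have hQ' : ((Int.ofNat L * Q : ℤ) : ℝ) ≤ (S * L) * q := by
        rw [Int.cast_mul]
        change ((L : ℤ) : ℝ) * Q ≤ _
        push_cast
        calc (L : ℝ) * Q ≤ L * (S * q) := mul_le_mul_of_nonneg_left hQ hLr.le
          _ = _ := by ring
      have hsub : ∀ (i : ℕ) (hi : i < r.length), Good31 M K (k - 1 - i) r[i] ∧
          Div31 M L (k - 1 - i) := by
        intro i hi
        have := hsch (i + 1) (by simpa using hi)
        have e : k + 1 - 1 - (i + 1) = k - 1 - i := by omega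
        rw [e] at this
        exact this
      refine ⟨ih r _ (nPE A) (S * L) q _ hr (by omega) hsub ?_ (mul_pos hS hLr) hQ' h'.1,
        ih r _ (fun B _ => nEX A B) (S * L) q _ hr (by omega) hsub ?_ (mul_pos hS hLr) hQ' h'.2⟩
      · exact rep_step hg (fun c u => sumP L u (look T (c + 2 ^ u))) (nPE A) (gPE_eq hK hd hT)
      · exact rep_step hg (fun c u => Int.ofNat L * sumV (look T (c + 2 ^ u)))
          (fun B _ => nEX A B) (gEX_eq hK hT)

theorem mkTree_sound {M K L c0 : ℕ} (hc0 : c0 = cd (range M)) (hL : 0 < L) {k : ℕ}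
    {sch : List Sc} {T : Tb} {A : Finset ℕ → Finset ℕ → ℝ} {S q : ℝ} {Q : ℤ}
    (hlen : sch.length = k) (hK : M + k ≤ K)
    (hsch : ∀ (i : ℕ) (hi : i < sch.length), Good31 M K (k - 1 - i) sch[i] ∧
      Div31 M L (k - 1 - i))
    (hT : Rep M K k T A S) (hS : 0 < S) (hQ : (Q : ℝ) ≤ S * q)
    (h : mkTree L c0 sch T Q = true) : nMkV M k A q := by
  cases k with
  | zero => trivial
  | succ k =>
    match sch, hlen, hsch, h with
    | s :: r, hlen, hsch, h =>
      have hr : r.length = k := by simpa using hlen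
      have h0 := hsch 0 (by simp)
      have hg : Good31 M K k s := h0.1
      have hd : Div31 M L k := h0.2
      have h' : fI (Int.ofNat L * Q) (fun Q' =>
          rowsF (fun c u => sumP L u (look T (c + 2 ^ u))) s fun T' => tree L c0 r T' Q') =
          true := h
      rw [fI_eq, rowsF_eq] at h'
      have hLr : (0 : ℝ) < L := by exact_mod_cast hL
      have hQ' : ((Int.ofNat L * Q : ℤ) : ℝ) ≤ (S * L) * q := by
        rw [Int.cast_mul]
        change ((L : ℤ) : ℝ) * Q ≤ _
        push_cast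
        calc (L : ℝ) * Q ≤ L * (S * q) := mul_le_mul_of_nonneg_left hQ hLr.le
          _ = _ := by ring
      have hsub : ∀ (i : ℕ) (hi : i < r.length), Good31 M K (k - 1 - i) r[i] ∧
          Div31 M L (k - 1 - i) := by
        intro i hi
        have := hsch (i + 1) (by simpa using hi)
        have e : k + 1 - 1 - (i + 1) = k - 1 - i := by omega
        rw [e] at this
        exact this
      exact tree_sound hc0 hL k r _ (nPE A) (S * L) q _ hr (by omega) hsub
        (rep_step hg (fun c u => sumP L u (look T (c + 2 ^ u))) (nPE A) (gPE_eq hK hd hT))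
        (mul_pos hS hLr) hQ' h'

/-- the expectation of a class function, tables -/
theorem repC_step {M K k : ℕ} (hK : M + (k + 1) ≤ K) {s : Sc} (hs : Good31 M K k s) {B : Ct}
    {b : Finset ℕ → ℝ} {S : ℝ} (hB : RepC M (k + 1) B b S) :
    RepC M k (s.map fun p => (p.1, sumB B p.1 p.2)) (nEX fun C _ => b C) S := by
  intro C hC
  have hbd : ∀ x ∈ C, x < K := bd_of hK hC
  rw [lookC_map (fun c us => sumB B c us) s (us := adL K (cd C))
    (fun p hp hp' => by rw [hs.1 p hp, hp']) (hs.2 C hC), sumB_map, list_cast, sum_adL hbd]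
  unfold nEX
  rw [Finset.mul_sum]
  refine Finset.sum_congr rfl fun u hu => ?_
  rw [← cd_mv hu]
  exact hB _ (mv_mem hC hu)

theorem rep_of_repC {M K k : ℕ} {s : Sc} (hs : Good31 M K k s) {B : Ct}
    {b : Finset ℕ → ℝ} {S : ℝ} (hB : RepC M (k + 1) B b S) :
    Rep M K k (s.map fun p => (p.1, p.2.map fun u => (u, lookC B (p.1 + 2 ^ u))))
      (fun C _ => b C) S :=
  rep_step hs (fun c u => lookC B (c + 2 ^ u)) (fun C _ => b C) fun C hC u hu => by
    rw [← cd_mv hu]
    exact hB _ (mv_mem hC hu)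

theorem clTree_sound {M K L c0 : ℕ} (hc0 : c0 = cd (range M)) (hL : 0 < L) :
    ∀ (l : ℕ) (sch : List Sc) (B : Ct) (b : Finset ℕ → ℝ) (S q : ℝ) (Q : ℤ),
    sch.length = l → M + l ≤ K →
    (∀ (i : ℕ) (hi : i < sch.length), Good31 M K (l - 1 - i) sch[i] ∧ Div31 M L (l - 1 - i)) →
    RepC M l B b S → 0 < S → (Q : ℝ) ≤ S * q → clTree L c0 sch B Q = true → nClV M l b q := by
  intro l
  induction l with
  | zero =>
    intro sch B b S q Q _ _ _ _ _ _ _
    trivial
  | succ l ih =>
    intro sch B b S q Q hlen hK hsch hB hS hQ h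
    match sch, hlen, hsch, h with
    | s :: r, hlen, hsch, h =>
      have hr : r.length = l := by simpa using hlen
      have h0 := hsch 0 (by simp)
      have hg : Good31 M K l s := h0.1
      have h' : ((rowsF (fun c u => lookC B (c + 2 ^ u)) s fun T => mkTree L c0 r T Q) &&
          (rowsC (fun c us => sumB B c us) s fun B' => clTree L c0 r B' Q)) = true := h
      rw [rowsF_eq, rowsC_eq, Bool.and_eq_true] at h'
      have hsub : ∀ (i : ℕ) (hi : i < r.length), Good31 M K (l - 1 - i) r[i] ∧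
          Div31 M L (l - 1 - i) := by
        intro i hi
        have := hsch (i + 1) (by simpa using hi)
        have e : l + 1 - 1 - (i + 1) = l - 1 - i := by omega
        rw [e] at this
        exact this
      exact ⟨mkTree_sound hc0 hL hr (by omega) hsub (rep_of_repC hg hB) hS hQ h'.1,
        ih r _ _ S q Q hr (by omega) hsub (repC_step hK hg hB) hS hQ h'.2⟩

theorem idVal_sound {M K c0 : ℕ} (hc0 : c0 = cd (range M)) :
    ∀ (l : ℕ) (sch : List Sc) (B : Ct) (b : Finset ℕ → ℝ) (S : ℝ),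
    sch.length = l → M + l ≤ K →
    (∀ (i : ℕ) (hi : i < sch.length), Good31 M K (l - 1 - i) sch[i]) →
    RepC M l B b S → ((idVal c0 sch B : ℤ) : ℝ) = S * nId M l b := by
  intro l
  induction l with
  | zero =>
    intro sch B b S hlen _ _ hB
    have hsch : sch = [] := List.length_eq_zero_iff.1 hlen
    subst hsch
    have h0 : range M ∈ Lv M 0 := by
      change range M ∈ ({range M} : Finset (Finset ℕ))
      exact mem_singleton_self _
    have := hB _ h0
    rw [← hc0] at this
    exact this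
  | succ l ih =>
    intro sch B b S hlen hK hsch hB
    match sch, hlen, hsch with
    | s :: r, hlen, hsch =>
      have hr : r.length = l := by simpa using hlen
      have hg : Good31 M K l s := hsch 0 (by simp)
      have hsub : ∀ (i : ℕ) (hi : i < r.length), Good31 M K (l - 1 - i) r[i] := by
        intro i hi
        have := hsch (i + 1) (by simpa using hi)
        have e : l + 1 - 1 - (i + 1) = l - 1 - i := by omega
        rw [e] at this
        exact this
      change ((rowsC (fun c us => sumB B c us) s fun B' => idVal c0 r B' : ℤ) : ℝ) = _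
      rw [rowsC_eq]
      exact ih r _ _ S hr (by omega) hsub (repC_step hK hg hB)

end Pool.JM.RT
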