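import Pool.Agent.Work.MP_46fa68_11.Cheb

/-!
# MP_46fa68_co: the sharp hook bound

`sharp`: a set of `a` distinct positive integers with sum `a (a+1)/2 + b`, `b ≤ q a`, has product
`≤ (a+q)! / ((q-1)! (q a - b + q))`.  `hk_sharp`: the product of the hooks of a row of length `a` with `b`
boxes below.
-/

set_option autoImplicit false

open Finset

namespace Pool.JM

namespace Sharp

/-- distinct numbers `≤ h`: upper bound of the sum -/
theorem sum_le_max (S : Finset ℕ) : ∀ h : ℕ, (∀ y ∈ S, y ≤ h) →
    2 * ∑ y ∈ S, y + S.card * (S.card - 1) ≤ 2 * S.card * h := by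
  induction S using Finset.induction_on_max with
  | empty => simp
  | insert m S hm ih =>
    intro h hh
    have hn : m ∉ S := fun hx => lt_irrefl m (hm m hx)
    rw [sum_insert hn, card_insert_of_notMem hn, Nat.add_sub_cancel]
    have hmh := hh m (mem_insert_self _ _)
    rcases Nat.eq_zero_or_pos S.card with h0 | h0
    · rw [h0]
      rw [card_eq_zero] at h0
      subst h0
      simp
      omega
    · have hm1 : 1 ≤ m := by
        obtain ⟨y, hy⟩ := card_pos.1 h0
        have := hm y hy
        omega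
      have h1 := ih (m - 1) fun y hy => by
        have := hm y hy
        omega
      obtain ⟨c, hc⟩ : ∃ c, S.card = c + 1 := ⟨S.card - 1, by omega⟩
      obtain ⟨n, rfl⟩ : ∃ n, m = n + 1 := ⟨m - 1, by omega⟩
      rw [hc, Nat.add_sub_cancel, Nat.add_sub_cancel] at h1
      rw [hc]
      nlinarith

/-- distinct positive numbers: lower bound of the sum -/
theorem sum_ge_min (S : Finset ℕ) : (∀ y ∈ S, 1 ≤ y) →
    S.card * (S.card + 1) ≤ 2 * ∑ y ∈ S, y := by
  induction S using Finset.induction_on_max with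
  | empty => simp
  | insert m S hm ih =>
    intro hh
    have hn : m ∉ S := fun hx => lt_irrefl m (hm m hx)
    rw [sum_insert hn, card_insert_of_notMem hn]
    have h1 := ih fun y hy => hh y (mem_insert_of_mem hy)
    have h2 : S.card + 1 ≤ m := by
      have h3 : insert m S ⊆ Icc 1 m := by
        intro y hy
        rw [mem_Icc]
        refine ⟨hh y hy, ?_⟩
        rcases mem_insert.1 hy with rfl | hy
        · exact le_rfl
        · exact (hm y hy).le
      have h4 := card_le_card h3
      rw [card_insert_of_notMem hn, Nat.card_Icc] at h4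
      omega
    nlinarith

/-- the induction step -/
theorem step (c h s P : ℕ) (hmax : 2 * (h + s) + (c + 1) * c ≤ 2 * (c + 1) * h)
    (hS1 : c * (c + 1) ≤ 2 * s) (hcard : c + 1 ≤ h)
    (IH : ∀ r b e : ℕ, 2 * s = c * (c + 1) + 2 * b → b ≤ (r + 1) * c → e + b = (r + 1) * (c + 1) →
      P * r.factorial * e ≤ (c + r + 1).factorial) :
    ∀ r b e : ℕ, 2 * (h + s) = (c + 1) * (c + 1 + 1) + 2 * b → b ≤ (r + 1) * (c + 1) →
      e + b = (r + 1) * (c + 1 + 1) → h * P * r.factorial * e ≤ (c + 1 + r + 1).factorial := by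
  obtain ⟨d, hd⟩ : ∃ d, h = c + 1 + d := ⟨h - (c + 1), by omega⟩
  -- the core, `(q - 1) a ≤ b ≤ q a`, `q = r + 1`
  have core : ∀ r b e : ℕ, 2 * (h + s) = (c + 1) * (c + 1 + 1) + 2 * b → b ≤ (r + 1) * (c + 1) →
      e + b = (r + 1) * (c + 1 + 1) → r * (c + 1) ≤ b →
      h * P * r.factorial * e ≤ (c + 1 + r + 1).factorial := by
    intro r b e h1 h2 h3 hge
    have hbd : b ≤ (c + 1) * d := by
      subst hd
      nlinarith
    have hdr : r ≤ d := by
      by_contra hcon
      have h4 : d + 1 ≤ r := by omega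
      have h5 := Nat.mul_le_mul_right (c + 1) h4
      have h6 : (d + 1) * (c + 1) = (c + 1) * d + (c + 1) := by ring
      omega
    have hdb : d ≤ b := by
      subst hd
      nlinarith
    have hor : b = r * (c + 1) ∨ r + 1 ≤ d := by
      by_contra hcon
      rw [not_or] at hcon
      have h4 : d = r := by omega
      subst h4
      have h5 : (c + 1) * d = d * (c + 1) := by ring
      omega
    have heu : e ≤ c + r + 2 := by
      have h4 : (r + 1) * (c + 1 + 1) = r * (c + 1) + (c + r + 2) := by ring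
      omega
    obtain ⟨b', rfl⟩ : ∃ b', b = b' + d := ⟨b - d, by omega⟩
    have hb2 : b' ≤ (r + 1) * c := by
      have h4 : (r + 1) * (c + 1) = (r + 1) * c + (r + 1) := by ring
      have h5 : r * (c + 1) = r * c + r := by ring
      have h6 : (r + 1) * c = r * c + c := by ring
      rcases hor with h0 | h0
      · omega
      · omega
    obtain ⟨e', he'⟩ : ∃ e', e' + (c + r + 2) = e + h := ⟨e + h - (c + r + 2), by
      have h4 : (r + 1) * (c + 1 + 1) = (r + 1) * (c + 1) + (r + 1) := by ring
      omega⟩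
    have k1 := IH r b' e' (by
      have h4 : (c + 1) * (c + 1 + 1) = c * (c + 1) + 2 * (c + 1) := by ring
      omega) hb2 (by
      have h4 : (r + 1) * (c + 1 + 1) = (r + 1) * (c + 1) + (r + 1) := by ring
      omega)
    have k2 : h * e ≤ (c + r + 2) * e' := by
      rcases hor with h0 | h0
      · have h4 : (r + 1) * (c + 1 + 1) = r * (c + 1) + (c + r + 2) := by ring
        have h5 : e = c + r + 2 := by omega
        have h6 : e' = h := by omega
        rw [h5, h6, mul_comm]
      · obtain ⟨f, hf⟩ : ∃ f, e + f = c + r + 2 := ⟨c + r + 2 - e, by omega⟩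
        obtain ⟨g, hg⟩ : ∃ g, h = c + r + 2 + g := ⟨h - (c + r + 2), by omega⟩
        have h6 : e' = e + g := by omega
        rw [h6, hg, ← hf]
        nlinarith
    rw [show c + 1 + r + 1 = (c + r + 1) + 1 by omega, Nat.factorial_succ]
    calc h * P * r.factorial * e = (P * r.factorial) * (h * e) := by ring
      _ ≤ (P * r.factorial) * ((c + r + 2) * e') := Nat.mul_le_mul_left _ k2
      _ = (c + r + 1 + 1) * (P * r.factorial * e') := by ring
      _ ≤ (c + r + 1 + 1) * (c + r + 1).factorial := Nat.mul_le_mul_left _ k1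
  intro r
  induction r with
  | zero =>
    intro b e h1 h2 h3
    exact core 0 b e h1 h2 h3 (by omega)
  | succ r ihr =>
    intro b e h1 h2 h3
    rcases Nat.lt_or_ge b ((r + 1) * (c + 1)) with hlt | hge
    · -- `b < (q - 1) a`
      obtain ⟨g, hg⟩ : ∃ g, g + b = (r + 1) * (c + 1) := ⟨(r + 1) * (c + 1) - b, by omega⟩
      have h4 : (r + 1) * (c + 1 + 1) = (r + 1) * (c + 1) + (r + 1) := by ring
      have h5 : (r + 1 + 1) * (c + 1 + 1) = (r + 1) * (c + 1) + (r + 1) + (c + 2) := by ring
      have k1 := ihr b (g + r + 1) h1 hlt.le (by omega)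
      have he : e = g + r + 1 + (c + 2) := by omega
      subst he
      rw [Nat.factorial_succ r, show c + 1 + (r + 1) + 1 = (c + 1 + r + 1) + 1 by omega,
        Nat.factorial_succ (c + 1 + r + 1)]
      have k2 : (r + 1) * (g + r + 1 + (c + 2)) ≤ (c + 1 + r + 1 + 1) * (g + r + 1) := by
        nlinarith
      calc h * P * ((r + 1) * r.factorial) * (g + r + 1 + (c + 2))
          = (h * P * r.factorial) * ((r + 1) * (g + r + 1 + (c + 2))) := by ring
        _ ≤ (h * P * r.factorial) * ((c + 1 + r + 1 + 1) * (g + r + 1)) :=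
            Nat.mul_le_mul_left _ k2
        _ = (c + 1 + r + 1 + 1) * (h * P * r.factorial * (g + r + 1)) := by ring
        _ ≤ (c + 1 + r + 1 + 1) * (c + 1 + r + 1).factorial := Nat.mul_le_mul_left _ k1
    · exact core (r + 1) b e h1 h2 h3 hge

end Sharp

/-- **the sharp product bound** (`q = r + 1`) -/
theorem sharp (S : Finset ℕ) : (∀ y ∈ S, 1 ≤ y) → ∀ r b e : ℕ,
    2 * ∑ y ∈ S, y = S.card * (S.card + 1) + 2 * b → b ≤ (r + 1) * S.card →
    e + b = (r + 1) * (S.card + 1) →
    (∏ y ∈ S, y) * r.factorial * e ≤ (S.card + r + 1).factorial := by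
  induction S using Finset.induction_on_max with
  | empty =>
    intro _ r b e h1 _ h3
    simp at h1 h3
    subst h1
    simp at h3
    subst h3
    simp only [prod_empty, one_mul, card_empty, zero_add]
    rw [Nat.factorial_succ, mul_comm]
  | insert h S hm ih =>
    intro hpos
    have hn : h ∉ S := fun hx => lt_irrefl h (hm h hx)
    have hposS : ∀ y ∈ S, 1 ≤ y := fun y hy => hpos y (mem_insert_of_mem hy)
    have IH := ih hposS
    have hS1 := Sharp.sum_ge_min S hposS
    have hmax := Sharp.sum_le_max (insert h S) h fun y hy => by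
      rcases mem_insert.1 hy with rfl | hy
      · exact le_rfl
      · exact (hm y hy).le
    have hcard : S.card + 1 ≤ h := by
      have h3 : insert h S ⊆ Icc 1 h := by
        intro y hy
        rw [mem_Icc]
        refine ⟨hpos y hy, ?_⟩
        rcases mem_insert.1 hy with rfl | hy
        · exact le_rfl
        · exact (hm y hy).le
      have h4 := card_le_card h3
      rw [card_insert_of_notMem hn, Nat.card_Icc] at h4
      omega
    rw [sum_insert hn, card_insert_of_notMem hn, Nat.add_sub_cancel] at hmax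
    rw [sum_insert hn, card_insert_of_notMem hn, prod_insert hn]
    exact Sharp.step S.card h (∑ y ∈ S, y) (∏ y ∈ S, y) hmax hS1 hcard IH

/-- the sum of the hooks of a row -/
theorem sum_holes (B : Finset ℕ) (x : ℕ) :
    2 * ∑ h ∈ hl B x, (x - h) = ln B x * (ln B x + 1) + 2 * bx B x := by
  have h1 : ∀ h ∈ hl B x, x - h = rk (hl B x) h + nb B x h := by
    intro h hh
    have := sub_hole hh
    omega
  rw [sum_congr rfl h1, sum_add_distrib, sum_nb]
  have h2 : ∑ h ∈ hl B x, rk (hl B x) h = ∑ l ∈ range (hl B x).card, (l + 1) := by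
    have h3 := prod_rk (fun n => (2 : ℝ) ^ n) (hl B x)
    rw [prod_pow_eq_pow_sum, prod_pow_eq_pow_sum] at h3
    exact pow_right_injective₀ (by norm_num : (0 : ℝ) < 2) (by norm_num) h3
  have h4 : ∀ n : ℕ, 2 * ∑ l ∈ range n, (l + 1) = n * (n + 1) := by
    intro n
    induction n with
    | zero => simp
    | succ n ih =>
      rw [sum_range_succ]
      nlinarith
  rw [h2, mul_add, h4, hl_card]

/-- **the sharp hook bound** -/
theorem hk_sharp (B : Finset ℕ) (x : ℕ) {r : ℕ} (h : bx B x ≤ (r + 1) * ln B x) :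
    hk B x ≤ ((ln B x + r + 1).factorial : ℝ) /
      ((r.factorial : ℝ) * (((r + 1) * (ln B x + 1) : ℕ) - (bx B x : ℝ))) := by
  have hinj : Set.InjOn (fun h => x - h) (hl B x : Finset ℕ) := by
    intro u hu v hv huv
    have h1 := (mem_hl.1 (mem_coe.1 hu)).1
    have h2 := (mem_hl.1 (mem_coe.1 hv)).1
    simp only at huv
    omega
  obtain ⟨e, he⟩ : ∃ e, e + bx B x = (r + 1) * (ln B x + 1) :=
    ⟨(r + 1) * (ln B x + 1) - bx B x, Nat.sub_add_cancel (by nlinarith)⟩
  have hcard : ((hl B x).image fun h => x - h).card = ln B x := by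
    rw [card_image_of_injOn hinj, hl_card]
  have h1 := sharp ((hl B x).image fun h => x - h)
    (fun y hy => by
      obtain ⟨u, hu, rfl⟩ := mem_image.1 hy
      have := (mem_hl.1 hu).1
      omega) r (bx B x) e
    (by rw [hcard, sum_image hinj]; exact sum_holes B x) (by rw [hcard]; exact h)
    (by rw [hcard]; exact he)
  rw [hcard, prod_image hinj] at h1
  have h2 : hk B x = ((∏ h ∈ hl B x, (x - h) : ℕ) : ℝ) := by
    rw [hk_holes, Nat.cast_prod]
    refine prod_congr rfl fun u hu => ?_
    rw [Nat.cast_sub (mem_hl.1 hu).1.le]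
  have h3 : (((r + 1) * (ln B x + 1) : ℕ) : ℝ) - (bx B x : ℝ) = e := by
    rw [← he]
    push_cast
    ring
  have he0 : 0 < e := by nlinarith
  have he0' : (0 : ℝ) < e := by exact_mod_cast he0
  have hr : (0 : ℝ) < (r.factorial : ℝ) := by exact_mod_cast Nat.factorial_pos _
  rw [h3, h2, le_div_iff₀ (mul_pos hr he0')]
  have h4 : ((∏ h ∈ hl B x, (x - h) : ℕ) : ℝ) * ((r.factorial : ℝ) * e) =
      (((∏ h ∈ hl B x, (x - h)) * r.factorial * e : ℕ) : ℝ) := by
    push_cast
    ring
  rw [h4]
  exact_mod_cast h1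

end Pool.JM
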