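import Pool.Agent.Work.MP_46fa68_31.NU5
import Pool.Agent.Work.MP_46fa68_56.RDefs

/-!
# MP_46fa68_co, NU: in the names of `RDefs.lean`
-/

set_option autoImplicit false

open Finset

namespace Pool.JM

theorem WOK_ww : WOK LR.ww := by
  constructor
  · unfold LR.ww
    rw [if_pos rfl]
  · intro j hj
    unfold LR.ww
    rw [if_neg (by omega)]

theorem WR_zero (m M : ℕ) (C : Finset ℕ) : LR.WR m M 0 C = W0 M (m - 3) (LR.WR m M) := by
  have h1 : LR.WR m M 0 C = W0 M (m - 3) (LR.WB m M) := by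
    unfold LR.WR
    rw [if_pos rfl]
  rw [h1]
  unfold W0
  refine sum_congr rfl fun j _ => ?_
  have h2 : LR.WR m M (j + 1) = LR.WB m M (j + 1) := by
    funext D
    unfold LR.WR
    rw [if_neg (by omega)]
  rw [h2]

/-- **NU** for the weights of `RDefs.lean` -/
theorem NU_WR {m : ℕ} (hm : 19 ≤ m) : Stmt_NU m (m - 3) (1 / 12) (LR.WR m) := by
  obtain ⟨t, rfl⟩ : ∃ t, m = t + 3 := ⟨m - 3, by omega⟩
  rw [Nat.add_sub_cancel]
  refine NU_main (by omega) WOK_ww ⟨0, fun M _ => ⟨fun i hi1 _ C _ => ?_, ?_⟩⟩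
  · unfold LR.WR LR.WB
    rw [if_neg (by omega), Nat.add_sub_cancel]
    push_cast
    rfl
  · have h := WR_zero (t + 3) M (range M)
    rw [Nat.add_sub_cancel] at h
    exact h

end Pool.JM
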