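import Pool.Agent.Work.MP_46fa68_T.LiftY
import Mathlib.Topology.MetricSpace.Contracting

/-!
# MP_46fa68_co: the exact lift, block FIXX (contraction)
-/

set_option autoImplicit false

open Finset

namespace Pool.JM

namespace FIXXAux

theorem Fo_lin (ω : ℕ → ℝ) (a b : ℝ) (f g : Finset ℕ → ℝ) :
    Fo ω (fun C => a * f C + b * g C) = fun C => a * Fo ω f C + b * Fo ω g C := by
  funext C
  unfold Fo
  rw [mul_sum, mul_sum, ← sum_add_distrib]
  exact sum_congr rfl fun x _ => by ring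

theorem Foi_lin (ω : ℕ → ℝ) (a b : ℝ) (k : ℕ) (f g : Finset ℕ → ℝ) :
    (Fo ω)^[k] (fun C => a * f C + b * g C) =
      fun C => a * (Fo ω)^[k] f C + b * (Fo ω)^[k] g C := by
  induction k with
  | zero => rfl
  | succ k ih => rw [Function.iterate_succ_apply', ih, Fo_lin, Function.iterate_succ_apply',
      Function.iterate_succ_apply']

theorem Dl_lin (a b : ℝ) (f g : Finset ℕ → ℝ) :
    Dl (fun C => a * f C + b * g C) = fun C => a * Dl f C + b * Dl g C := by
  funext C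
  unfold Dl
  rw [mul_sum, mul_sum, ← sum_add_distrib]

theorem Dli_lin (a b : ℝ) (k : ℕ) (f g : Finset ℕ → ℝ) :
    Dl^[k] (fun C => a * f C + b * g C) = fun C => a * Dl^[k] f C + b * Dl^[k] g C := by
  induction k with
  | zero => rfl
  | succ k ih => rw [Function.iterate_succ_apply', ih, Dl_lin, Function.iterate_succ_apply',
      Function.iterate_succ_apply']

theorem W0_lin (a b : ℝ) (M T : ℕ) (E F : ℕ → Finset ℕ → ℝ) :
    W0 M T (fun i C => a * E i C + b * F i C) = a * W0 M T E + b * W0 M T F := by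
  unfold W0
  rw [mul_sum, mul_sum, ← sum_add_distrib]
  refine sum_congr rfl fun j _ => ?_
  rw [Dli_lin a b (j + 1) (E (j + 1)) (F (j + 1))]
  ring

theorem YK_lin (a b : ℝ) (M T : ℕ) (E F : ℕ → Finset ℕ → ℝ) (l : ℕ) (C : Finset ℕ) :
    YK M T (fun i C => a * E i C + b * F i C) l C = a * YK M T E l C + b * YK M T F l C := by
  unfold YK
  rw [mul_sum, mul_sum, ← sum_add_distrib]
  refine sum_congr rfl fun i _ => ?_
  split_ifs
  · rw [Foi_lin (om M) a b (l - i) (E i) (F i)]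
    ring
  · ring

theorem abs_sgx (B : Finset ℕ) (x : ℕ) : |sgx B x| = 1 := by
  unfold sgx
  rw [abs_pow, abs_neg, abs_one, one_pow]

/-- the bound of `W0` -/
theorem W0_abs {M T : ℕ} {E G : ℕ → Finset ℕ → ℝ}
    (h : ∀ i, 1 ≤ i → i ≤ T → ∀ C ∈ Lv M i, |E i C| ≤ G i C) : |W0 M T E| ≤ W0 M T G := by
  have hD : ∀ (j n : ℕ) (f g : Finset ℕ → ℝ), (∀ C ∈ Lv M (n + j), |f C| ≤ g C) →
      ∀ C ∈ Lv M n, |Dl^[j] f C| ≤ Dl^[j] g C := by
    intro j
    induction j with
    | zero => exact fun n f g h => h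
    | succ j ih =>
      intro n f g h C hC
      rw [Function.iterate_succ_apply', Function.iterate_succ_apply']
      unfold Dl
      refine (abs_sum_le_sum_abs _ _).trans (sum_le_sum fun x hx => ?_)
      refine ih (n + 1) f g ?_ _ (mv_mem hC hx)
      rwa [show n + 1 + j = n + (j + 1) by omega]
  unfold W0
  refine (abs_sum_le_sum_abs _ _).trans (sum_le_sum fun j hj => ?_)
  have hj' := mem_range.1 hj
  rw [abs_mul, abs_of_nonneg (by positivity : (0 : ℝ) ≤ (T.choose (j + 1) : ℝ))]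
  refine mul_le_mul_of_nonneg_left ?_ (by positivity)
  refine hD (j + 1) 0 (E (j + 1)) (G (j + 1)) ?_ (range M) (by simp [Lv])
  rw [zero_add]
  exact h (j + 1) (by omega) (by omega)

/-- the index set -/
def Ix (M t : ℕ) : Finset (Σ _ : ℕ, Finset ℕ) := (Icc 1 t).sigma fun i => Lv M i

theorem mem_Ix {M t i : ℕ} {C : Finset ℕ} : (⟨i, C⟩ : Σ _ : ℕ, Finset ℕ) ∈ Ix M t ↔
    (1 ≤ i ∧ i ≤ t) ∧ C ∈ Lv M i := by
  unfold Ix
  rw [mem_sigma, mem_Icc]

open Classical in
/-- the family given by its values on the index set, without its term `0` -/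
noncomputable def x1 (M t : ℕ) (W : ℕ → Finset ℕ → ℝ) (e : Ix M t → ℝ) (i : ℕ) (C : Finset ℕ) : ℝ :=
  if h : (⟨i, C⟩ : Σ _ : ℕ, Finset ℕ) ∈ Ix M t then W i C * e ⟨⟨i, C⟩, h⟩ else 0

open Classical in
/-- the family given by its values on the index set -/
noncomputable def xt (M t : ℕ) (W : ℕ → Finset ℕ → ℝ) (e : Ix M t → ℝ) (i : ℕ) (C : Finset ℕ) : ℝ :=
  if i = 0 then (if C = range M then - W0 M t (x1 M t W e) else 0) else x1 M t W e i C

theorem x1_of {M t : ℕ} {W : ℕ → Finset ℕ → ℝ} (e : Ix M t → ℝ) {i : ℕ} {C : Finset ℕ}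
    (h : (⟨i, C⟩ : Σ _ : ℕ, Finset ℕ) ∈ Ix M t) : x1 M t W e i C = W i C * e ⟨⟨i, C⟩, h⟩ := by
  unfold x1
  rw [dif_pos h]

theorem x1_sub {M t : ℕ} {W : ℕ → Finset ℕ → ℝ} (e f : Ix M t → ℝ) :
    x1 M t W (e - f) = fun i C => 1 * x1 M t W e i C + (-1) * x1 M t W f i C := by
  funext i C
  unfold x1
  split_ifs with h
  · rw [Pi.sub_apply]
    ring
  · ring

theorem xt_sub {M t : ℕ} {W : ℕ → Finset ℕ → ℝ} (e f : Ix M t → ℝ) :
    xt M t W (e - f) = fun i C => 1 * xt M t W e i C + (-1) * xt M t W f i C := by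
  funext i C
  unfold xt
  rw [x1_sub, W0_lin]
  split_ifs <;> ring

theorem xt_pos {M t : ℕ} {W : ℕ → Finset ℕ → ℝ} (e : Ix M t → ℝ) {i : ℕ} (hi : 1 ≤ i) :
    xt M t W e i = x1 M t W e i := by
  funext C
  unfold xt
  rw [if_neg (by omega : ¬ i = 0)]

theorem xt_bd {M t : ℕ} {W : ℕ → Finset ℕ → ℝ}
    (hW : ∀ i, 1 ≤ i → i ≤ t → ∀ C ∈ Lv M i, 0 < W i C) (hW0 : W 0 (range M) = W0 M t W)
    (e : Ix M t → ℝ) {d : ℝ} (hd : ∀ p, |e p| ≤ d) :
    ∀ i ≤ t, ∀ C ∈ Lv M i, |xt M t W e i C| ≤ d * W i C := by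
  have h1 : ∀ i, 1 ≤ i → i ≤ t → ∀ C ∈ Lv M i, |x1 M t W e i C| ≤ d * W i C := by
    intro i hi hit C hC
    have hm : (⟨i, C⟩ : Σ _ : ℕ, Finset ℕ) ∈ Ix M t := mem_Ix.2 ⟨⟨hi, hit⟩, hC⟩
    rw [x1_of e hm, abs_mul, abs_of_pos (hW i hi hit C hC), mul_comm]
    exact mul_le_mul_of_nonneg_right (hd _) (hW i hi hit C hC).le
  intro i hit C hC
  rcases Nat.eq_zero_or_pos i with rfl | hi
  · have hC' : C = range M := by
      simpa [Lv] using hC
    subst hC'
    unfold xt
    rw [if_pos rfl, if_pos rfl, abs_neg, hW0]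
    have h2 := W0_abs (G := fun i C => d * W i C + 0 * W i C)
      (fun i hi hit C hC => (h1 i hi hit C hC).trans (le_of_eq (by ring)))
    rw [W0_lin] at h2
    linarith
  · rw [xt_pos e hi]
    exact h1 i hi hit C hC

theorem xt_OnL {M t : ℕ} {W : ℕ → Finset ℕ → ℝ} (e : Ix M t → ℝ) (i : ℕ) :
    OnL M i (xt M t W e i) := by
  intro C _ hn
  rcases Nat.eq_zero_or_pos i with rfl | hi
  · unfold xt
    rw [if_pos rfl, if_neg]
    rintro rfl
    exact hn (by simp [Lv])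
  · rw [xt_pos e hi]
    unfold x1
    rw [dif_neg]
    intro h
    exact hn (mem_Ix.1 h).2

theorem xt_AA {M t : ℕ} {W : ℕ → Finset ℕ → ℝ} (e : Ix M t → ℝ) :
    AA^[t] (xt M t W e) 0 (range M) = 0 := by
  rw [AAi_eq, sum_range_succ']
  have h1 : ∀ i ∈ range t, (t.choose (i + 1) : ℝ) *
      Dl^[i + 1] (xt M t W e (0 + (i + 1))) (range M) =
      (t.choose (i + 1) : ℝ) * Dl^[i + 1] (x1 M t W e (i + 1)) (range M) := by
    intro i _
    rw [zero_add, xt_pos e (by omega)]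
  rw [sum_congr rfl h1]
  change W0 M t (x1 M t W e) + ((t.choose 0 : ℕ) : ℝ) * xt M t W e (0 + 0) (range M) = 0
  unfold xt
  rw [if_pos rfl, if_pos rfl]
  simp

/-- the map -/
noncomputable def Phm (M m t : ℕ) (W : ℕ → Finset ℕ → ℝ) (β : Finset ℕ → ℝ) (e : Ix M t → ℝ)
    (p : Ix M t) : ℝ :=
  (β (insert (m + t + M - p.1.1) p.1.2) - ∑ x ∈ p.1.2, sgx (insert (m + t + M - p.1.1) p.1.2) x *
    YK M t (xt M t W e) (m + t + M - x) ((insert (m + t + M - p.1.1) p.1.2).erase x)) /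
      W p.1.1 p.1.2

/-- the beads of a shape of the lower level -/
theorem lv_le {M i : ℕ} {C : Finset ℕ} (h : C ∈ Lv M i) {x : ℕ} (hx : x ∈ C) : x < M + i :=
  (Lv_spec h).2.2.1 x hx

theorem top_notMem {M m t i : ℕ} {C : Finset ℕ} (htm : t ≤ m) (hi : i ≤ t) (h : C ∈ Lv M i) :
    m + t + M - i ∉ C := fun hX => by
  have := lv_le h hX
  omega

theorem ers_mem {M m t i : ℕ} {C : Finset ℕ} (htm : t ≤ m) (hi : i ≤ t) (h : C ∈ Lv M i)
    {x : ℕ} (hx : x ∈ C) :
    (insert (m + t + M - i) C).erase x ∈ Lv M (m + t + M - x) := by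
  have h1 := top_notMem htm hi h
  have h2 := lv_le h hx
  obtain ⟨h3, -, -, h4⟩ := Lv_spec h
  have hx' : x ∈ insert (m + t + M - i) C := mem_insert_of_mem hx
  have h5 := add_sum_erase (insert (m + t + M - i) C) (fun i => i) hx'
  rw [sum_insert h1, h4] at h5
  have h6 : 0 < C.card := card_pos.2 ⟨x, hx⟩
  rw [mem_Lv_iff, card_erase_of_mem hx', card_insert_of_notMem h1]
  refine ⟨by omega, ?_⟩
  simp only at h5 ⊢
  omega

variable {M m t : ℕ} {W : ℕ → Finset ℕ → ℝ} {ν : ℝ} {β : Finset ℕ → ℝ}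

theorem Phm_dist (htm : t ≤ m) (hν : 0 ≤ ν)
    (hW : ∀ i, 1 ≤ i → i ≤ t → ∀ C ∈ Lv M i, 0 < W i C) (hW0 : W 0 (range M) = W0 M t W)
    (hc : ∀ i, 1 ≤ i → i ≤ t → ∀ C ∈ Lv M i,
      ∑ x ∈ C, YQ M t W (m + t + M - x) ((insert (m + t + M - i) C).erase x) ≤ ν * W i C)
    (e f : Ix M t → ℝ) : dist (Phm M m t W β e) (Phm M m t W β f) ≤ ν * dist e f := by
  refine (dist_pi_le_iff (mul_nonneg hν dist_nonneg)).2 fun p => ?_
  obtain ⟨⟨i, C⟩, hp⟩ := p
  obtain ⟨⟨hi1, hi⟩, hC⟩ := mem_Ix.1 hp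
  set d := dist e f with hd
  have hd0 : 0 ≤ d := dist_nonneg
  have h1 := xt_bd hW hW0 (e - f) (d := d) fun p => by
    rw [Pi.sub_apply, ← Real.dist_eq]
    exact dist_le_pi_dist e f p
  have h3 : ∀ l, ∀ D ∈ Lv M l, |YK M t (xt M t W e) l D - YK M t (xt M t W f) l D| ≤
      d * YQ M t W l D := by
    intro l D hD
    have h4 := blk_YB M t (xt M t W (e - f)) (fun i C => d * W i C) h1 l D hD
    rw [YQ_smul, xt_sub, YK_lin] at h4
    rwa [show YK M t (xt M t W e) l D - YK M t (xt M t W f) l D =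
      1 * YK M t (xt M t W e) l D + (-1) * YK M t (xt M t W f) l D by ring]
  have hWp := hW i hi1 hi C hC
  rw [Real.dist_eq]
  unfold Phm
  simp only
  set X := m + t + M - i with hX
  have h5 : (β (insert X C) - ∑ x ∈ C, sgx (insert X C) x *
      YK M t (xt M t W e) (m + t + M - x) ((insert X C).erase x)) / W i C -
      (β (insert X C) - ∑ x ∈ C, sgx (insert X C) x *
      YK M t (xt M t W f) (m + t + M - x) ((insert X C).erase x)) / W i C =
      -((∑ x ∈ C, sgx (insert X C) x * (YK M t (xt M t W e) (m + t + M - x) ((insert X C).erase x) -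
        YK M t (xt M t W f) (m + t + M - x) ((insert X C).erase x))) / W i C) := by
    have h6 : ∑ x ∈ C, sgx (insert X C) x * (YK M t (xt M t W e) (m + t + M - x)
        ((insert X C).erase x) - YK M t (xt M t W f) (m + t + M - x) ((insert X C).erase x)) =
        ∑ x ∈ C, sgx (insert X C) x * YK M t (xt M t W e) (m + t + M - x) ((insert X C).erase x) -
        ∑ x ∈ C, sgx (insert X C) x * YK M t (xt M t W f) (m + t + M - x)
          ((insert X C).erase x) := by
      rw [← sum_sub_distrib]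
      exact sum_congr rfl fun x _ => by ring
    rw [h6]
    ring
  rw [h5, abs_neg, abs_div, abs_of_pos hWp, div_le_iff₀ hWp]
  calc |∑ x ∈ C, sgx (insert X C) x * (YK M t (xt M t W e) (m + t + M - x) ((insert X C).erase x) -
        YK M t (xt M t W f) (m + t + M - x) ((insert X C).erase x))|
      ≤ ∑ x ∈ C, |sgx (insert X C) x * (YK M t (xt M t W e) (m + t + M - x)
        ((insert X C).erase x) -
        YK M t (xt M t W f) (m + t + M - x) ((insert X C).erase x))| := abs_sum_le_sum_abs _ _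
    _ ≤ ∑ x ∈ C, d * YQ M t W (m + t + M - x) ((insert X C).erase x) := by
        refine sum_le_sum fun x hx => ?_
        rw [abs_mul, abs_sgx, one_mul]
        exact h3 _ _ (ers_mem htm hi hC hx)
    _ = d * ∑ x ∈ C, YQ M t W (m + t + M - x) ((insert X C).erase x) := by rw [mul_sum]
    _ ≤ d * (ν * W i C) := mul_le_mul_of_nonneg_left (hc i hi1 hi C hC) hd0
    _ = ν * d * W i C := by ring

theorem Phm_zero (hW : ∀ i, 1 ≤ i → i ≤ t → ∀ C ∈ Lv M i, 0 < W i C)
    (hβ : ∀ i, 1 ≤ i → i ≤ t → ∀ C ∈ Lv M i, |β (insert (m + t + M - i) C)| ≤ W i C) :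
    dist (Phm M m t W β 0) 0 ≤ 1 := by
  refine (dist_pi_le_iff zero_le_one).2 fun p => ?_
  obtain ⟨⟨i, C⟩, hp⟩ := p
  obtain ⟨⟨hi1, hi⟩, hC⟩ := mem_Ix.1 hp
  have h1 : ∀ l D, YK M t (xt M t W (0 : Ix M t → ℝ)) l D = 0 := by
    intro l D
    rw [show (0 : Ix M t → ℝ) = 0 - 0 by rw [sub_zero], xt_sub, YK_lin]
    ring
  have hWp := hW i hi1 hi C hC
  rw [Real.dist_eq, Pi.zero_apply, sub_zero]
  unfold Phm
  simp only
  rw [sum_eq_zero fun x _ => by rw [h1, mul_zero], sub_zero, abs_div, abs_of_pos hWp,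
    div_le_one hWp]
  exact hβ i hi1 hi C hC

end FIXXAux

open FIXXAux

theorem blk_FIXX : Stmt_FIXX := by
  intro M m t W ν β htm hmM hν0 hν1 hW hW0 hc hβ
  have hcon : ContractingWith (⟨ν, hν0⟩ : NNReal) (Phm M m t W β) := by
    refine ⟨?_, LipschitzWith.of_dist_le_mul fun e f => Phm_dist htm hν0 hW hW0 hc e f⟩
    exact_mod_cast hν1
  set e := ContractingWith.fixedPoint (Phm M m t W β) hcon with he
  have hfix : Phm M m t W β e = e := hcon.fixedPoint_isFixedPt
  have hpos : 0 < 1 - ν := by linarith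
  have hbd : dist e 0 ≤ 1 / (1 - ν) := by
    have h1 : dist e 0 ≤ ν * dist e 0 + 1 := by
      calc dist e 0 = dist (Phm M m t W β e) 0 := by rw [hfix]
        _ ≤ dist (Phm M m t W β e) (Phm M m t W β 0) + dist (Phm M m t W β 0) 0 :=
            dist_triangle _ _ _
        _ ≤ ν * dist e 0 + 1 := add_le_add (Phm_dist htm hν0 hW hW0 hc e 0) (Phm_zero hW hβ)
    rw [le_div_iff₀ hpos]
    linarith
  refine ⟨xt M t W e, xt_OnL e, xt_AA e, fun i hi C hC => ?_, fun B hB hb hne => ?_⟩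
  · have h2 := xt_bd hW hW0 e (d := 1 / (1 - ν)) (fun p => by
      refine le_trans ?_ hbd
      have := dist_le_pi_dist e 0 p
      rwa [Real.dist_eq, Pi.zero_apply, sub_zero] at this) i hi C hC
    refine h2.trans (le_of_eq ?_)
    ring
  · unfold Bl at hb
    push Not at hb
    obtain ⟨X, hX, hX1⟩ := hb
    obtain ⟨h3, -, h4, h5⟩ := Lv_spec hB
    have hX2 := h4 X hX
    have h6 := add_sum_erase B (fun i => i) hX
    have hi : m + t + M - X ≤ t := by omega
    have hXi : m + t + M - (m + t + M - X) = X := by omega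
    have hC : B.erase X ∈ Lv M (m + t + M - X) := erase_mem hB hX
    have hi1 : 1 ≤ m + t + M - X := by
      by_contra hcn
      have h7 : m + t + M - X = 0 := by omega
      rw [h7] at hC
      have hC' : B.erase X = range M := by
        simpa [Lv] using hC
      refine hne ?_
      rw [← insert_erase hX, hC']
      unfold Rw
      rw [Nat.add_sub_cancel, show M + (m + t) = X by omega]
    have hm : (⟨m + t + M - X, B.erase X⟩ : Σ _ : ℕ, Finset ℕ) ∈ Ix M t :=
      mem_Ix.2 ⟨⟨hi1, hi⟩, hC⟩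
    have hWp := hW _ hi1 hi _ hC
    have hsg : sgx B X = 1 := by
      unfold sgx
      rw [filter_eq_empty_iff.2, card_empty, pow_zero]
      intro y hy hXy
      have := lv_le hC (mem_erase.2 ⟨by omega, hy⟩)
      omega
    unfold WY
    rw [Nat.add_sub_cancel, ← add_sum_erase B _ hX, hsg, one_mul, YK_low hi, xt_pos e hi1]
    have h7 : x1 M t W e (m + t + M - X) (B.erase X) = β B - ∑ x ∈ B.erase X, sgx B x *
        YK M t (xt M t W e) (m + t + M - x) (B.erase x) := by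
      rw [x1_of e hm]
      have h8 := congrFun hfix ⟨⟨m + t + M - X, B.erase X⟩, hm⟩
      unfold Phm at h8
      simp only at h8
      rw [hXi, insert_erase hX] at h8
      rw [← h8]
      field_simp
    rw [h7]
    ring

theorem blk_LIFTX' : Stmt_LIFTX := blk_LIFTX blk_FIXX

end Pool.JM
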