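import Pool.Agent.Work.MP_46fa68_82.Rst
import Pool.Agent.Work.MP_46fa68_95.KKEnt
import Pool.Agent.Work.MP_46fa68_95.Peel
import Pool.Agent.Work.MP_46fa68_95.Diag

/-! # Induced kernels: normal form of the kernels supported on pairs with a common row value

`k`: level of the small shapes, the marked point is `k + 1`, `s = (k, k+1)`. For a pair `(C, u)`,
`B = mv C u`, the kernel `RI N M k C u` is supported on the pairs `g (k+1) = h (k+1) ≠ k+1`. -/

set_option autoImplicit false

open Finset Equiv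

namespace Pool.JM

variable {N M : ℕ}

/-- `∑ (x-u)⁻¹ Pc B x` -/
noncomputable def Ru (N M k : ℕ) (B : Finset ℕ) (u : ℕ) : Mat N :=
  ∑ x ∈ ad B, ((x : ℝ) - u)⁻¹ • Pc N M k B x

/-- the induced kernel of the pair `(C, u)` in normal form -/
noncomputable def RI (N M k : ℕ) (C : Finset ℕ) (u : ℕ) : Mat N :=
  (w C u)⁻¹ • (Ru N M (k + 1) (mv C u) u * Dg N (k + 1) * Ru N M (k + 1) (mv C u) u) +
    ∑ y ∈ (ad C).erase u, P N M (k + 1) (mv C y) * rv (P N M (k + 1) (mv C u)) * Dg N (k + 2)

section ri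

variable {k : ℕ}

theorem Ru_al (hM : N < M) (hk : k ≤ N) (B : Finset ℕ) (u : ℕ) : Al (k + 1) (Ru N M k B u) :=
  Al.sum _ _ fun x _ => ((good (N := N) hM k hk).pc_al B x).smul _

theorem Ru_T1 {B : Finset ℕ} (hB : B ∈ Lv M (k + 1)) (u : ℕ) :
    Ru N M (k + 1) B u = T1 N M (k + 1) (fun L A => if A = B then
      ∑ x ∈ ad B, (if mv B x = L then ((x : ℝ) - u)⁻¹ else 0) else 0) := by
  classical
  unfold T1
  rw [Finset.sum_sigma, Finset.sum_eq_single B]
  · unfold Ru
    refine Finset.sum_congr rfl fun x hx => ?_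
    simp only
    rw [if_pos trivial, Finset.sum_eq_single x]
    · rw [if_pos rfl]
    · intro z hz hne
      rw [if_neg fun h => hne (mv_injOn hz hx h)]
    · intro h
      exact absurd hx h
  · intro A _ hne
    refine Finset.sum_eq_zero fun x _ => ?_
    simp only
    rw [if_neg hne, zero_smul]
  · intro h
    exact absurd hB h

theorem sum_ad {B : Finset ℕ} (f : ℕ → ℝ) : ∑ x ∈ ad B, w B x * f x = ∑ x ∈ B, w B x * f x := by
  refine sum_subset (filter_subset _ _) fun x hx hx' => ?_
  rw [w_zero, zero_mul]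
  by_contra h
  exact hx' (mem_ad.2 ⟨hx, h⟩)

/-- the orthogonality relations of the weights -/
theorem w_orth {C C' : Finset ℕ} (hC : 0 ∈ C) {u u' : ℕ} (hu : u ∈ ad C) (_ : u' ∈ ad C')
    (hB : 0 ∈ mv C u) (h : mv C' u' = mv C u) :
    ∑ x ∈ ad (mv C u), w (mv C u) x * (((x : ℝ) - u')⁻¹ * ((x : ℝ) - u)⁻¹) =
      if u' = u then w C u else 0 := by
  rw [sum_ad]
  split_ifs with e
  · subst e
    rw [← sum_w_sq hC hu hB]
    refine Finset.sum_congr rfl fun x _ => ?_
    ring
  · have n1 : u ∉ mv C u := mv_not_mem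
    have n2 : u' ∉ mv C u := by rw [← h]; exact mv_not_mem
    have m1 : u + 1 ∈ mv C u := mv_mem_succ
    have m2 : u' + 1 ∈ mv C u := by rw [← h]; exact mv_mem_succ
    have e1 := w_div (mv C u) hB n1 m1
    have e2 := w_div (mv C u) hB n2 m2
    have hne : (u' : ℝ) - u ≠ 0 := by
      rw [sub_ne_zero]
      exact_mod_cast e
    have e3 : ∀ x ∈ mv C u, w (mv C u) x * (((x : ℝ) - u')⁻¹ * ((x : ℝ) - u)⁻¹) =
        ((u' : ℝ) - u)⁻¹ * (w (mv C u) x / ((x : ℝ) - u') - w (mv C u) x / ((x : ℝ) - u)) := by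
      intro x hx
      have a1 : (x : ℝ) - u ≠ 0 := by
        rw [sub_ne_zero]
        intro h'
        have : x = u := by exact_mod_cast h'
        exact n1 (this ▸ hx)
      have a2 : (x : ℝ) - u' ≠ 0 := by
        rw [sub_ne_zero]
        intro h'
        have : x = u' := by exact_mod_cast h'
        exact n2 (this ▸ hx)
      field_simp
      ring
    rw [Finset.sum_congr rfl e3, ← Finset.mul_sum, Finset.sum_sub_distrib, e1, e2, sub_zero,
      mul_zero]

theorem mv_left_inj {C C' : Finset ℕ} {u : ℕ} (hu : u ∈ ad C) (hu' : u ∈ ad C')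
    (h : mv C' u = mv C u) : C' = C := by
  obtain ⟨a1, a2⟩ := mem_ad.1 hu
  obtain ⟨b1, b2⟩ := mem_ad.1 hu'
  ext z
  have h1 : z ∈ mv C' u ↔ z ∈ mv C u := by rw [h]
  simp only [mv, mem_insert, mem_erase] at h1
  by_cases hz : z = u
  · subst hz
    exact ⟨fun _ => a1, fun _ => b1⟩
  · by_cases hz1 : z = u + 1
    · subst hz1
      exact ⟨fun h => absurd h b2, fun h => absurd h a2⟩
    · constructor
      · intro hzA
        rcases h1.1 (Or.inr ⟨hz, hzA⟩) with h2 | h2
        · exact absurd h2 hz1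
        · exact h2.2
      · intro hzB
        rcases h1.2 (Or.inr ⟨hz, hzB⟩) with h2 | h2
        · exact absurd h2 hz1
        · exact h2.2

/-- `E (s R_u) = w C u • Pc C u` -/
theorem E_s_Ru (hM : N < M) (hn : k + 1 < N) {C : Finset ℕ} (hC : C ∈ Lv M k) {u : ℕ}
    (hu : u ∈ ad C) :
    E (k + 1) (U (s k hn) * Ru N M (k + 1) (mv C u) u) = w C u • Pc N M k C u := by
  classical
  have hB : mv C u ∈ Lv M (k + 1) := mv_mem hC hu
  have hB0 : 0 ∈ mv C u := Lv_zero_mem hB (by omega)
  have hC0 : 0 ∈ C := Lv_zero_mem hC (by omega)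
  rw [Ru_T1 hB, E_s_T1 hM hn]
  unfold T1
  rw [Finset.sum_eq_single ⟨C, u⟩]
  · simp only
    congr 1
    unfold PE
    rw [ub_mv hu]
    have e := w_orth hC0 hu hu hB0 rfl
    rw [if_pos rfl] at e
    refine Eq.trans (Finset.sum_congr rfl fun y hy => ?_) e
    simp only
    rw [if_pos trivial, Finset.sum_eq_single y]
    · rw [if_pos rfl]
    · intro z hz hne
      rw [if_neg fun h => hne (mv_injOn hz hy h)]
    · intro h
      exact absurd hy h
  · rintro ⟨C', u'⟩ hq hne
    obtain ⟨hC', hu'⟩ := mem_sigma.1 hq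
    simp only at hC' hu' ⊢
    have : PE (fun L A => if A = mv C u then
        ∑ x ∈ ad (mv C u), (if mv (mv C u) x = L then ((x : ℝ) - u)⁻¹ else 0) else 0)
        (mv C' u') C' = 0 := by
      unfold PE
      by_cases h : mv C' u' = mv C u
      · rw [ub_mv hu', h]
        have hne' : u' ≠ u := by
          rintro rfl
          exact hne (by rw [mv_left_inj hu hu' h])
        have e := w_orth hC0 hu hu' hB0 h
        rw [if_neg hne'] at e
        refine Eq.trans (Finset.sum_congr rfl fun y hy => ?_) e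
        simp only
        rw [if_pos trivial, Finset.sum_eq_single y]
        · rw [if_pos rfl]
        · intro z hz hne
          rw [if_neg fun h => hne (mv_injOn hz hy h)]
        · intro h
          exact absurd hy h
      · refine Finset.sum_eq_zero fun y _ => ?_
        simp only
        rw [if_neg h, mul_zero, mul_zero]
    rw [this, zero_smul]
  · intro h
    exact absurd (mem_sigma.2 ⟨hC, hu⟩) h

/-- `E R_u = 0` -/
theorem E_Ru (hM : N < M) (hn : k + 1 < N) {C : Finset ℕ} (hC : C ∈ Lv M k) {u : ℕ}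
    (hu : u ∈ ad C) : E (k + 1) (Ru N M (k + 1) (mv C u) u) = 0 := by
  have hB : mv C u ∈ Lv M (k + 1) := mv_mem hC hu
  have hB0 : 0 ∈ mv C u := Lv_zero_mem hB (by omega)
  have hg1 := good (N := N) hM (k + 1) hn.le
  unfold Ru
  rw [E_sum]
  have e : ∀ x ∈ ad (mv C u), E (k + 1) (((x : ℝ) - u)⁻¹ • Pc N M (k + 1) (mv C u) x) =
      (w (mv C u) x * ((x : ℝ) - u)⁻¹) • P N M (k + 1) (mv C u) := by
    intro x hx
    rw [E_smul, hg1.pc_E hn hB hx, smul_smul, mul_comm]
  rw [Finset.sum_congr rfl e, ← Finset.sum_smul, sum_ad (fun x => ((x : ℝ) - u)⁻¹)]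
  have e2 := w_div (mv C u) hB0 (mv_not_mem (C := C) (x := u)) (mv_mem_succ (C := C) (x := u))
  have e3 : ∑ x ∈ mv C u, w (mv C u) x * ((x : ℝ) - u)⁻¹ = 0 := by
    rw [← e2]
    exact Finset.sum_congr rfl fun x _ => (div_eq_mul_inv _ _).symm
  rw [e3, zero_smul]

/-- `P_B s P_B P_C = R_u P_C` -/
theorem PsPP_C (hM : N < M) (hn : k + 1 < N) {C : Finset ℕ} (hC : C ∈ Lv M k) {u : ℕ}
    (hu : u ∈ ad C) :
    P N M (k + 1) (mv C u) * (U (s k hn) * (P N M (k + 1) (mv C u) * P N M k C)) =
      Ru N M (k + 1) (mv C u) u * P N M k C := by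
  have hB : mv C u ∈ Lv M (k + 1) := mv_mem hC hu
  have hg1 := good (N := N) hM (k + 1) hn.le
  have hg2 := good (N := N) hM (k + 2) (by omega)
  set B := mv C u with hBd
  have e1 : P N M (k + 1) B * P N M k C = ∑ y ∈ ad B, Ch N M k C B (mv B y) := by
    rw [← pc_sum (N := N) hB (by omega), Finset.sum_mul]
    refine Finset.sum_congr rfl fun y hy => ?_
    unfold Ch
    have hL : mv B y ∈ Lv M (k + 2) := mv_mem hB hy
    rw [← P_comm hM (by omega) (by omega) B hL, P_P hM hn hB hy]
  rw [e1, Finset.mul_sum, Finset.mul_sum]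
  unfold Ru
  rw [Finset.sum_mul]
  refine Finset.sum_congr rfl fun y hy => ?_
  have hL : mv B y ∈ Lv M (k + 2) := mv_mem hB hy
  rw [PsCh_same hM hn hC hB hL, hBd, ri_chain hu (by rw [← hBd]; exact hy), Matrix.smul_mul,
    ← hBd]
  congr 1
  unfold Ch
  rw [← P_comm hM (by omega) (by omega) B hL, P_P hM hn hB hy]

theorem not_both {C C' : Finset ℕ} {u y : ℕ} (hu : u ∈ ad C) (hy : y ∈ ad C) (hne : y ≠ u)
    (h1 : Ab C' (mv C u)) (h2 : Ab C' (mv C y)) : C' = C := by
  obtain ⟨v, hv, hv'⟩ := h1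
  obtain ⟨z, hz, hz'⟩ := h2
  -- `mv C' v = mv C u`, `mv C' z = mv C y`
  by_contra hCC
  -- the count of beads
  have e : ∀ j, (C'.filter fun b => j ≤ b).card + (if j = v + 1 then 1 else 0) =
      (C.filter fun b => j ≤ b).card + if j = u + 1 then 1 else 0 := by
    intro j
    rw [← count_mv hv j, hv', count_mv hu j]
  have e' : ∀ j, (C'.filter fun b => j ≤ b).card + (if j = z + 1 then 1 else 0) =
      (C.filter fun b => j ≤ b).card + if j = y + 1 then 1 else 0 := by
    intro j
    rw [← count_mv hz j, hz', count_mv hy j]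
  have hvu : v = u := by
    by_contra hvu
    -- at `j = v + 1`: one bead less in C'
    have a1 := e (v + 1)
    rw [if_pos rfl, if_neg (show ¬ v + 1 = u + 1 by omega)] at a1
    have a2 := e' (v + 1)
    have a3 := e (u + 1)
    rw [if_pos rfl, if_neg (show ¬ u + 1 = v + 1 by omega)] at a3
    have a4 := e' (u + 1)
    split_ifs at a2 a4 <;> omega
  subst hvu
  exact hCC (mv_left_inj hu hv hv')

/-- the key identity -/
theorem D_s_RI (hM : N < M) (hn : k + 1 < N) {C : Finset ℕ} (hC : C ∈ Lv M k) {u : ℕ}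
    (hu : u ∈ ad C) :
    Dg N (k + 1) * (U (s k hn) * RI N M k C u) =
      Pc N M k C u * (Dg N (k + 1) * (U (s k hn) * Dg N (k + 2))) := by
  classical
  have hk : k < N := by omega
  have hB : mv C u ∈ Lv M (k + 1) := mv_mem hC hu
  have hg0 := good (N := N) hM k hk.le
  have hg1 := good (N := N) hM (k + 1) hn.le
  have hw : w C u ≠ 0 := (ad_w_pos hu).ne'
  set B := mv C u with hBd
  set PC : Mat N := P N M k C with hPC
  set PB : Mat N := P N M (k + 1) B with hPB
  set s' : Mat N := U (s k hn) with hs'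
  set D1 : Mat N := Dg N (k + 1) with hD1
  set D2 : Mat N := Dg N (k + 2) with hD2
  set R : Mat N := Ru N M (k + 1) B u with hR
  have hPcu : Pc N M k C u = PC * PB := (P_P hM hk hC hu).symm
  have cCB : PC * PB = PB * PC := P_comm hM (by omega) (by omega) C hB
  have cCs : PC * s' = s' * PC := s_commA hn (hg0.al C)
  have cD1C : D1 * PC = PC * D1 := Dg_P_comm hM (by omega) (by omega) C
  have cD1B : D1 * PB = PB * D1 := Dg_P_comm hM le_rfl (by omega) B
  have cCR : PC * R = R * PC := by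
    rw [hR]
    unfold Ru
    rw [Finset.mul_sum, Finset.sum_mul]
    refine Finset.sum_congr rfl fun x _ => ?_
    rw [Matrix.mul_smul, Matrix.smul_mul,
      pc_comm hM hn hB x (((hg0.al C).mono (Nat.le_succ k)) : Al (k + 1) PC)]
  have cD2R : D2 * R = R * D2 := Dg_comm le_rfl (Ru_al hM hn.le B u).1
  have hD12 : D1 * D2 = D1 := Dg_mul_Dg' (by omega)
  have lemC : PB * (s' * (PB * PC)) = R * PC := PsPP_C hM hn hC hu
  -- first part
  have e1 : D1 * (s' * ((w C u)⁻¹ • (R * D1 * R))) = PC * PB * D1 * R := by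
    have e2 : D1 * (s' * R) * D1 = w C u • (PC * PB * D1) := by
      rw [hD1, Dg_T_Dg, hs', hR, E_s_Ru hM hn hC hu, Matrix.smul_mul, hPcu]
    calc D1 * (s' * ((w C u)⁻¹ • (R * D1 * R))) =
        (w C u)⁻¹ • (D1 * (s' * R) * D1 * R) := by
          rw [Matrix.mul_smul, Matrix.mul_smul]
          congr 1
          noncomm_ring
      _ = _ := by
          rw [e2, Matrix.smul_mul, smul_smul, inv_mul_cancel₀ hw, one_smul]
  -- second part
  have e3 : ∀ y ∈ (ad C).erase u, D1 * (s' * (P N M (k + 1) (mv C y) * rv PB * D2)) =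
      D1 * (PB * (s' * (PC * P N M (k + 1) (mv C y)))) * D2 := by
    intro y hy
    obtain ⟨hne, hyC⟩ := mem_erase.1 hy
    have hA : mv C y ∈ Lv M (k + 1) := mv_mem hC hyC
    set PA : Mat N := P N M (k + 1) (mv C y) with hPA
    have c1 : PA * rv PB = rv PB * PA := rvP_comm hM (by omega) B (hg1.al (mv C y)).2
    have c2 : s' * rv PB = rv PB * s' := rvP_comm hM (by omega) B (Inv_U _)
    have c3 : D1 * rv PB = D1 * PB := by
      rw [hD1, Dg_rvP hM (by omega) hB, ← hD1, ← cD1B]
    have e4 : PB * (s' * PA) = PB * (s' * (PC * PA)) := by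
      have e5 : PB * (s' * PA) = ∑ K ∈ Lv M k, PB * (s' * (P N M k K * PA)) := by
        rw [← Finset.mul_sum, ← Finset.mul_sum, ← Finset.sum_mul, hg0.tot, one_mul]
      rw [e5, Finset.sum_eq_single C]
      · intro K hK hKC
        have c4 : s' * P N M k K = P N M k K * s' := (s_commA hn (hg0.al K)).symm
        have c5 : P N M k K * PB = PB * P N M k K := P_comm hM (by omega) (by omega) K hB
        by_cases hA1 : Ab K (mv C y)
        · by_cases hB1 : Ab K B
          · exact absurd (not_both hu hyC hne hB1 hA1) hKC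
          · have z : P N M k K * PB = 0 := P_P_not hM hk hB1
            calc PB * (s' * (P N M k K * PA)) = (PB * (s' * P N M k K)) * PA := by noncomm_ring
              _ = ((PB * P N M k K) * s') * PA := by rw [c4]; noncomm_ring
              _ = 0 := by rw [← c5, z, zero_mul, zero_mul]
        · rw [P_P_not hM hk hA1, mul_zero, mul_zero]
      · intro h
        exact absurd hC h
    calc D1 * (s' * (PA * rv PB * D2)) = D1 * (s' * (rv PB * PA * D2)) := by rw [c1]
      _ = D1 * (s' * rv PB) * PA * D2 := by noncomm_ring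
      _ = (D1 * rv PB) * (s' * PA) * D2 := by rw [c2]; noncomm_ring
      _ = D1 * (PB * (s' * PA)) * D2 := by rw [c3]; noncomm_ring
      _ = _ := by rw [e4]
  have e6 : ∑ y ∈ (ad C).erase u, PC * P N M (k + 1) (mv C y) = PC - PC * PB := by
    have e7 : ∑ y ∈ ad C, PC * P N M (k + 1) (mv C y) = PC := by
      have e8 : ∀ y ∈ ad C, PC * P N M (k + 1) (mv C y) = Pc N M k C y := fun y hy =>
        P_P hM hk hC hy
      rw [Finset.sum_congr rfl e8, pc_sum hC (by omega)]
    rw [← Finset.add_sum_erase _ _ hu] at e7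
    rw [eq_sub_iff_add_eq']
    exact e7
  unfold RI
  rw [mul_add, mul_add, ← hBd, ← hR, ← hD1, ← hPB, ← hD2, e1, Finset.mul_sum, Finset.mul_sum,
    Finset.sum_congr rfl e3, ← Finset.sum_mul, ← Finset.mul_sum, ← Finset.mul_sum,
    ← Finset.mul_sum, e6, hPcu]
  -- algebra
  have f1 : PC * PB * D1 * R = D1 * (R * PC) * D2 := by
    have g1 : PB * R = R := by
      rw [hR]
      unfold Ru
      rw [Finset.mul_sum]
      refine Finset.sum_congr rfl fun x _ => ?_
      rw [Matrix.mul_smul, hPB, P_mul_Pc hM hn]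
    calc PC * PB * D1 * R = PC * (PB * D1) * R := by noncomm_ring
      _ = (PC * D1) * (PB * R) := by rw [← cD1B]; noncomm_ring
      _ = (D1 * PC) * R := by rw [g1, ← cD1C]
      _ = (D1 * D2) * (PC * R) := by rw [hD12]; noncomm_ring
      _ = D1 * ((D2 * R) * PC) := by rw [cCR]; noncomm_ring
      _ = D1 * (R * (D2 * PC)) := by rw [cD2R]; noncomm_ring
      _ = D1 * (R * (PC * D2)) := by rw [hD2, Dg_P_comm hM (by omega) (by omega) C]
      _ = _ := by noncomm_ring
  have f2 : D1 * (PB * (s' * (PC - PC * PB))) = D1 * (PB * (s' * PC)) - D1 * (R * PC) := by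
    rw [mul_sub, mul_sub, mul_sub, cCB, lemC]
  have f3 : D1 * (PB * (s' * PC)) = PC * PB * (D1 * s') := by
    calc D1 * (PB * (s' * PC)) = (D1 * PB) * (PC * s') := by rw [← cCs]; noncomm_ring
      _ = PB * (D1 * PC) * s' := by rw [cD1B]; noncomm_ring
      _ = (PB * PC) * (D1 * s') := by rw [cD1C]; noncomm_ring
      _ = _ := by rw [cCB]
  rw [f1, f2, f3, sub_mul]
  noncomm_ring

/-- the induced kernel vanishes on `S_(k+1)` -/
theorem D_RI (hM : N < M) (hn : k + 1 < N) {C : Finset ℕ} (hC : C ∈ Lv M k) {u : ℕ}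
    (hu : u ∈ ad C) : Dg N (k + 1) * RI N M k C u = 0 := by
  have hk : k < N := by omega
  have hB : mv C u ∈ Lv M (k + 1) := mv_mem hC hu
  have hg1 := good (N := N) hM (k + 1) hn.le
  unfold RI
  rw [mul_add]
  have e1 : Dg N (k + 1) * ((w C u)⁻¹ • (Ru N M (k + 1) (mv C u) u * Dg N (k + 1) *
      Ru N M (k + 1) (mv C u) u)) = 0 := by
    have e2 : Dg N (k + 1) * Ru N M (k + 1) (mv C u) u * Dg N (k + 1) = 0 := by
      rw [Dg_T_Dg, E_Ru hM hn hC hu, zero_mul]
    calc Dg N (k + 1) * ((w C u)⁻¹ • (Ru N M (k + 1) (mv C u) u * Dg N (k + 1) *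
        Ru N M (k + 1) (mv C u) u)) = (w C u)⁻¹ • (Dg N (k + 1) * Ru N M (k + 1) (mv C u) u *
        Dg N (k + 1) * Ru N M (k + 1) (mv C u) u) := by
          rw [Matrix.mul_smul]
          congr 1
          noncomm_ring
      _ = 0 := by rw [e2, zero_mul, smul_zero]
  rw [e1, zero_add, Finset.mul_sum]
  refine Finset.sum_eq_zero fun y hy => ?_
  obtain ⟨hne, hyC⟩ := mem_erase.1 hy
  set PA : Mat N := P N M (k + 1) (mv C y) with hPA
  set PB : Mat N := P N M (k + 1) (mv C u) with hPB
  have c1 : Dg N (k + 1) * PA = PA * Dg N (k + 1) := Dg_P_comm hM le_rfl (by omega) _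
  have c2 : Dg N (k + 1) * rv PB = PB * Dg N (k + 1) := Dg_rvP hM (by omega) hB
  have z : PA * PB = 0 := hg1.orth _ _ fun h => hne (mv_injOn hyC hu h)
  calc Dg N (k + 1) * (PA * rv PB * Dg N (k + 2)) =
      (Dg N (k + 1) * PA) * rv PB * Dg N (k + 2) := by noncomm_ring
    _ = PA * (Dg N (k + 1) * rv PB) * Dg N (k + 2) := by rw [c1]; noncomm_ring
    _ = (PA * PB) * Dg N (k + 1) * Dg N (k + 2) := by rw [c2]; noncomm_ring
    _ = 0 := by rw [z, zero_mul, zero_mul]

/-- equivariance -/
theorem RI_comm (hM : N < M) (hn : k + 1 < N) {C : Finset ℕ} (hC : C ∈ Lv M k) {u : ℕ}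
    (hu : u ∈ ad C) {a : Perm (Fin N)} (ha : Sn (k + 1) a) :
    U a * RI N M k C u = RI N M k C u * U a := by
  have hk : k < N := by omega
  have hB : mv C u ∈ Lv M (k + 1) := mv_mem hC hu
  have hg1 := good (N := N) hM (k + 1) hn.le
  have c1 : U a * Dg N (k + 1) = Dg N (k + 1) * U a := (Dg_comm le_rfl (Al_U ha).1).symm
  have c2 : U a * Dg N (k + 2) = Dg N (k + 2) * U a :=
    (Dg_comm (by omega : k + 1 ≤ k + 2) (Al_U ha).1).symm
  have c3 : U a * Ru N M (k + 1) (mv C u) u = Ru N M (k + 1) (mv C u) u * U a := by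
    unfold Ru
    rw [Finset.mul_sum, Finset.sum_mul]
    refine Finset.sum_congr rfl fun x _ => ?_
    rw [Matrix.mul_smul, Matrix.smul_mul, pc_comm hM hn hB x (Al_U ha)]
  unfold RI
  rw [mul_add, add_mul]
  congr 1
  · rw [Matrix.mul_smul, Matrix.smul_mul]
    congr 1
    set R := Ru N M (k + 1) (mv C u) u
    set D := Dg N (k + 1)
    calc U a * (R * D * R) = (U a * R) * D * R := by noncomm_ring
      _ = R * (U a * D) * R := by rw [c3]; noncomm_ring
      _ = R * D * (U a * R) := by rw [c1]; noncomm_ring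
      _ = _ := by rw [c3]; noncomm_ring
  · rw [Finset.mul_sum, Finset.sum_mul]
    refine Finset.sum_congr rfl fun y hy => ?_
    obtain ⟨hne, hyC⟩ := mem_erase.1 hy
    have hA : mv C y ∈ Lv M (k + 1) := mv_mem hC hyC
    have c4 : U a * P N M (k + 1) (mv C y) = P N M (k + 1) (mv C y) * U a :=
      P_cent_k hM (by omega) hA a ha
    have c5 : U a * rv (P N M (k + 1) (mv C u)) = rv (P N M (k + 1) (mv C u)) * U a :=
      rvP_comm hM (by omega) _ (Inv_U a)
    set PA := P N M (k + 1) (mv C y)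
    set PB := rv (P N M (k + 1) (mv C u))
    set D := Dg N (k + 2)
    calc U a * (PA * PB * D) = (U a * PA) * PB * D := by noncomm_ring
      _ = PA * (U a * PB) * D := by rw [c4]; noncomm_ring
      _ = PA * PB * (U a * D) := by rw [c5]; noncomm_ring
      _ = _ := by rw [c2]; noncomm_ring

/-- **support of the induced kernel** -/
theorem RI_supp (hM : N < M) (hn : k + 1 < N) {C : Finset ℕ} (hC : C ∈ Lv M k) {u : ℕ}
    (hu : u ∈ ad C) {g h : Perm (Fin N)} (hg : Sn (k + 2) g) (hh : Sn (k + 2) h)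
    (hne : g ⟨k + 1, hn⟩ ≠ h ⟨k + 1, hn⟩) : RI N M k C u g h = 0 := by
  classical
  by_cases h1 : Sn (k + 1) g
  · have e := congrFun (congrFun (D_RI hM hn hC hu) g) h
    rw [Dg_mul_apply, if_pos h1] at e
    exact e
  set p : Fin N := ⟨k + 1, hn⟩ with hp
  set q : Fin N := ⟨k, by omega⟩ with hq
  have hs1 : s k hn q = p := swap_apply_left _ _
  have hs2 : s k hn p = q := swap_apply_right _ _
  have hgp : g p ≠ p := by
    intro h'
    apply h1
    intro z hz
    rcases eq_or_lt_of_le hz with h2 | h2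
    · have : z = p := Fin.ext h2.symm
      rw [this, h']
    · exact hg z h2
  have hlt : ((g p : Fin N) : ℕ) < k + 1 := by
    by_contra hcon
    rw [not_lt] at hcon
    rcases eq_or_lt_of_le hcon with h2 | h2
    · exact hgp (Fin.ext h2.symm)
    · have h3 : g (g p) = g p := hg _ h2
      have h4 := g.injective h3
      exact hgp h4
  set a : Perm (Fin N) := swap (g p) q with ha
  have haS : Sn (k + 1) a := swap_Sn hlt (by simp [hq])
  -- conjugated entry
  have e1 : RI N M k C u g h = RI N M k C u (a * g) (a * h) := by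
    have e2 := congrFun (congrFun (RI_comm hM hn hC hu haS) (a * g)) h
    rw [U_mul_apply, mul_U_apply] at e2
    rw [← e2]
    congr 1
    group
  have e3 : (a * g) p = q := by
    rw [Perm.mul_apply, ha, swap_apply_left]
  have e4 : (a * h) p ≠ q := by
    rw [← e3, Perm.mul_apply, Perm.mul_apply]
    exact fun h' => hne (a.injective h').symm
  have hag : Sn (k + 2) (a * g) := Sn_mul (Sn_mono (by omega) haS) hg
  have hah : Sn (k + 2) (a * h) := Sn_mul (Sn_mono (by omega) haS) hh
  have hsg : Sn (k + 1) (s k hn * (a * g)) := by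
    intro z hz
    rcases eq_or_lt_of_le hz with h2 | h2
    · have : z = p := Fin.ext h2.symm
      rw [this, Perm.mul_apply, e3, hs1]
    · rw [Perm.mul_apply, hag z h2]
      exact s_Sn k hn z h2
  have hsh : ¬ Sn (k + 1) (s k hn * (a * h)) := by
    intro h'
    have h2 := h' p (by simp [hp])
    rw [Perm.mul_apply] at h2
    apply e4
    have h3 := congrArg (s k hn) h2
    rw [← Perm.mul_apply (s k hn) (s k hn), s_mul, Perm.one_apply, hs2] at h3
    exact h3
  rw [e1]
  have e5 := congrFun (congrFun (D_s_RI hM hn hC hu) (s k hn * (a * g))) (a * h)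
  rw [Dg_mul_apply, if_pos hsg, U_mul_apply, s_inv, ← mul_assoc, s_mul, one_mul] at e5
  rw [e5]
  have e6 : Pc N M k C u * (Dg N (k + 1) * (U (s k hn) * Dg N (k + 2))) =
      Pc N M k C u * Dg N (k + 1) * U (s k hn) * Dg N (k + 2) := by noncomm_ring
  rw [e6, mul_Dg_apply, if_pos hah, mul_U_apply, mul_Dg_apply, if_neg hsh]

end ri

end Pool.JM
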