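import Pool.Agent.Work.MP_46fa68_31.Ind
import Pool.Agent.Work.MP_46fa68_82.KK

/-! # Induced kernels in the normal form `KK` -/

set_option autoImplicit false

open Finset Equiv

namespace Pool.JM

variable {N M : ℕ}

/-- rank one coefficients of the induced kernel of `φ` -/
noncomputable def bI (M k : ℕ) (φ : Finset ℕ → Finset ℕ → ℝ) (B : Finset ℕ) (x y : ℕ) : ℝ :=
  ∑ q ∈ (Lv M k).sigma fun C => ad C, if mv q.1 q.2 = B then
    φ B q.1 * ((w q.1 q.2)⁻¹ * (((x : ℝ) - q.2)⁻¹ * ((y : ℝ) - q.2)⁻¹)) else 0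

/-- block coefficients of the induced kernel of `φ` -/
noncomputable def dI (M k : ℕ) (φ : Finset ℕ → Finset ℕ → ℝ) (A B : Finset ℕ) : ℝ :=
  ∑ q ∈ (Lv M k).sigma fun C => ad C, ∑ y ∈ (ad q.1).erase q.2,
    if mv q.1 y = A ∧ mv q.1 q.2 = B then φ B q.1 else 0

/-- value on a pair with the common part `C` -/
theorem dI_eq {k : ℕ} (φ : Finset ℕ → Finset ℕ → ℝ) {C : Finset ℕ} (hC : C ∈ Lv M k) {u y : ℕ}
    (hu : u ∈ ad C) (hy : y ∈ ad C) (hne : y ≠ u) :
    dI M k φ (mv C y) (mv C u) = φ (mv C u) C := by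
  unfold dI
  rw [Finset.sum_eq_single ⟨C, u⟩, Finset.sum_eq_single y]
  · rw [if_pos ⟨rfl, rfl⟩]
  · intro z hz hzy
    rw [if_neg fun h => hzy (mv_injOn (mem_erase.1 hz).2 hy h.1)]
  · intro h
    exact absurd (mem_erase.2 ⟨hne, hy⟩) h
  · rintro ⟨C', u'⟩ hq hne'
    obtain ⟨hC', hu'⟩ := mem_sigma.1 hq
    refine Finset.sum_eq_zero fun z hz => ?_
    simp only at hC' hu' hz ⊢
    rw [if_neg]
    rintro ⟨h1, h2⟩
    have h3 : C' = C := not_both hu hy hne ⟨u', hu', h2⟩ ⟨z, (mem_erase.1 hz).2, h1⟩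
    subst h3
    exact hne' (by rw [mv_injOn hu' hu h2])
  · intro h
    exact absurd (mem_sigma.2 ⟨hC, hu⟩) h

/-- the sum of the induced kernels in normal form -/
theorem KK_ind {k : ℕ} (φ : Finset ℕ → Finset ℕ → ℝ) :
    KK N M (k + 1) (bI M k φ) (dI M k φ) =
      ∑ q ∈ (Lv M k).sigma fun C => ad C, φ (mv q.1 q.2) q.1 • RI N M k q.1 q.2 := by
  classical
  unfold KK RI
  have hsplit : ∀ q ∈ (Lv M k).sigma fun C => ad C, φ (mv q.1 q.2) q.1 •
      ((w q.1 q.2)⁻¹ • (Ru N M (k + 1) (mv q.1 q.2) q.2 * Dg N (k + 1) *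
        Ru N M (k + 1) (mv q.1 q.2) q.2) +
      ∑ y ∈ (ad q.1).erase q.2, P N M (k + 1) (mv q.1 y) * rv (P N M (k + 1) (mv q.1 q.2)) *
        Dg N (k + 2)) =
      (∑ B ∈ Lv M (k + 1), ∑ x ∈ ad B, ∑ y ∈ ad B, if mv q.1 q.2 = B then
        (φ B q.1 * ((w q.1 q.2)⁻¹ * (((x : ℝ) - q.2)⁻¹ * ((y : ℝ) - q.2)⁻¹))) •
          (Pc N M (k + 1) B x * Dg N (k + 1) * Pc N M (k + 1) B y) else 0) +
      (∑ A ∈ Lv M (k + 1), ∑ B ∈ (Lv M (k + 1)).erase A, ∑ y ∈ (ad q.1).erase q.2,
        if mv q.1 y = A ∧ mv q.1 q.2 = B then φ B q.1 •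
          (P N M (k + 1) A * rv (P N M (k + 1) B)) else 0) * Dg N (k + 2) := by
    intro q hq
    obtain ⟨hC, hu⟩ := mem_sigma.1 hq
    have hB : mv q.1 q.2 ∈ Lv M (k + 1) := mv_mem hC hu
    rw [smul_add]
    congr 1
    · rw [Finset.sum_eq_single (mv q.1 q.2)]
      · unfold Ru
        rw [Finset.sum_mul, Finset.sum_mul, smul_smul, Finset.smul_sum]
        refine Finset.sum_congr rfl fun x _ => ?_
        rw [Finset.mul_sum, Finset.smul_sum]
        refine Finset.sum_congr rfl fun y _ => ?_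
        rw [if_pos rfl, Matrix.smul_mul, Matrix.smul_mul, Matrix.mul_smul, smul_smul, smul_smul]
        congr 1
        ring
      · intro B _ hne
        refine Finset.sum_eq_zero fun x _ => Finset.sum_eq_zero fun y _ => ?_
        rw [if_neg (Ne.symm hne)]
      · intro h
        exact absurd hB h
    · rw [← Finset.sum_mul, ← Matrix.smul_mul, Finset.smul_sum]
      congr 1
      have e1 : ∀ A ∈ Lv M (k + 1), ∑ B ∈ (Lv M (k + 1)).erase A, ∑ y ∈ (ad q.1).erase q.2,
          (if mv q.1 y = A ∧ mv q.1 q.2 = B then φ B q.1 •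
            (P N M (k + 1) A * rv (P N M (k + 1) B)) else 0) =
          ∑ y ∈ (ad q.1).erase q.2, if mv q.1 y = A then φ (mv q.1 q.2) q.1 •
            (P N M (k + 1) A * rv (P N M (k + 1) (mv q.1 q.2))) else 0 := by
        intro A _
        rw [Finset.sum_comm]
        refine Finset.sum_congr rfl fun y hy => ?_
        obtain ⟨hne, hyC⟩ := mem_erase.1 hy
        by_cases h : mv q.1 y = A
        · rw [if_pos h, Finset.sum_eq_single (mv q.1 q.2)]
          · rw [if_pos ⟨h, rfl⟩]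
          · intro B _ hB'
            rw [if_neg fun h' => hB' h'.2.symm]
          · intro h'
            exfalso
            apply h'
            refine mem_erase.2 ⟨?_, hB⟩
            rw [← h]
            exact fun h'' => hne (mv_injOn hyC hu h''.symm)
        · rw [if_neg h]
          refine Finset.sum_eq_zero fun B _ => ?_
          rw [if_neg fun h' => h h'.1]
      rw [Finset.sum_congr rfl e1, Finset.sum_comm]
      refine Finset.sum_congr rfl fun y hy => ?_
      obtain ⟨hne, hyC⟩ := mem_erase.1 hy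
      rw [Finset.sum_ite_eq, if_pos (mv_mem hC hyC)]
  rw [Finset.sum_congr rfl hsplit, Finset.sum_add_distrib, ← Finset.sum_mul]
  congr 1
  · symm
    rw [Finset.sum_comm]
    refine Finset.sum_congr rfl fun B _ => ?_
    rw [Finset.sum_comm]
    refine Finset.sum_congr rfl fun x _ => ?_
    rw [Finset.sum_comm]
    refine Finset.sum_congr rfl fun y _ => ?_
    symm
    unfold bI
    rw [Finset.sum_smul]
    refine Finset.sum_congr rfl fun q _ => ?_
    split_ifs
    · rfl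
    · rw [zero_smul]
  · congr 1
    symm
    rw [Finset.sum_comm]
    refine Finset.sum_congr rfl fun A _ => ?_
    rw [Finset.sum_comm]
    refine Finset.sum_congr rfl fun B _ => ?_
    symm
    unfold dI
    rw [Finset.sum_smul]
    refine Finset.sum_congr rfl fun q _ => ?_
    rw [Finset.sum_smul]
    refine Finset.sum_congr rfl fun y _ => ?_
    split_ifs
    · rfl
    · rw [zero_smul]

/-- **the induced kernel vanishes off the pairs with a common value at the mark** -/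
theorem KK_ind_row (hM : N < M) {k : ℕ} (hn : k + 1 < N) (φ : Finset ℕ → Finset ℕ → ℝ)
    {g h : Perm (Fin N)} (hg : Sn (k + 2) g) (hh : Sn (k + 2) h)
    (hne : g ⟨k + 1, hn⟩ ≠ h ⟨k + 1, hn⟩) :
    KK N M (k + 1) (bI M k φ) (dI M k φ) g h = 0 := by
  rw [KK_ind, Matrix.sum_apply]
  refine Finset.sum_eq_zero fun q hq => ?_
  obtain ⟨hC, hu⟩ := mem_sigma.1 hq
  rw [Matrix.smul_apply, RI_supp hM hn hC hu hg hh hne, smul_zero]

/-- the transposed version -/
theorem KK_ind_col (hM : N < M) {k : ℕ} (hn : k + 1 < N) (φ : Finset ℕ → Finset ℕ → ℝ)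
    {g h : Perm (Fin N)} (hg : Sn (k + 2) g) (hh : Sn (k + 2) h)
    (hne : g⁻¹ ⟨k + 1, hn⟩ ≠ h⁻¹ ⟨k + 1, hn⟩) :
    KK N M (k + 1) (bI M k φ) (fun A B => dI M k φ B A) g h = 0 := by
  rw [← rv_KK hM hn]
  exact KK_ind_row hM hn φ (Sn_inv hg) (Sn_inv hh) hne

/-- **pairs which agree neither in the row nor in the column of the mark** -/
theorem KK_none (hM : N < M) {k : ℕ} (hn : k + 1 < N) (φ : Finset ℕ → Finset ℕ → ℝ)
    (b b' : Finset ℕ → ℕ → ℕ → ℝ) (d d' : Finset ℕ → Finset ℕ → ℝ)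
    {g h : Perm (Fin N)} (hg : Sn (k + 2) g) (hh : Sn (k + 2) h)
    (h1 : g ⟨k + 1, hn⟩ ≠ h ⟨k + 1, hn⟩) (h2 : g⁻¹ ⟨k + 1, hn⟩ ≠ h⁻¹ ⟨k + 1, hn⟩) :
    KK N M (k + 1) b d g h ≤ KK N M (k + 1) b' d' g h +
      dist95 M (k + 1) b (fun B x y => b' B x y + 2 * bI M k φ B x y)
        d (fun A B => d' A B + dI M k φ A B + dI M k φ B A) := by
  refine (KK_close hM hn b (fun B x y => b' B x y + 2 * bI M k φ B x y) d
    (fun A B => d' A B + dI M k φ A B + dI M k φ B A) g h).trans (le_of_eq ?_)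
  congr 1
  have e : KK N M (k + 1) (fun B x y => b' B x y + 2 * bI M k φ B x y)
      (fun A B => d' A B + dI M k φ A B + dI M k φ B A) =
      KK N M (k + 1) b' d' + KK N M (k + 1) (bI M k φ) (dI M k φ) +
        KK N M (k + 1) (bI M k φ) (fun A B => dI M k φ B A) := by
    rw [KK_add, KK_add]
    congr 1
    funext B x y
    ring
  rw [e, Matrix.add_apply, Matrix.add_apply, KK_ind_row hM hn φ hg hh h1,
    KK_ind_col hM hn φ hg hh h2, add_zero, add_zero]

end Pool.JM
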