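import Pool.Agent.Work.MP_46fa68_31.Star

/-!
# MP_46fa68_co: bounds of `ex` under insertion and removal of one bead

For `E ∈ Lv M s` and `X = M + L` above all the beads of `E`:
`ins_le`: `ex (insert X E) ≤ ex E / L!`;
`ins_ge`: `ex E / L! * (1 - s / (L + 1)) ≤ ex (insert X E)`;
`ins_ge'`: `ex E * (s! / (s + L)!) ≤ ex (insert X E)`.
`erase_le`: for `x ∈ C ∈ Lv M i`, `x` not the top bead `z`:
`ex (C.erase x) ≤ ex C * (k.descFactorial c) / n!`, `k = M - 1 + i - z` the number of boxes below the first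
row, `c = x - #beads below x` the length of the row, `n` = number of beads above `x`.
-/

set_option autoImplicit false

open Finset

namespace Pool.JM

/-- the product of the distances -/
noncomputable def pdd (X : ℕ) (E : Finset ℕ) : ℝ := ∏ y ∈ E, |(X : ℝ) - y|

theorem ex_insert' {E : Finset ℕ} {X : ℕ} (hX : X ∉ E) :
    ex (insert X E) = ex E * (pdd X E / (X.factorial : ℝ)) := by
  rw [ex_insert hX, mul_div_assoc]
  rfl

theorem pdd_nonneg (X : ℕ) (E : Finset ℕ) : 0 ≤ pdd X E := prod_nonneg fun _ _ => abs_nonneg _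

theorem pdd_range (M L : ℕ) :
    pdd (M + L) (range M) = ((M + L).factorial : ℝ) / (L.factorial : ℝ) := by
  have h1 : pdd (M + L) (range M) = (((M + L).descFactorial M : ℕ) : ℝ) := by
    unfold pdd
    rw [Nat.descFactorial_eq_prod_range, Nat.cast_prod]
    refine prod_congr rfl fun y hy => ?_
    have hy' := mem_range.1 hy
    rw [Nat.cast_sub (by omega), abs_of_nonneg]
    rw [sub_nonneg]
    exact_mod_cast (by omega : y ≤ M + L)
  have h2 := Nat.factorial_mul_descFactorial (n := M + L) (k := M) (Nat.le_add_right _ _)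
  rw [Nat.add_sub_cancel_left] at h2
  have h3 : (L.factorial : ℝ) ≠ 0 := by exact_mod_cast L.factorial_ne_zero
  rw [h1, eq_div_iff h3, mul_comm]
  exact_mod_cast h2

/-- moving a bead up -/
theorem pdd_mv {X : ℕ} {D : Finset ℕ} {x : ℕ} (hx : x ∈ ad D) (hX : x + 1 < X) :
    pdd X (mv D x) * ((X : ℝ) - x) = pdd X D * ((X : ℝ) - x - 1) := by
  obtain ⟨h1, h2⟩ := mem_ad.1 hx
  have h3 : (x : ℝ) + 1 < X := by exact_mod_cast hX
  unfold pdd mv
  rw [prod_insert fun h => h2 (mem_erase.1 h).2, ← mul_prod_erase D _ h1, Nat.cast_add, Nat.cast_one,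
    abs_of_pos (by linarith), abs_of_pos (by linarith)]
  ring

theorem top_mv {D : Finset ℕ} {x X : ℕ} (h : ∀ y ∈ mv D x, y < X) :
    x + 1 < X ∧ ∀ y ∈ D, y < X := by
  have h1 : x + 1 < X := h _ (by unfold mv; exact mem_insert_self _ _)
  refine ⟨h1, fun y hy => ?_⟩
  by_cases hyx : y = x
  · omega
  · exact h y (by unfold mv; exact mem_insert_of_mem (mem_erase.2 ⟨hyx, hy⟩))

theorem pdd_le {M L : ℕ} : ∀ (s : ℕ), ∀ E ∈ Lv M s, (∀ y ∈ E, y < M + L) →
    pdd (M + L) E ≤ ((M + L).factorial : ℝ) / (L.factorial : ℝ) := by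
  intro s
  induction s with
  | zero =>
    intro E hE _
    have hE' : E = range M := by simpa [Lv] using hE
    rw [hE', pdd_range]
  | succ s ih =>
    intro E hE hX
    simp only [Lv, mem_biUnion, mem_image] at hE
    obtain ⟨D, hD, x, hx, rfl⟩ := hE
    obtain ⟨h1, h2⟩ := top_mv hX
    have h3 := ih D hD h2
    have h4 := pdd_mv hx h1
    have h5 : (x : ℝ) + 1 < ((M + L : ℕ) : ℝ) := by exact_mod_cast h1
    refine le_trans ?_ h3
    have h6 : 0 < ((M + L : ℕ) : ℝ) - x := by linarith
    have h7 := pdd_nonneg (M + L) D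
    by_contra hcon
    rw [not_le] at hcon
    have h8 := mul_lt_mul_of_pos_right hcon h6
    rw [h4] at h8
    nlinarith

theorem pdd_ge {M L : ℕ} : ∀ (s : ℕ), ∀ E ∈ Lv M s, (∀ y ∈ E, y < M + L) →
    ((M + L).factorial : ℝ) / (L.factorial : ℝ) * (1 - s / (L + 1)) ≤ pdd (M + L) E := by
  intro s
  induction s with
  | zero =>
    intro E hE _
    have hE' : E = range M := by simpa [Lv] using hE
    rw [hE', pdd_range]
    simp
  | succ s ih =>
    intro E hE hX
    have hEm := hE
    simp only [Lv, mem_biUnion, mem_image] at hE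
    obtain ⟨D, hD, x, hx, rfl⟩ := hE
    obtain ⟨h1, h2⟩ := top_mv hX
    have h3 := ih D hD h2
    have h4 := pdd_mv hx h1
    have h5 : (x : ℝ) + 1 < ((M + L : ℕ) : ℝ) := by exact_mod_cast h1
    have h6 : 0 < ((M + L : ℕ) : ℝ) - x := by linarith
    have hL : (0 : ℝ) < (L : ℝ) + 1 := by positivity
    set F : ℝ := ((M + L).factorial : ℝ) / (L.factorial : ℝ) with hF
    have hF0 : 0 < F := by
      rw [hF]
      exact div_pos (by exact_mod_cast Nat.factorial_pos _) (by exact_mod_cast Nat.factorial_pos _)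
    have hxs : x + 1 < M + (s + 1) := (Lv_spec hEm).2.2.1 (x + 1) (by
      unfold mv; exact mem_insert_self _ _)
    have hxs' : (x : ℝ) ≤ (M : ℝ) + s - 1 + 0 ∨ (x : ℝ) ≤ (M : ℝ) + s := by
      right
      exact_mod_cast (by omega : x ≤ M + s)
    have hxs2 : (x : ℝ) + 1 ≤ (M : ℝ) + s := by exact_mod_cast (by omega : x + 1 ≤ M + s)
    by_cases hneg : (L : ℝ) - s ≤ 0
    · refine le_trans ?_ (pdd_nonneg _ _)
      refine mul_nonpos_of_nonneg_of_nonpos hF0.le ?_
      rw [sub_nonpos, le_div_iff₀ hL]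
      push_cast
      linarith
    · rw [not_le] at hneg
      set X : ℝ := ((M + L : ℕ) : ℝ) with hXX
      have hX' : X = (M : ℝ) + L := by rw [hXX]; push_cast; ring
      have hd : (L : ℝ) + 1 - s ≤ X - x := by linarith
      have h7 : F * (1 - s / (L + 1)) * (X - x - 1) ≤ pdd (M + L) (mv D x) * (X - x) := by
        rw [h4]
        exact mul_le_mul_of_nonneg_right h3 (by linarith)
      have h8 : F * (1 - ((s + 1 : ℕ) : ℝ) / (L + 1)) * (X - x) ≤
          F * (1 - s / (L + 1)) * (X - x - 1) := by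
        rw [mul_assoc, mul_assoc]
        refine mul_le_mul_of_nonneg_left ?_ hF0.le
        have e1 : (1 - ((s + 1 : ℕ) : ℝ) / (L + 1)) = ((L : ℝ) - s) / (L + 1) := by
          push_cast
          field_simp
          ring
        have e2 : (1 - (s : ℝ) / (L + 1)) = ((L : ℝ) + 1 - s) / (L + 1) := by
          field_simp
        rw [e1, e2, div_mul_eq_mul_div, div_mul_eq_mul_div, div_le_div_iff_of_pos_right hL]
        nlinarith
      have h9 := h8.trans h7
      exact le_of_mul_le_mul_right h9 h6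

theorem ins_notMem {E : Finset ℕ} {X : ℕ} (h : ∀ y ∈ E, y < X) : X ∉ E := fun hX =>
  lt_irrefl X (h X hX)

theorem ins_le {M L s : ℕ} {E : Finset ℕ} (hE : E ∈ Lv M s) (hX : ∀ y ∈ E, y < M + L) :
    ex (insert (M + L) E) ≤ ex E / (L.factorial : ℝ) := by
  rw [ex_insert' (ins_notMem hX),
    show ex E / (L.factorial : ℝ) = ex E * (1 / (L.factorial : ℝ)) by ring]
  refine mul_le_mul_of_nonneg_left ?_ (ex_pos E).le
  have h1 := pdd_le s E hE hX
  have h2 : (0 : ℝ) < ((M + L).factorial : ℝ) := by exact_mod_cast Nat.factorial_pos _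
  have h3 : (0 : ℝ) < (L.factorial : ℝ) := by exact_mod_cast Nat.factorial_pos _
  rw [div_le_iff₀ h2]
  refine h1.trans (le_of_eq ?_)
  ring

theorem ins_ge {M L s : ℕ} {E : Finset ℕ} (hE : E ∈ Lv M s) (hX : ∀ y ∈ E, y < M + L) :
    ex E / (L.factorial : ℝ) * (1 - s / (L + 1)) ≤ ex (insert (M + L) E) := by
  rw [ex_insert' (ins_notMem hX), div_mul_eq_mul_div, mul_div_assoc]
  refine mul_le_mul_of_nonneg_left ?_ (ex_pos E).le
  have h1 := pdd_ge s E hE hX
  have h2 : (0 : ℝ) < ((M + L).factorial : ℝ) := by exact_mod_cast Nat.factorial_pos _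
  have h3 : (0 : ℝ) < (L.factorial : ℝ) := by exact_mod_cast Nat.factorial_pos _
  rw [le_div_iff₀ h2]
  refine le_trans (le_of_eq ?_) h1
  ring

theorem ins_mem {M L s : ℕ} {E : Finset ℕ} (hE : E ∈ Lv M s) (hX : ∀ y ∈ E, y < M + L) :
    insert (M + L) E ∈ Lv (M + 1) (s + L) := by
  obtain ⟨h1, -, -, h4⟩ := Lv_spec hE
  rw [mem_Lv_iff, card_insert_of_notMem (ins_notMem hX), sum_insert (ins_notMem hX), sum_range_succ]
  omega

theorem ins_ge' {M L : ℕ} : ∀ (s : ℕ), ∀ E ∈ Lv M s, (∀ y ∈ E, y < M + L) →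
    ex E * ((s.factorial : ℝ) / ((s + L).factorial : ℝ)) ≤ ex (insert (M + L) E) := by
  intro s
  induction s with
  | zero =>
    intro E hE hX
    have h1 := ins_ge hE hX
    rw [Nat.cast_zero, zero_div, sub_zero, mul_one] at h1
    rw [Nat.factorial_zero, Nat.cast_one, zero_add]
    refine le_trans (le_of_eq ?_) h1
    ring
  | succ s ih =>
    intro E hE hX
    set B := insert (M + L) E with hB
    have hBm : B ∈ Lv (M + 1) (s + 1 + L) := ins_mem hE hX
    have h1 := sum_rm_ex hBm
    have h2 := sum_rm_ex hE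
    have hsub : ∑ x ∈ rm E, ex (insert (M + L) (mvd E x)) ≤ ∑ x ∈ rm B, ex (mvd B x) := by
      have hss : rm E ⊆ rm B := by
        intro x hx
        obtain ⟨a1, a2, a3⟩ := mem_rm.1 hx
        refine mem_rm.2 ⟨mem_insert_of_mem a1, a2, fun h => ?_⟩
        rcases mem_insert.1 h with h | h
        · have := hX x a1
          omega
        · exact a3 h
      have heq : ∀ x ∈ rm E, ex (insert (M + L) (mvd E x)) = ex (mvd B x) := by
        intro x hx
        obtain ⟨a1, a2, a3⟩ := mem_rm.1 hx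
        have hx1 := hX x a1
        congr 1
        rw [hB]
        unfold mvd
        rw [erase_insert_of_ne (by omega : M + L ≠ x), insert_comm]
      rw [sum_congr rfl heq]
      exact sum_le_sum_of_subset_of_nonneg hss fun x _ _ => (ex_pos _).le
    have hih : ∑ x ∈ rm E, ex (mvd E x) * ((s.factorial : ℝ) / ((s + L).factorial : ℝ)) ≤
        ∑ x ∈ rm E, ex (insert (M + L) (mvd E x)) := by
      refine sum_le_sum fun x hx => ih _ (mvd_mem hE hx) fun y hy => ?_
      unfold mvd at hy
      rcases mem_insert.1 hy with rfl | hy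
      · have := hX x (mem_rm.1 hx).1
        omega
      · exact hX y (mem_erase.1 hy).2
    rw [← sum_mul, h2] at hih
    have h3 := (hih.trans hsub).trans (le_of_eq h1)
    have hf1 : (((s + 1 + L).factorial : ℕ) : ℝ) = ((s + 1 + L : ℕ) : ℝ) * ((s + L).factorial : ℝ) := by
      rw [show s + 1 + L = (s + L) + 1 by omega, Nat.factorial_succ]
      push_cast
      ring
    have hf2 : (((s + 1).factorial : ℕ) : ℝ) = ((s + 1 : ℕ) : ℝ) * (s.factorial : ℝ) := by
      rw [Nat.factorial_succ]
      push_cast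
      ring
    have hp : (0 : ℝ) < ((s + 1 + L : ℕ) : ℝ) := by exact_mod_cast (by omega : 0 < s + 1 + L)
    have hq : (0 : ℝ) < ((s + L).factorial : ℝ) := by exact_mod_cast Nat.factorial_pos _
    rw [hf1, hf2, ← mul_div_assoc, div_le_iff₀ (mul_pos hp hq)]
    rw [← mul_div_assoc, div_le_iff₀ hq] at h3
    calc ex E * (((s + 1 : ℕ) : ℝ) * (s.factorial : ℝ)) =
        ((s + 1 : ℕ) : ℝ) * ex E * (s.factorial : ℝ) := by ring
      _ ≤ ((s + 1 + L : ℕ) : ℝ) * ex B * ((s + L).factorial : ℝ) := h3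
      _ = ex B * (((s + 1 + L : ℕ) : ℝ) * ((s + L).factorial : ℝ)) := by ring

/-- the product of the distances to the beads above -/
theorem prod_above {x : ℕ} (G : Finset ℕ) (h : ∀ y ∈ G, x < y) :
    (G.card.factorial : ℝ) ≤ ∏ y ∈ G, ((y : ℝ) - x) := by
  induction G using Finset.induction_on_max with
  | empty => simp
  | insert a C ha ih =>
    have hn : a ∉ C := fun h => lt_irrefl a (ha a h)
    rw [card_insert_of_notMem hn, Nat.factorial_succ, prod_insert hn]
    push_cast
    have hih := ih fun y hy => h y (mem_insert_of_mem hy)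
    have hc : C.card + 1 ≤ a - x := by
      have : C ⊆ Ioo x a := fun y hy => mem_Ioo.2 ⟨h y (mem_insert_of_mem hy), ha y hy⟩
      have := card_le_card this
      rw [Nat.card_Ioo] at this
      have := h a (mem_insert_self _ _)
      omega
    have hax : x ≤ a := (h a (mem_insert_self _ _)).le
    have hc' : (C.card : ℝ) + 1 ≤ (a : ℝ) - x := by
      have h1 : ((C.card + 1 : ℕ) : ℝ) ≤ ((a - x : ℕ) : ℝ) := by exact_mod_cast hc
      rw [Nat.cast_sub hax] at h1
      push_cast at h1
      exact h1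
    exact mul_le_mul hc' hih (by positivity) (le_trans (by positivity) hc')

/-- **removal of one bead**: `z` is the top bead, `x < z` -/
theorem erase_le {M i : ℕ} {C : Finset ℕ} (hC : C ∈ Lv M i) {x z : ℕ} (hx : x ∈ C) (hz : z ∈ C)
    (hxz : x < z) (_hz' : ∀ y ∈ C, y ≤ z) :
    x + 1 - (C.filter (· ≤ x)).card ≤ M - 1 + i - z ∧
    x + 1 - (C.filter (· ≤ x)).card ≤ z + 1 - M ∧
    ex (C.erase x) ≤ ex C * (((M - 1 + i - z).descFactorial (x + 1 - (C.filter (· ≤ x)).card) : ℕ) : ℝ) /
      (((C.filter (x < ·)).card.factorial : ℕ) : ℝ) := by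
  obtain ⟨c1, -, c3, c4⟩ := Lv_spec hC
  set F := C.filter (· ≤ x) with hF
  set E := C.filter (· < x) with hE
  set G := C.filter (x < ·) with hG
  have hFE : F = insert x E := by
    ext y
    simp only [hF, hE, mem_filter, mem_insert]
    constructor
    · rintro ⟨h1, h2⟩
      rcases Nat.lt_or_ge y x with h | h
      · exact Or.inr ⟨h1, h⟩
      · exact Or.inl (le_antisymm h2 h)
    · rintro (rfl | ⟨h1, h2⟩)
      · exact ⟨hx, le_rfl⟩
      · exact ⟨h1, h2.le⟩
  have hxE : x ∉ E := fun h => lt_irrefl x (mem_filter.1 h).2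
  have hxF : F.card = E.card + 1 := by
    rw [hFE, card_insert_of_notMem hxE]
  have hEle : E.card ≤ x := by
    have : E ⊆ range x := fun y hy => mem_range.2 (mem_filter.1 hy).2
    have := card_le_card this
    rwa [card_range] at this
  have hCM : F.card + G.card = M := by
    have h1 : F.card + (C.filter fun y => ¬ y ≤ x).card = C.card := by
      rw [hF, card_filter_add_card_filter_not]
    have h2 : (C.filter fun y => ¬ y ≤ x) = G := by
      rw [hG]
      exact filter_congr fun y _ => not_le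
    rw [h2, c1] at h1
    exact h1
  -- the level of E
  set s := ∑ y ∈ E, y - ∑ y ∈ range E.card, y with hs
  have hEs := sum_range_le' E
  have hElv : E ∈ Lv E.card s := mem_Lv_iff.2 ⟨rfl, by omega⟩
  set L := x - E.card with hL
  have hxL : E.card + L = x := by omega
  have hcL : x + 1 - F.card = L := by omega
  -- the number of boxes
  have hzG : z ∈ G := mem_filter.2 ⟨hz, hxz⟩
  have hk : s + L ≤ M - 1 + i - z := by
    set G' := G.erase z with hG'
    have e1 : ∑ y ∈ C, y = ∑ y ∈ F, y + ∑ y ∈ G, y := by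
      have h1 := sum_filter_add_sum_filter_not C (· ≤ x) fun y => y
      have h2 : (C.filter fun y => ¬ y ≤ x) = G := by
        rw [hG]
        exact filter_congr fun y _ => not_le
      rw [h2] at h1
      exact h1.symm
    have e2 : ∑ y ∈ G, y = z + ∑ y ∈ G', y := (add_sum_erase G (fun y => y) hzG).symm
    have e3 : ∑ y ∈ F, y = x + ∑ y ∈ E, y := by
      rw [hFE, sum_insert hxE]
    have e4 : ∑ y ∈ range (M - 1), y ≤ ∑ y ∈ range F.card ∪ G', y := by
      have h1 := sum_range_le' (range F.card ∪ G')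
      have h2 : (range F.card ∪ G').card = M - 1 := by
        rw [card_union_of_disjoint, card_range, card_erase_of_mem hzG]
        · have : 0 < G.card := card_pos.2 ⟨z, hzG⟩
          omega
        · rw [disjoint_left]
          intro y hy hy'
          have h3 := mem_range.1 hy
          have h4 := (mem_filter.1 (mem_erase.1 hy').2).2
          omega
      rwa [h2] at h1
    have e5 : ∑ y ∈ range F.card ∪ G', y = ∑ y ∈ range F.card, y + ∑ y ∈ G', y := by
      rw [sum_union]
      rw [disjoint_left]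
      intro y hy hy'
      have h3 := mem_range.1 hy
      have h4 := (mem_filter.1 (mem_erase.1 hy').2).2
      omega
    have e6 : ∑ y ∈ range F.card, y = ∑ y ∈ range E.card, y + E.card := by
      rw [hxF, sum_range_succ]
    have e7 : ∑ y ∈ range M, y = ∑ y ∈ range (M - 1), y + (M - 1) := by
      obtain ⟨M', rfl⟩ : ∃ M', M = M' + 1 := ⟨M - 1, by omega⟩
      rw [sum_range_succ, Nat.add_sub_cancel]
    omega
  have ha : L ≤ z + 1 - M := by
    have h1 : G ⊆ Ioc x z := fun y hy => mem_Ioc.2 ⟨(mem_filter.1 hy).2, _hz' y (mem_filter.1 hy).1⟩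
    have h2 := card_le_card h1
    rw [Nat.card_Ioc] at h2
    omega
  refine ⟨by omega, by omega, ?_⟩
  rw [hcL]
  -- the ratio
  have hdec : C.erase x = E ∪ G := by
    ext y
    simp only [hE, hG, mem_erase, mem_union, mem_filter]
    constructor
    · rintro ⟨h1, h2⟩
      rcases lt_or_gt_of_ne h1 with h | h
      · exact Or.inl ⟨h2, h⟩
      · exact Or.inr ⟨h2, h⟩
    · rintro (⟨h1, h2⟩ | ⟨h1, h2⟩)
      · exact ⟨by omega, h1⟩
      · exact ⟨by omega, h1⟩
  have hdis : Disjoint E G := by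
    rw [disjoint_left]
    intro y hy hy'
    have h1 := (mem_filter.1 hy).2
    have h2 := (mem_filter.1 hy').2
    omega
  have hexC : ex C = ex (C.erase x) * (pdd x E / (x.factorial : ℝ) * ∏ y ∈ G, ((y : ℝ) - x)) := by
    conv_lhs => rw [← insert_erase hx]
    rw [ex_insert' (notMem_erase x C)]
    have h1 : pdd x (C.erase x) = pdd x E * ∏ y ∈ G, ((y : ℝ) - x) := by
      unfold pdd
      rw [hdec, prod_union hdis]
      congr 1
      refine prod_congr rfl fun y hy => ?_
      have h2 : (x : ℝ) < y := by exact_mod_cast (mem_filter.1 hy).2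
      rw [abs_of_neg (by linarith)]
      ring
    rw [h1]
    ring
  have hlow : (s.factorial : ℝ) / ((s + L).factorial : ℝ) ≤ pdd x E / (x.factorial : ℝ) := by
    have h1 := ins_ge' (M := E.card) (L := L) s E hElv
      (fun y hy => by rw [hxL]; exact (mem_filter.1 hy).2)
    rw [hxL, ex_insert' hxE] at h1
    exact le_of_mul_le_mul_left h1 (ex_pos E)
  have hG1 := prod_above G fun y hy => (mem_filter.1 hy).2
  have hn : (0 : ℝ) < (G.card.factorial : ℝ) := by exact_mod_cast Nat.factorial_pos _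
  have hsp : (0 : ℝ) < (s.factorial : ℝ) := by exact_mod_cast Nat.factorial_pos _
  have hslp : (0 : ℝ) < ((s + L).factorial : ℝ) := by exact_mod_cast Nat.factorial_pos _
  have hdf : ((s + L).factorial : ℝ) = (s.factorial : ℝ) * (((s + L).descFactorial L : ℕ) : ℝ) := by
    have := Nat.factorial_mul_descFactorial (n := s + L) (k := L) (Nat.le_add_left _ _)
    rw [Nat.add_sub_cancel] at this
    exact_mod_cast this.symm
  have hdm : (((s + L).descFactorial L : ℕ) : ℝ) ≤ (((M - 1 + i - z).descFactorial L : ℕ) : ℝ) := by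
    exact_mod_cast Nat.descFactorial_le L hk
  have h1 : (s.factorial : ℝ) / ((s + L).factorial : ℝ) * (G.card.factorial : ℝ) ≤
      pdd x E / (x.factorial : ℝ) * ∏ y ∈ G, ((y : ℝ) - x) :=
    mul_le_mul hlow hG1 hn.le (le_trans (by positivity) hlow)
  have h2 := mul_le_mul_of_nonneg_left h1 (ex_pos (C.erase x)).le
  rw [← hexC] at h2
  rw [le_div_iff₀ hn]
  have hdp : (0 : ℝ) < (((s + L).descFactorial L : ℕ) : ℝ) := by
    exact_mod_cast Nat.descFactorial_pos.2 (Nat.le_add_left _ _)
  have h3 : ex (C.erase x) * (G.card.factorial : ℝ) ≤ ex C * (((s + L).descFactorial L : ℕ) : ℝ) := by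
    rw [hdf] at h2
    have e1 : ex (C.erase x) * ((s.factorial : ℝ) / ((s.factorial : ℝ) *
        (((s + L).descFactorial L : ℕ) : ℝ)) * (G.card.factorial : ℝ)) =
        ex (C.erase x) * (G.card.factorial : ℝ) / (((s + L).descFactorial L : ℕ) : ℝ) := by
      field_simp
    rw [e1, div_le_iff₀ hdp] at h2
    exact h2
  exact h3.trans (mul_le_mul_of_nonneg_left hdm (ex_pos C).le)

end Pool.JM
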