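import Pool.Agent.Work.MP_46fa68_31.Ins

/-!
# MP_46fa68_co, NU: the weights and their sums
-/

set_option autoImplicit false

open Finset

namespace Pool.JM

/-- the weights `w 0 = 14/25`, `w j = (3/25)(j+2)(3/4)^j` -/
structure WOK (w : ℕ → ℝ) : Prop where
  h0 : w 0 = 14 / 25
  h1 : ∀ j, 1 ≤ j → w j = 3 / 25 * ((j : ℝ) + 2) * (3 / 4) ^ j

namespace WOK

variable {w : ℕ → ℝ}

theorem pos (hw : WOK w) (j : ℕ) : 0 < w j := by
  rcases Nat.eq_zero_or_pos j with rfl | h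
  · rw [hw.h0]; norm_num
  · rw [hw.h1 j h]; positivity

theorem succ_le (hw : WOK w) (j : ℕ) : w (j + 1) ≤ w j := by
  rcases Nat.eq_zero_or_pos j with rfl | h
  · rw [hw.h0, hw.h1 _ (by omega)]; norm_num
  · rw [hw.h1 j h, hw.h1 (j + 1) (by omega), pow_succ]
    have h1 : (1 : ℝ) ≤ j := by exact_mod_cast h
    have h2 : (0 : ℝ) < (3 / 4 : ℝ) ^ j := by positivity
    push_cast
    nlinarith

theorem anti (hw : WOK w) : Antitone w := antitone_nat_of_succ_le hw.succ_le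

/-- `w j ≤ (3/25)(j+2)(3/4)^j + [j = 0] 8/25` -/
theorem eq' (hw : WOK w) (j : ℕ) :
    w j = 3 / 25 * ((j : ℝ) + 2) * (3 / 4) ^ j + if j = 0 then 8 / 25 else 0 := by
  rcases Nat.eq_zero_or_pos j with rfl | h
  · rw [hw.h0]; norm_num
  · rw [hw.h1 j h, if_neg (by omega), add_zero]

end WOK

theorem exp34 : Real.exp (3 / 4) ≤ 2.1171 := by
  have h1 : Real.exp (3 / 4) ^ 4 = Real.exp 1 ^ 3 := by
    rw [← Real.exp_nat_mul, ← Real.exp_nat_mul]
    norm_num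
  have h2 := Real.exp_one_lt_d9
  have h3 : Real.exp 1 ^ 3 ≤ 2.7182818286 ^ 3 := by
    gcongr
  have h4 : Real.exp (3 / 4) ^ 4 ≤ 2.1171 ^ 4 := by
    rw [h1]
    refine h3.trans ?_
    norm_num
  exact le_of_pow_le_pow_left₀ (by norm_num) (by norm_num) h4

/-- the sum of `x^q / q!` -/
theorem sum_pow_div (x : ℝ) (hx : 0 ≤ x) (n : ℕ) :
    ∑ q ∈ range n, x ^ q / (q.factorial : ℝ) ≤ Real.exp x := Real.sum_le_exp_of_nonneg hx n

theorem sum_q_pow_div (x : ℝ) (hx : 0 ≤ x) (n : ℕ) :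
    ∑ q ∈ range n, (q : ℝ) * x ^ q / (q.factorial : ℝ) ≤ x * Real.exp x := by
  rcases n with _ | n
  · simp
    positivity
  · rw [sum_range_succ']
    simp only [Nat.cast_zero, zero_mul, zero_div, add_zero]
    have h : ∀ q ∈ range n, ((q + 1 : ℕ) : ℝ) * x ^ (q + 1) / ((q + 1).factorial : ℝ) =
        x * (x ^ q / (q.factorial : ℝ)) := by
      intro q _
      rw [Nat.factorial_succ, pow_succ]
      push_cast
      have : (q.factorial : ℝ) ≠ 0 := by exact_mod_cast q.factorial_ne_zero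
      field_simp
    rw [sum_congr rfl h, ← mul_sum]
    exact mul_le_mul_of_nonneg_left (sum_pow_div x hx n) hx

/-- **the sum of the weights** -/
theorem WOK.sum_le {w : ℕ → ℝ} (hw : WOK w) (n : ℕ) :
    ∑ q ∈ range n, w q / (q.factorial : ℝ) ≤ 1.0192 := by
  have h1 : ∀ q ∈ range n, w q / (q.factorial : ℝ) =
      3 / 25 * ((q : ℝ) * (3 / 4) ^ q / (q.factorial : ℝ)) +
        6 / 25 * ((3 / 4) ^ q / (q.factorial : ℝ)) + (if q = 0 then 8 / 25 else 0) := by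
    intro q _
    rw [hw.eq' q]
    rcases Nat.eq_zero_or_pos q with rfl | h
    · norm_num
    · rw [if_neg (by omega)]
      ring
  rw [sum_congr rfl h1, sum_add_distrib, sum_add_distrib, ← mul_sum, ← mul_sum]
  have h2 := sum_pow_div (3 / 4) (by norm_num) n
  have h3 := sum_q_pow_div (3 / 4) (by norm_num) n
  have h4 := exp34
  have h5 : ∑ q ∈ range n, (if q = 0 then (8 / 25 : ℝ) else 0) ≤ 8 / 25 := by
    rw [sum_ite_eq' (range n) 0]
    split_ifs <;> norm_num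
  linarith

/-- the sum with the factor `1/(t+4) + 1/(4+q)` -/
theorem WOK.sum0_le {w : ℕ → ℝ} (hw : WOK w) {t : ℕ} (ht : 16 ≤ t) :
    ∑ q ∈ range t, w q / (q.factorial : ℝ) * (1 / ((t : ℝ) + 4) + 1 / (4 + (q : ℝ))) ≤
      6 * (0.0819 * w 0) := by
  have ht' : (16 : ℝ) ≤ t := by exact_mod_cast ht
  have hi : 1 / ((t : ℝ) + 4) ≤ 1 / 20 := by
    rw [div_le_div_iff₀ (by linarith) (by norm_num)]
    linarith
  have hs := hw.sum_le t
  obtain ⟨n, rfl⟩ : ∃ n, t = n + 4 := ⟨t - 4, by omega⟩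
  rw [sum_range_succ', sum_range_succ', sum_range_succ', sum_range_succ'] at hs ⊢
  have hp : ∀ q : ℕ, 0 ≤ w q / (q.factorial : ℝ) := fun q => div_nonneg (hw.pos q).le (by positivity)
  have htail : ∑ k ∈ range n, w (k + 1 + 1 + 1 + 1) / ((k + 1 + 1 + 1 + 1).factorial : ℝ) *
      (1 / (((n + 4 : ℕ) : ℝ) + 4) + 1 / (4 + ((k + 1 + 1 + 1 + 1 : ℕ) : ℝ))) ≤
      0.175 * ∑ k ∈ range n, w (k + 1 + 1 + 1 + 1) / ((k + 1 + 1 + 1 + 1).factorial : ℝ) := by
    rw [mul_sum]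
    refine sum_le_sum fun k _ => ?_
    rw [mul_comm (0.175 : ℝ)]
    refine mul_le_mul_of_nonneg_left ?_ (hp _)
    have : 1 / (4 + ((k + 1 + 1 + 1 + 1 : ℕ) : ℝ)) ≤ 1 / 8 := by
      push_cast
      have hk : (0 : ℝ) ≤ k := Nat.cast_nonneg k
      rw [div_le_div_iff₀ (by linarith) (by norm_num)]
      linarith
    norm_num at this hi ⊢
    linarith
  have w1 := hw.h1 1 le_rfl
  have w2 := hw.h1 2 (by norm_num)
  have w3 := hw.h1 3 (by norm_num)
  have w0 := hw.h0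
  simp only [zero_add, Nat.cast_zero, Nat.factorial] at hs ⊢
  rw [w0, w1, w2, w3] at hs
  rw [w0]
  rw [show (1 + 1 : ℕ) = 2 from rfl, show (2 + 1 : ℕ) = 3 from rfl, w1, w2, w3]
  set a := 1 / (((n + 4 : ℕ) : ℝ) + 4) with ha
  have e := add_le_add_right htail 0
  simp only [Nat.factorial] at e htail
  set S := ∑ k ∈ range n, w (k + 1 + 1 + 1 + 1) /
    (((k + 1 + 1 + 1 + 1) * ((k + 1 + 1 + 1) * ((k + 1 + 1) * ((k + 1) * k.factorial))) : ℕ) : ℝ)
    with hS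
  norm_num at hs htail ⊢
  nlinarith

end Pool.JM
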