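import Pool.Agent.Work.MP_46fa68_31.NU1
import Pool.Agent.Work.MP_46fa68_T.Near2

/-!
# MP_46fa68_co, NU: the STAR sum `SS`
-/

set_option autoImplicit false

open Finset

namespace Pool.JM

/-- the STAR sum (without the first row) -/
noncomputable def SS (w : ℕ → ℝ) (t l : ℕ) : ℝ :=
  ∑ q ∈ range t, ((l.choose (t - q) : ℝ) * ((l - (t - q) - 1).choose q : ℝ) +
    ((l - 1).choose t : ℝ) * (t.choose q : ℝ)) * (w q / ((t + 3 + q).factorial : ℝ))

theorem tb_mem' {B : Finset ℕ} (hB : 0 < B.card) : tb B ∈ B ∧ ∀ y ∈ B, y ≤ tb B := by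
  obtain ⟨x, C, rfl, h⟩ := exists_top (card_pos.1 hB)
  rw [tb_insert h]
  refine ⟨mem_insert_self _ _, fun y hy => ?_⟩
  rcases mem_insert.1 hy with rfl | hy
  · exact le_rfl
  · exact (h y hy).le

theorem YR_le_SS {w : ℕ → ℝ} (hw : WOK w) {t M : ℕ} (hM : t < M) {W : ℕ → Finset ℕ → ℝ}
    (hW : ∀ i, 1 ≤ i → i ≤ t → ∀ C ∈ Lv M i,
      W i C = w (t - (tb C + 1 - M)) * ex C / (((t : ℝ) + 3) * ((t + 3 + t - i).factorial : ℝ)))
    (hW0 : W 0 (range M) = W0 M t W) {l : ℕ} (hl : t < l) {C : Finset ℕ} (hC : C ∈ Lv M l) :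
    YR t W l C ≤ SS w t l / ((t : ℝ) + 3) * ex C := by
  have h1 := STAR hM (W := W)
    (b := fun i c => w (t - c) / (((t : ℝ) + 3) * ((t + 3 + t - i).factorial : ℝ)))
    (fun i hi1 hi2 c hc D hD hDc => by
      rw [hW i hi1 hi2 D hD, mul_div_right_comm]
      refine mul_le_mul_of_nonneg_right ?_ (ex_pos D).le
      refine div_le_div_of_nonneg_right ?_ (by positivity)
      refine hw.anti ?_
      have h2 : tb D ∈ D := by
        refine (tb_mem' ?_).1
        have := (Lv_spec hD).1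
        omega
      have := hDc _ h2
      omega) hW0 hl hC (c := l) (fun x hx => (Lv_spec hC).2.2.1 x hx)
  refine h1.trans (le_of_eq ?_)
  congr 1
  rw [mul_sum, ← sum_add_distrib]
  unfold SS
  rw [sum_div]
  refine sum_nbij' (fun i => t - i) (fun q => t - q) ?_ ?_ ?_ ?_ ?_
  · intro i hi
    rw [mem_Icc] at hi
    rw [mem_range]
    omega
  · intro q hq
    rw [mem_range] at hq
    rw [mem_Icc]
    omega
  · intro i hi
    rw [mem_Icc] at hi
    omega
  · intro q hq
    rw [mem_range] at hq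
    omega
  · intro i hi
    rw [mem_Icc] at hi
    have e1 : min l i = i := by omega
    have e2 : t - (t - i) = i := by omega
    have e3 : t + 3 + t - i = t + 3 + (t - i) := by omega
    have e4 : (t.choose i : ℝ) = (t.choose (t - i) : ℝ) := by
      rw [Nat.choose_symm hi.2]
    rw [e1, e2, e3, e4]
    have h3 : ((t : ℝ) + 3) ≠ 0 := by positivity
    have h4 : ((t + 3 + (t - i)).factorial : ℝ) ≠ 0 := by
      exact_mod_cast Nat.factorial_ne_zero _
    field_simp

/-- `C(t,q) q! (t+3)! ≤ (t+3+q)!` -/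
theorem choose_fac (t q : ℕ) :
    t.choose q * q.factorial * (t + 3).factorial ≤ (t + 3 + q).factorial := by
  have h1 : t.choose q * q.factorial = t.descFactorial q := by
    rw [Nat.descFactorial_eq_factorial_mul_choose, mul_comm]
  have h2 := Nat.factorial_mul_descFactorial (n := t + 3 + q) (k := q) (Nat.le_add_left _ _)
  rw [Nat.add_sub_cancel] at h2
  rw [h1, ← h2, mul_comm]
  exact Nat.mul_le_mul_left _ (Nat.descFactorial_le q (by omega))

/-- `t! (t+3)! ≤ (t-q)! (t+3+q)!` -/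
theorem fac_fac {t q : ℕ} (h : q ≤ t) :
    t.factorial * (t + 3).factorial ≤ (t - q).factorial * (t + 3 + q).factorial := by
  have h1 := Nat.factorial_mul_descFactorial h
  have h2 := Nat.factorial_mul_descFactorial (n := t + 3 + q) (k := q) (Nat.le_add_left _ _)
  rw [Nat.add_sub_cancel] at h2
  rw [← h1, ← h2]
  have h3 : t.descFactorial q ≤ (t + 3 + q).descFactorial q := Nat.descFactorial_le q (by omega)
  calc (t - q).factorial * t.descFactorial q * (t + 3).factorial
      = (t - q).factorial * ((t + 3).factorial * t.descFactorial q) := by ring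
    _ ≤ (t - q).factorial * ((t + 3).factorial * (t + 3 + q).descFactorial q) :=
        Nat.mul_le_mul_left _ (Nat.mul_le_mul_left _ h3)

theorem SS_crude {w : ℕ → ℝ} (hw : WOK w) {t l : ℕ} (hl : t < l) :
    SS w t l ≤ 2.0384 * ((l.choose t : ℝ) / ((t + 3).factorial : ℝ)) := by
  have hterm : ∀ q ∈ range t, ((l.choose (t - q) : ℝ) * ((l - (t - q) - 1).choose q : ℝ) +
      ((l - 1).choose t : ℝ) * (t.choose q : ℝ)) * (w q / ((t + 3 + q).factorial : ℝ)) ≤
      2 * ((l.choose t : ℝ) / ((t + 3).factorial : ℝ)) * (w q / (q.factorial : ℝ)) := by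
    intro q hq
    have hq' := mem_range.1 hq
    have a1 : l.choose (t - q) * (l - (t - q) - 1).choose q ≤ l.choose t * t.choose q := by
      have h1 := Nat.choose_mul (n := l) (k := t) (s := t - q) (Nat.sub_le _ _)
      rw [show t - (t - q) = q by omega, Nat.choose_symm hq'.le] at h1
      rw [h1]
      exact Nat.mul_le_mul_left _ (Nat.choose_le_choose _ (by omega))
    have a2 : (l - 1).choose t * t.choose q ≤ l.choose t * t.choose q :=
      Nat.mul_le_mul_right _ (Nat.choose_le_choose _ (by omega))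
    have a3 : (l.choose (t - q) : ℝ) * ((l - (t - q) - 1).choose q : ℝ) +
      ((l - 1).choose t : ℝ) * (t.choose q : ℝ) ≤ 2 * ((l.choose t : ℝ) * (t.choose q : ℝ)) := by
      have b1 : (l.choose (t - q) : ℝ) * ((l - (t - q) - 1).choose q : ℝ) ≤
        (l.choose t : ℝ) * (t.choose q : ℝ) := by exact_mod_cast a1
      have b2 : ((l - 1).choose t : ℝ) * (t.choose q : ℝ) ≤
        (l.choose t : ℝ) * (t.choose q : ℝ) := by exact_mod_cast a2
      linarith
    have a4 : (t.choose q : ℝ) * (q.factorial : ℝ) * ((t + 3).factorial : ℝ) ≤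
      ((t + 3 + q).factorial : ℝ) := by exact_mod_cast choose_fac t q
    have p1 : (0 : ℝ) < (q.factorial : ℝ) := by exact_mod_cast q.factorial_pos
    have p2 : (0 : ℝ) < ((t + 3).factorial : ℝ) := by exact_mod_cast Nat.factorial_pos _
    have p3 : (0 : ℝ) < ((t + 3 + q).factorial : ℝ) := by exact_mod_cast Nat.factorial_pos _
    have hwq := hw.pos q
    refine (mul_le_mul_of_nonneg_right a3 (by positivity)).trans ?_
    have e1 : 2 * ((l.choose t : ℝ) * (t.choose q : ℝ)) * (w q / ((t + 3 + q).factorial : ℝ)) =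
        (2 * (l.choose t : ℝ) * w q) * ((t.choose q : ℝ) / ((t + 3 + q).factorial : ℝ)) := by
      ring
    have e2 : 2 * ((l.choose t : ℝ) / ((t + 3).factorial : ℝ)) * (w q / (q.factorial : ℝ)) =
        (2 * (l.choose t : ℝ) * w q) * (1 / ((q.factorial : ℝ) * ((t + 3).factorial : ℝ))) := by
      field_simp
    rw [e1, e2]
    refine mul_le_mul_of_nonneg_left ?_ (by positivity)
    rw [div_le_div_iff₀ p3 (by positivity)]
    linarith
  unfold SS
  refine (sum_le_sum hterm).trans ?_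
  rw [← mul_sum]
  have h1 := hw.sum_le t
  have h2 : (0 : ℝ) ≤ (l.choose t : ℝ) / ((t + 3).factorial : ℝ) := by positivity
  nlinarith

theorem SS_top {w : ℕ → ℝ} (hw : WOK w) (t k : ℕ) :
    SS w t (t + 4 + k) ≤ ((t + 3 + k).factorial : ℝ) /
      (((k + 3).factorial : ℝ) * (t.factorial : ℝ) * ((t + 3).factorial : ℝ)) *
      ∑ q ∈ range t, w q / (q.factorial : ℝ) * (1 + ((t : ℝ) + 4 + k) / ((k : ℝ) + 4 + q)) := by
  unfold SS
  rw [mul_sum]
  refine sum_le_sum fun q hq => ?_
  have hq' := mem_range.1 hq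
  have e0 : t + 4 + k - (t - q) - 1 = k + 3 + q := by omega
  have e00 : t + 4 + k - 1 = t + 3 + k := by omega
  have c1 : ((t + 4 + k).choose (t - q) : ℝ) =
      ((t + 4 + k).factorial : ℝ) / (((t - q).factorial : ℝ) * ((k + 4 + q).factorial : ℝ)) := by
    rw [Nat.cast_choose ℝ (by omega), show t + 4 + k - (t - q) = k + 4 + q by omega]
  have c2 : ((k + 3 + q).choose q : ℝ) =
      ((k + 3 + q).factorial : ℝ) / ((q.factorial : ℝ) * ((k + 3).factorial : ℝ)) := by
    rw [Nat.cast_choose ℝ (by omega), show k + 3 + q - q = k + 3 by omega]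
  have c3 : ((t + 3 + k).choose t : ℝ) =
      ((t + 3 + k).factorial : ℝ) / ((t.factorial : ℝ) * ((k + 3).factorial : ℝ)) := by
    rw [Nat.cast_choose ℝ (by omega), show t + 3 + k - t = k + 3 by omega]
  have c4 : (t.choose q : ℝ) =
      (t.factorial : ℝ) / ((q.factorial : ℝ) * ((t - q).factorial : ℝ)) := by
    rw [Nat.cast_choose ℝ hq'.le]
  have f1 : ((t + 4 + k).factorial : ℝ) = ((t : ℝ) + 4 + k) * ((t + 3 + k).factorial : ℝ) := by
    rw [show t + 4 + k = (t + 3 + k) + 1 by omega, Nat.factorial_succ]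
    push_cast
    ring
  have f2 : ((k + 4 + q).factorial : ℝ) = ((k : ℝ) + 4 + q) * ((k + 3 + q).factorial : ℝ) := by
    rw [show k + 4 + q = (k + 3 + q) + 1 by omega, Nat.factorial_succ]
    push_cast
    ring
  have p0 : (0 : ℝ) < (t.factorial : ℝ) := by exact_mod_cast Nat.factorial_pos _
  have p1 : (0 : ℝ) < (q.factorial : ℝ) := by exact_mod_cast q.factorial_pos
  have p2 : (0 : ℝ) < ((t + 3).factorial : ℝ) := by exact_mod_cast Nat.factorial_pos _
  have p3 : (0 : ℝ) < ((t + 3 + q).factorial : ℝ) := by exact_mod_cast Nat.factorial_pos _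
  have p4 : (0 : ℝ) < ((t - q).factorial : ℝ) := by exact_mod_cast Nat.factorial_pos _
  have p5 : (0 : ℝ) < ((k + 3).factorial : ℝ) := by exact_mod_cast Nat.factorial_pos _
  have p6 : (0 : ℝ) < ((k + 3 + q).factorial : ℝ) := by exact_mod_cast Nat.factorial_pos _
  have p7 : (0 : ℝ) < ((t + 3 + k).factorial : ℝ) := by exact_mod_cast Nat.factorial_pos _
  have p8 : (0 : ℝ) < ((k : ℝ) + 4 + q) := by positivity
  have hwq := hw.pos q
  rw [e0, e00, c1, c2, c3, c4, f1, f2]
  have g : (t.factorial : ℝ) * ((t + 3).factorial : ℝ) ≤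
      ((t - q).factorial : ℝ) * ((t + 3 + q).factorial : ℝ) := by
    exact_mod_cast fac_fac hq'.le
  have e1 : (((t : ℝ) + 4 + k) * ((t + 3 + k).factorial : ℝ) /
      (((t - q).factorial : ℝ) * (((k : ℝ) + 4 + q) * ((k + 3 + q).factorial : ℝ))) *
      (((k + 3 + q).factorial : ℝ) / ((q.factorial : ℝ) * ((k + 3).factorial : ℝ))) +
      ((t + 3 + k).factorial : ℝ) / ((t.factorial : ℝ) * ((k + 3).factorial : ℝ)) *
      ((t.factorial : ℝ) / ((q.factorial : ℝ) * ((t - q).factorial : ℝ)))) *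
      (w q / ((t + 3 + q).factorial : ℝ)) =
      (((t + 3 + k).factorial : ℝ) / ((k + 3).factorial : ℝ) * (w q / (q.factorial : ℝ)) *
        (1 + ((t : ℝ) + 4 + k) / ((k : ℝ) + 4 + q))) *
        (1 / (((t - q).factorial : ℝ) * ((t + 3 + q).factorial : ℝ))) := by
    field_simp
    ring
  have e2 : ((t + 3 + k).factorial : ℝ) /
      (((k + 3).factorial : ℝ) * (t.factorial : ℝ) * ((t + 3).factorial : ℝ)) *
      (w q / (q.factorial : ℝ) * (1 + ((t : ℝ) + 4 + k) / ((k : ℝ) + 4 + q))) =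
      (((t + 3 + k).factorial : ℝ) / ((k + 3).factorial : ℝ) * (w q / (q.factorial : ℝ)) *
        (1 + ((t : ℝ) + 4 + k) / ((k : ℝ) + 4 + q))) *
        (1 / ((t.factorial : ℝ) * ((t + 3).factorial : ℝ))) := by
    field_simp
  rw [e1, e2]
  refine mul_le_mul_of_nonneg_left ?_ (by positivity)
  exact one_div_le_one_div_of_le (by positivity) g

end Pool.JM
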