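import Pool.Agent.Work.MP_46fa68_31.NU2

/-!
# MP_46fa68_co, NU: numerical bounds
-/

set_option autoImplicit false

open Finset

namespace Pool.JM

/-! ### the other beads -/

theorem EB_base : ∀ t < 18, 16 ≤ t → ∀ k < t, ∀ c < k + 1, c ≤ t - k →
    2200 * 4 ^ (t + 3 + k) * k.descFactorial c ≤ 3 ^ k * 2 ^ c * (k + 2) * (t + 4).factorial := by
  decide +kernel

theorem EB : ∀ t : ℕ, 16 ≤ t → ∀ k < t, ∀ c ≤ k, c ≤ t - k →
    2200 * 4 ^ (t + 3 + k) * k.descFactorial c ≤ 3 ^ k * 2 ^ c * (k + 2) * (t + 4).factorial := by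
  intro t
  induction t using Nat.strong_induction_on with
  | _ t ih =>
    intro ht k hk c hc hct
    rcases Nat.lt_or_ge t 18 with h18 | h18
    · exact EB_base t h18 ht k hk c (by omega) hct
    obtain ⟨s, rfl⟩ : ∃ s, t = s + 2 := ⟨t - 2, by omega⟩
    have f1 : (s + 2 + 4).factorial = (s + 6) * (s + 1 + 4).factorial := by
      rw [show s + 2 + 4 = (s + 1 + 4) + 1 by omega, Nat.factorial_succ]
    have f2 : (s + 1 + 4).factorial = (s + 5) * (s + 4).factorial := by
      rw [show s + 1 + 4 = (s + 4) + 1 by omega, Nat.factorial_succ]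
    rcases Nat.lt_or_ge k (s + 1) with hk1 | hk1
    · rcases Nat.lt_or_ge (s + 1 - k) c with hc1 | hc1
      · -- `(t - 2, k - 1, c - 1)`
        obtain ⟨c', rfl⟩ : ∃ c', c = c' + 1 := ⟨c - 1, by omega⟩
        obtain ⟨k', rfl⟩ : ∃ k', k = k' + 1 := ⟨k - 1, by omega⟩
        have h := ih s (by omega) (by omega) k' (by omega) c' (by omega) (by omega)
        rw [Nat.succ_descFactorial_succ, f1, f2]
        have e1 : 4 ^ (s + 2 + 3 + (k' + 1)) = 64 * 4 ^ (s + 3 + k') := by
          rw [show s + 2 + 3 + (k' + 1) = (s + 3 + k') + 3 by omega, pow_add]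
          ring
        rw [e1]
        have h2 : 64 * (k' + 1) ≤ 6 * ((s + 6) * (s + 5)) := by nlinarith
        calc 2200 * (64 * 4 ^ (s + 3 + k')) * ((k' + 1) * k'.descFactorial c')
            = (64 * (k' + 1)) * (2200 * 4 ^ (s + 3 + k') * k'.descFactorial c') := by ring
          _ ≤ (6 * ((s + 6) * (s + 5))) * (3 ^ k' * 2 ^ c' * (k' + 2) * (s + 4).factorial) :=
              Nat.mul_le_mul h2 h
          _ ≤ (6 * ((s + 6) * (s + 5))) * (3 ^ k' * 2 ^ c' * (k' + 1 + 2) * (s + 4).factorial) := by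
              gcongr
              omega
          _ = 3 ^ (k' + 1) * 2 ^ (c' + 1) * (k' + 1 + 2) *
              ((s + 6) * ((s + 5) * (s + 4).factorial)) := by ring
      · -- `(t - 1, k, c)`
        have h := ih (s + 1) (by omega) (by omega) k hk1 c hc hc1
        rw [f1]
        have e1 : 4 ^ (s + 2 + 3 + k) = 4 * 4 ^ (s + 1 + 3 + k) := by
          rw [show s + 2 + 3 + k = (s + 1 + 3 + k) + 1 by omega, pow_succ]
          ring
        rw [e1]
        calc 2200 * (4 * 4 ^ (s + 1 + 3 + k)) * k.descFactorial c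
            = 4 * (2200 * 4 ^ (s + 1 + 3 + k) * k.descFactorial c) := by ring
          _ ≤ (s + 6) * (3 ^ k * 2 ^ c * (k + 2) * (s + 1 + 4).factorial) :=
              Nat.mul_le_mul (by omega) h
          _ = 3 ^ k * 2 ^ c * (k + 2) * ((s + 6) * (s + 1 + 4).factorial) := by ring
    · -- `k = t - 1`: `(t - 1, k - 1, c)`
      obtain rfl : k = s + 1 := by omega
      have h := ih (s + 1) (by omega) (by omega) s (by omega) c (by omega) (by omega)
      rw [f1]
      have e1 : 4 ^ (s + 2 + 3 + (s + 1)) = 16 * 4 ^ (s + 1 + 3 + s) := by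
        rw [show s + 2 + 3 + (s + 1) = (s + 1 + 3 + s) + 2 by omega, pow_add]
        ring
      rw [e1]
      have hd : (s + 1).descFactorial c ≤ 2 * s.descFactorial c := by
        have hc2 : c = 0 ∨ c = 1 := by omega
        rcases hc2 with rfl | rfl
        · simp
        · simp
          omega
      calc 2200 * (16 * 4 ^ (s + 1 + 3 + s)) * (s + 1).descFactorial c
          ≤ 2200 * (16 * 4 ^ (s + 1 + 3 + s)) * (2 * s.descFactorial c) :=
            Nat.mul_le_mul_left _ hd
        _ = 32 * (2200 * 4 ^ (s + 1 + 3 + s) * s.descFactorial c) := by ring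
        _ ≤ (3 * (s + 6)) * (3 ^ s * 2 ^ c * (s + 2) * (s + 1 + 4).factorial) :=
            Nat.mul_le_mul (by omega) h
        _ ≤ (3 * (s + 6)) * (3 ^ s * 2 ^ c * (s + 1 + 2) * (s + 1 + 4).factorial) := by
            gcongr
            omega
        _ = 3 ^ (s + 1) * 2 ^ c * (s + 1 + 2) * ((s + 6) * (s + 1 + 4).factorial) := by ring

theorem EB0 : ∀ t : ℕ, 16 ≤ t → 1000000 * 4 ^ (t + 3) ≤ (t + 4).factorial := by
  intro t ht
  induction t, ht using Nat.le_induction with
  | base => decide +kernel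
  | succ t ht ih =>
    rw [show t + 1 + 4 = (t + 4) + 1 by omega, Nat.factorial_succ,
      show t + 1 + 3 = (t + 3) + 1 by omega, pow_succ]
    calc 1000000 * (4 ^ (t + 3) * 4) = 4 * (1000000 * 4 ^ (t + 3)) := by ring
      _ ≤ (t + 4 + 1) * (t + 4).factorial := Nat.mul_le_mul (by omega) ih

/-- the coefficient of the other beads -/
noncomputable def eC (k : ℕ) : ℝ := if k = 0 then 0.000001 else 0.00194

theorem oth_bd {w : ℕ → ℝ} (hw : WOK w) {t k c n : ℕ} (ht : 16 ≤ t) (hk : k < t) (hc : c ≤ k)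
    (hct : c ≤ t - k) :
    SS w t (2 * t + 4 + n - c) * ((k.descFactorial c : ℝ) / (n.factorial : ℝ)) ≤
      eC k * w k * ((t : ℝ) + 4) * ((2 : ℝ) ^ n / (n.factorial : ℝ)) := by
  have h1 := SS_crude hw (t := t) (l := 2 * t + 4 + n - c) (by omega)
  have h2 : ((2 * t + 4 + n - c).choose t : ℝ) ≤ 4 ^ (t + 2) * 2 ^ n / 2 ^ c := by
    have h3 : (2 * t + 4 + n - c).choose t ≤ 2 ^ (2 * t + 4 + n - c) := by
      have h4 := Nat.sum_range_choose (2 * t + 4 + n - c)
      rw [← h4]
      exact single_le_sum (f := fun i => (2 * t + 4 + n - c).choose i) (fun _ _ => Nat.zero_le _)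
        (mem_range.2 (by omega))
    have h5 : (2 : ℝ) ^ (2 * t + 4 + n - c) * 2 ^ c = 4 ^ (t + 2) * 2 ^ n := by
      rw [← pow_add, show (4 : ℝ) = 2 ^ 2 by norm_num, ← pow_mul, ← pow_add]
      congr 1
      omega
    rw [le_div_iff₀ (by positivity), ← h5]
    refine mul_le_mul_of_nonneg_right ?_ (by positivity)
    exact_mod_cast h3
  have p2 : (0 : ℝ) < ((t + 3).factorial : ℝ) := by exact_mod_cast Nat.factorial_pos _
  have pn : (0 : ℝ) < (n.factorial : ℝ) := by exact_mod_cast Nat.factorial_pos _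
  have f1 : ((t + 4).factorial : ℝ) = ((t : ℝ) + 4) * ((t + 3).factorial : ℝ) := by
    rw [show t + 4 = (t + 3) + 1 by omega, Nat.factorial_succ]
    push_cast
    ring
  have h6 : SS w t (2 * t + 4 + n - c) * ((k.descFactorial c : ℝ) / (n.factorial : ℝ)) ≤
      2.0384 * (4 ^ (t + 2) * (k.descFactorial c : ℝ) / (2 ^ c * ((t + 3).factorial : ℝ))) *
        ((2 : ℝ) ^ n / (n.factorial : ℝ)) := by
    have h7 : SS w t (2 * t + 4 + n - c) ≤
        2.0384 * ((4 ^ (t + 2) * 2 ^ n / 2 ^ c) / ((t + 3).factorial : ℝ)) := by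
      refine h1.trans (mul_le_mul_of_nonneg_left ?_ (by norm_num))
      exact div_le_div_of_nonneg_right h2 p2.le
    refine (mul_le_mul_of_nonneg_right h7 (by positivity)).trans (le_of_eq ?_)
    field_simp
  refine h6.trans (mul_le_mul_of_nonneg_right ?_ (by positivity))
  rcases Nat.eq_zero_or_pos k with rfl | hk0
  · obtain rfl : c = 0 := by omega
    have h7 : (1000000 : ℝ) * 4 ^ (t + 3) ≤ ((t + 4).factorial : ℝ) := by exact_mod_cast EB0 t ht
    rw [f1, show t + 3 = (t + 2) + 1 by omega, pow_succ] at h7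
    have h8 : eC 0 = 0.000001 := by simp [eC]
    rw [h8, hw.h0, Nat.descFactorial_zero, Nat.cast_one, mul_one, pow_zero, one_mul,
      mul_div_assoc', div_le_iff₀ p2]
    have h9 : (t + 2 + 1 : ℕ) = t + 3 := by omega
    rw [h9] at h7
    nlinarith
  · have h7 : (2200 : ℝ) * 4 ^ (t + 3 + k) * (k.descFactorial c : ℝ) ≤
        3 ^ k * 2 ^ c * ((k : ℝ) + 2) * ((t + 4).factorial : ℝ) := by
      exact_mod_cast EB t ht k hk c hc hct
    have h8 : eC k = 0.00194 := by
      simp only [eC]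
      rw [if_neg (by omega)]
    rw [f1, show t + 3 + k = (t + 2) + 1 + k by omega, pow_add, pow_succ] at h7
    rw [h8, hw.h1 k hk0, mul_div_assoc', div_le_iff₀ (by positivity), div_pow]
    have p4 : (0 : ℝ) < (4 : ℝ) ^ k := by positivity
    have e1 : 0.00194 * (3 / 25 * ((k : ℝ) + 2) * (3 ^ k / 4 ^ k)) * ((t : ℝ) + 4) *
        (2 ^ c * ((t + 3).factorial : ℝ)) =
        (0.00194 * (3 / 25) * (3 ^ k * 2 ^ c * ((k : ℝ) + 2) *
          (((t : ℝ) + 4) * ((t + 3).factorial : ℝ)))) / 4 ^ k := by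
      field_simp
    rw [e1, le_div_iff₀ p4]
    have p5 : (0 : ℝ) ≤ (4 : ℝ) ^ (t + 2) * (k.descFactorial c : ℝ) * 4 ^ k := by positivity
    nlinarith

end Pool.JM
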