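import Pool.Agent.Work.MP_46fa68_31.NU3

/-!
# MP_46fa68_co, NU: the top bead
-/

set_option autoImplicit false

open Finset

namespace Pool.JM

/-! ### numerical bounds in `ℕ` -/

theorem PK {t : ℕ} : ∀ k, 1 ≤ k → 2 * k ≤ t →
    (t + 3 + k).factorial * (t - k + 1).factorial ≤
      3 ^ (k - 1) * ((t + 3).factorial * ((t + 4) * t.factorial)) := by
  intro k hk
  induction k, hk using Nat.le_induction with
  | base =>
    intro h
    rw [show t + 3 + 1 = (t + 3) + 1 from rfl, Nat.factorial_succ, show t - 1 + 1 = t by omega]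
    simp only [Nat.sub_self, pow_zero, one_mul]
    refine le_of_eq ?_
    ring
  | succ k hk ih =>
    intro h
    have h1 := ih (by omega)
    obtain ⟨j, hj⟩ : ∃ j, j = t - (k + 1) + 1 := ⟨_, rfl⟩
    have e1 : t - k + 1 = j + 1 := by omega
    rw [e1, Nat.factorial_succ] at h1
    rw [← hj, show t + 3 + (k + 1) = (t + 3 + k) + 1 by omega, Nat.factorial_succ]
    obtain ⟨k', rfl⟩ : ∃ k', k = k' + 1 := ⟨k - 1, by omega⟩
    rw [Nat.add_sub_cancel] at h1 ⊢
    have h2 : (t + 3 + (k' + 1) + 1) ≤ 3 * (j + 1) := by omega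
    calc (t + 3 + (k' + 1) + 1) * (t + 3 + (k' + 1)).factorial * j.factorial
        = (t + 3 + (k' + 1) + 1) * ((t + 3 + (k' + 1)).factorial * j.factorial) := by ring
      _ ≤ (3 * (j + 1)) * ((t + 3 + (k' + 1)).factorial * j.factorial) :=
          Nat.mul_le_mul_right _ h2
      _ = 3 * ((t + 3 + (k' + 1)).factorial * ((j + 1) * j.factorial)) := by ring
      _ ≤ 3 * (3 ^ k' * ((t + 3).factorial * ((t + 4) * t.factorial))) :=
          Nat.mul_le_mul_left _ h1
      _ = 3 ^ (k' + 1) * ((t + 3).factorial * ((t + 4) * t.factorial)) := by ring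

theorem NK1 : ∀ k : ℕ, 5 ≤ k → 162 * 4 ^ k ≤ (k + 4) * (k + 3).factorial := by
  intro k hk
  induction k, hk using Nat.le_induction with
  | base => decide +kernel
  | succ k hk ih =>
    rw [show k + 1 + 3 = (k + 3) + 1 by omega, Nat.factorial_succ, pow_succ]
    calc 162 * (4 ^ k * 4) = 4 * (162 * 4 ^ k) := by ring
      _ ≤ 4 * ((k + 4) * (k + 3).factorial) := Nat.mul_le_mul_left _ ih
      _ = (4 * (k + 4)) * (k + 3).factorial := by ring
      _ ≤ ((k + 1 + 4) * (k + 3 + 1)) * (k + 3).factorial := by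
          refine Nat.mul_le_mul_right _ ?_
          nlinarith
      _ = (k + 1 + 4) * ((k + 3 + 1) * (k + 3).factorial) := by ring

theorem NK2 : ∀ k : ℕ, 9 ≤ k → 146 * 9 ^ k ≤ (k + 2) * (k + 4) * (k + 3).factorial := by
  intro k hk
  induction k, hk using Nat.le_induction with
  | base => decide +kernel
  | succ k hk ih =>
    rw [show k + 1 + 3 = (k + 3) + 1 by omega, Nat.factorial_succ, pow_succ]
    calc 146 * (9 ^ k * 9) = 9 * (146 * 9 ^ k) := by ring
      _ ≤ 9 * ((k + 2) * (k + 4) * (k + 3).factorial) := Nat.mul_le_mul_left _ ih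
      _ = (9 * ((k + 2) * (k + 4))) * (k + 3).factorial := by ring
      _ ≤ ((k + 1 + 2) * (k + 1 + 4) * (k + 3 + 1)) * (k + 3).factorial := by
          refine Nat.mul_le_mul_right _ ?_
          have h : 9 * (k + 2) ≤ (k + 1 + 2) * (k + 1 + 4) := by nlinarith
          calc 9 * ((k + 2) * (k + 4)) = (9 * (k + 2)) * (k + 4) := by ring
            _ ≤ ((k + 1 + 2) * (k + 1 + 4)) * (k + 4) := Nat.mul_le_mul_right _ h
            _ = (k + 1 + 2) * (k + 1 + 4) * (k + 3 + 1) := by ring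
      _ = (k + 1 + 2) * (k + 1 + 4) * ((k + 3 + 1) * (k + 3).factorial) := by ring

theorem NK3 : ∀ k : ℕ, 9 ≤ k → 5 * 4 ^ k * (3 * k + 2).choose k ≤ 2 * 27 ^ k := by
  intro k hk
  induction k, hk using Nat.le_induction with
  | base => decide +kernel
  | succ k hk ih =>
    -- `C(3k+5,k+1) (k+1)(2k+4)(2k+3) = C(3k+2,k) (3k+5)(3k+4)(3k+3)`
    have h1 : (3 * (k + 1) + 2).choose (k + 1) * ((2 * k + 4) * (2 * k + 3)) =
        (3 * k + 2).choose k * (3 * ((3 * k + 5) * (3 * k + 4))) := by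
      have a1 := Nat.choose_mul_factorial_mul_factorial (n := 3 * (k + 1) + 2) (k := k + 1)
        (by omega)
      have a2 := Nat.choose_mul_factorial_mul_factorial (n := 3 * k + 2) (k := k) (by omega)
      rw [show 3 * (k + 1) + 2 - (k + 1) = 2 * k + 2 + 1 + 1 by omega,
        show 3 * (k + 1) + 2 = 3 * k + 2 + 1 + 1 + 1 by omega, Nat.factorial_succ (k),
        Nat.factorial_succ (3 * k + 2 + 1 + 1), Nat.factorial_succ (3 * k + 2 + 1),
        Nat.factorial_succ (3 * k + 2), Nat.factorial_succ (2 * k + 2 + 1),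
        Nat.factorial_succ (2 * k + 2), ← a2, show 3 * k + 2 - k = 2 * k + 2 by omega] at a1
      have p1 : 0 < k.factorial * (2 * k + 2).factorial * (k + 1) :=
        Nat.mul_pos (Nat.mul_pos (Nat.factorial_pos _) (Nat.factorial_pos _)) (Nat.succ_pos _)
      rw [show 3 * (k + 1) + 2 = 3 * k + 2 + 1 + 1 + 1 by omega]
      refine Nat.eq_of_mul_eq_mul_right p1 ?_
      calc (3 * k + 2 + 1 + 1 + 1).choose (k + 1) * ((2 * k + 4) * (2 * k + 3)) *
            (k.factorial * (2 * k + 2).factorial * (k + 1))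
          = (3 * k + 2 + 1 + 1 + 1).choose (k + 1) * ((k + 1) * k.factorial) *
            ((2 * k + 2 + 1 + 1) * ((2 * k + 2 + 1) * (2 * k + 2).factorial)) := by ring
        _ = _ := a1
        _ = (3 * k + 2).choose k * (3 * ((3 * k + 5) * (3 * k + 4))) *
            (k.factorial * (2 * k + 2).factorial * (k + 1)) := by ring
    have p2 : 0 < (2 * k + 4) * (2 * k + 3) := by positivity
    refine Nat.le_of_mul_le_mul_right ?_ p2
    calc 5 * 4 ^ (k + 1) * (3 * (k + 1) + 2).choose (k + 1) * ((2 * k + 4) * (2 * k + 3))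
        = 5 * 4 ^ (k + 1) * ((3 * (k + 1) + 2).choose (k + 1) * ((2 * k + 4) * (2 * k + 3))) := by
          ring
      _ = 5 * 4 ^ (k + 1) * ((3 * k + 2).choose k * (3 * ((3 * k + 5) * (3 * k + 4)))) := by rw [h1]
      _ = (5 * 4 ^ k * (3 * k + 2).choose k) * (12 * ((3 * k + 5) * (3 * k + 4))) := by ring
      _ ≤ (2 * 27 ^ k) * (12 * ((3 * k + 5) * (3 * k + 4))) := Nat.mul_le_mul_right _ ih
      _ ≤ (2 * 27 ^ k) * (27 * ((2 * k + 4) * (2 * k + 3))) := by
          refine Nat.mul_le_mul_left _ ?_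
          nlinarith
      _ = 2 * 27 ^ (k + 1) * ((2 * k + 4) * (2 * k + 3)) := by ring

/-! ### the top bead -/

/-- the ratio `ex (C.erase z) / ex C` -/
noncomputable def HH (t k : ℕ) : ℝ :=
  if 2 * k ≤ t then ((t - k + 1).factorial : ℝ) / ((t : ℝ) - 2 * k + 1)
  else (t.factorial : ℝ) / (k.factorial : ℝ)

/-- the coefficient of the top bead -/
noncomputable def tC (k : ℕ) : ℝ := if k = 0 then 0.0819 else 0.07

theorem HH_nonneg (t k : ℕ) : 0 ≤ HH t k := by
  unfold HH
  split_ifs with h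
  · have : (2 : ℝ) * k ≤ t := by exact_mod_cast h
    exact div_nonneg (by positivity) (by linarith)
  · positivity

/-- the sum in `SS_top` -/
theorem sumq_le {w : ℕ → ℝ} (hw : WOK w) (t k : ℕ) :
    ∑ q ∈ range t, w q / (q.factorial : ℝ) * (1 + ((t : ℝ) + 4 + k) / ((k : ℝ) + 4 + q)) ≤
      1.0192 * (((t : ℝ) + 2 * k + 8) / ((k : ℝ) + 4)) := by
  have h1 : ∀ q ∈ range t, w q / (q.factorial : ℝ) *
      (1 + ((t : ℝ) + 4 + k) / ((k : ℝ) + 4 + q)) ≤
      w q / (q.factorial : ℝ) * (((t : ℝ) + 2 * k + 8) / ((k : ℝ) + 4)) := by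
    intro q _
    refine mul_le_mul_of_nonneg_left ?_ (div_nonneg (hw.pos q).le (by positivity))
    have h2 : ((t : ℝ) + 4 + k) / ((k : ℝ) + 4 + q) ≤ ((t : ℝ) + 4 + k) / ((k : ℝ) + 4) := by
      refine div_le_div_of_nonneg_left (by positivity) (by positivity) ?_
      have : (0 : ℝ) ≤ q := Nat.cast_nonneg q
      linarith
    have h3 : ((t : ℝ) + 2 * k + 8) / ((k : ℝ) + 4) = 1 + ((t : ℝ) + 4 + k) / ((k : ℝ) + 4) := by
      field_simp
      ring
    rw [h3]
    linarith
  refine (sum_le_sum h1).trans ?_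
  rw [← sum_mul]
  exact mul_le_mul_of_nonneg_right (hw.sum_le t) (by positivity)

/-- the numerical inequality, near case -/
theorem near_num {w : ℕ → ℝ} (hw : WOK w) {t k : ℕ} (ht : 16 ≤ t) (hk : 1 ≤ k) (hkt : 2 * k ≤ t) :
    3 ^ (k - 1) * 1.0192 * (((t : ℝ) + 2 * k + 8) / ((t : ℝ) - 2 * k + 1)) ≤
      0.07 * w k * (((k + 3).factorial : ℝ) * ((k : ℝ) + 4)) := by
  have ht' : (16 : ℝ) ≤ t := by exact_mod_cast ht
  have hkt' : (2 : ℝ) * k ≤ t := by exact_mod_cast hkt
  have hd : (0 : ℝ) < (t : ℝ) - 2 * k + 1 := by linarith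
  rcases Nat.lt_or_ge k 5 with h5 | h5
  · have hR : ((t : ℝ) + 2 * k + 8) / ((t : ℝ) - 2 * k + 1) ≤ if k = 1 then 26 / 15 else 32 / 9 := by
      split_ifs with h1
      · subst h1
        rw [div_le_div_iff₀ hd (by norm_num)]
        push_cast
        linarith
      · rw [div_le_div_iff₀ hd (by norm_num)]
        have : (k : ℝ) ≤ 4 := by exact_mod_cast (by omega : k ≤ 4)
        linarith
    refine (mul_le_mul_of_nonneg_left hR (by positivity)).trans ?_
    rw [hw.h1 k hk]
    interval_cases k <;> norm_num [Nat.factorial]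
  · have hR : ((t : ℝ) + 2 * k + 8) / ((t : ℝ) - 2 * k + 1) ≤ 4 * ((k : ℝ) + 2) := by
      rw [div_le_iff₀ hd]
      have : (0 : ℝ) ≤ k := Nat.cast_nonneg k
      nlinarith
    refine (mul_le_mul_of_nonneg_left hR (by positivity)).trans ?_
    rw [hw.h1 k hk]
    have h6 : (162 : ℝ) * 4 ^ k ≤ ((k : ℝ) + 4) * ((k + 3).factorial : ℝ) := by
      exact_mod_cast NK1 k h5
    obtain ⟨j, rfl⟩ : ∃ j, k = j + 1 := ⟨k - 1, by omega⟩
    rw [Nat.add_sub_cancel, div_pow, pow_succ (3 : ℝ) j]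
    set K : ℝ := ((j + 1 : ℕ) : ℝ) with hK
    have hK0 : 0 ≤ K := Nat.cast_nonneg _
    set F : ℝ := ((j + 1 + 3).factorial : ℝ) with hF
    have p3 : (0 : ℝ) < 3 ^ j := by positivity
    have p4 : (0 : ℝ) < 4 ^ (j + 1) := by positivity
    have e1 : 0.07 * (3 / 25 * (K + 2) * (3 ^ j * 3 / 4 ^ (j + 1))) * (F * (K + 4)) =
        (0.0252 * (3 ^ j * (K + 2)) * ((K + 4) * F)) / 4 ^ (j + 1) := by
      ring
    rw [e1, le_div_iff₀ p4]
    have h7 : 0.0252 * (3 ^ j * (K + 2)) * (162 * 4 ^ (j + 1)) ≤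
        0.0252 * (3 ^ j * (K + 2)) * ((K + 4) * F) :=
      mul_le_mul_of_nonneg_left h6 (by positivity)
    have h8 : 0 ≤ 3 ^ j * (K + 2) * 4 ^ (j + 1) := by positivity
    nlinarith

theorem top_bd {w : ℕ → ℝ} (hw : WOK w) {t k : ℕ} (ht : 16 ≤ t) (hk : k < t) :
    SS w t (t + 4 + k) * HH t k ≤ tC k * w k * ((t : ℝ) + 4) := by
  have ht' : (16 : ℝ) ≤ t := by exact_mod_cast ht
  have h1 := SS_top hw t k
  have p0 : (0 : ℝ) < (t.factorial : ℝ) := by exact_mod_cast Nat.factorial_pos _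
  have p1 : (0 : ℝ) < (k.factorial : ℝ) := by exact_mod_cast k.factorial_pos
  have p2 : (0 : ℝ) < ((t + 3).factorial : ℝ) := by exact_mod_cast Nat.factorial_pos _
  have p5 : (0 : ℝ) < ((k + 3).factorial : ℝ) := by exact_mod_cast Nat.factorial_pos _
  have p7 : (0 : ℝ) < ((t + 3 + k).factorial : ℝ) := by exact_mod_cast Nat.factorial_pos _
  refine (mul_le_mul_of_nonneg_right h1 (HH_nonneg t k)).trans ?_
  rcases Nat.eq_zero_or_pos k with rfl | hk0
  · -- `k = 0`
    have h2 := hw.sum0_le ht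
    have e1 : HH t 0 = (t.factorial : ℝ) := by
      unfold HH
      rw [if_pos (by omega), Nat.sub_zero, Nat.factorial_succ]
      push_cast
      field_simp
      ring
    have e2 : tC 0 = 0.0819 := by simp [tC]
    have e3 : ∑ q ∈ range t, w q / (q.factorial : ℝ) *
        (1 + ((t : ℝ) + 4 + (0 : ℕ)) / (((0 : ℕ) : ℝ) + 4 + q)) =
        ((t : ℝ) + 4) * ∑ q ∈ range t, w q / (q.factorial : ℝ) *
        (1 / ((t : ℝ) + 4) + 1 / (4 + (q : ℝ))) := by
      rw [mul_sum]
      refine sum_congr rfl fun q _ => ?_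
      push_cast
      have : (4 + (q : ℝ)) ≠ 0 := by positivity
      rw [show (0 : ℝ) + 4 + q = 4 + q by ring]
      field_simp
      ring
    rw [e1, e2, e3, zero_add, add_zero]
    have e4 : ((3 : ℕ).factorial : ℝ) = 6 := by norm_num [Nat.factorial]
    rw [e4]
    have e5 : ((t + 3).factorial : ℝ) / (6 * (t.factorial : ℝ) * ((t + 3).factorial : ℝ)) *
        (((t : ℝ) + 4) * ∑ q ∈ range t, w q / (q.factorial : ℝ) *
        (1 / ((t : ℝ) + 4) + 1 / (4 + (q : ℝ)))) * (t.factorial : ℝ) =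
        ((t : ℝ) + 4) * (∑ q ∈ range t, w q / (q.factorial : ℝ) *
        (1 / ((t : ℝ) + 4) + 1 / (4 + (q : ℝ)))) / 6 := by
      field_simp
    rw [e5]
    have : (0 : ℝ) < (t : ℝ) + 4 := by positivity
    nlinarith
  have e2 : tC k = 0.07 := by
    unfold tC
    rw [if_neg (by omega)]
  have hs := sumq_le hw t k
  rw [e2]
  by_cases hkt : 2 * k ≤ t
  · -- near
    have hkt' : (2 : ℝ) * k ≤ t := by exact_mod_cast hkt
    have hd : (0 : ℝ) < (t : ℝ) - 2 * k + 1 := by linarith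
    have e1 : HH t k = ((t - k + 1).factorial : ℝ) / ((t : ℝ) - 2 * k + 1) := by
      unfold HH
      rw [if_pos hkt]
    have h3 : ((t + 3 + k).factorial : ℝ) * ((t - k + 1).factorial : ℝ) ≤
        3 ^ (k - 1) * (((t + 3).factorial : ℝ) * (((t : ℝ) + 4) * (t.factorial : ℝ))) := by
      exact_mod_cast PK k hk0 hkt
    have h4 := near_num hw ht hk0 hkt
    rw [e1]
    calc ((t + 3 + k).factorial : ℝ) / (((k + 3).factorial : ℝ) * (t.factorial : ℝ) *
          ((t + 3).factorial : ℝ)) * (∑ q ∈ range t, w q / (q.factorial : ℝ) *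
          (1 + ((t : ℝ) + 4 + k) / ((k : ℝ) + 4 + q))) *
          (((t - k + 1).factorial : ℝ) / ((t : ℝ) - 2 * k + 1))
        ≤ ((t + 3 + k).factorial : ℝ) / (((k + 3).factorial : ℝ) * (t.factorial : ℝ) *
          ((t + 3).factorial : ℝ)) * (1.0192 * (((t : ℝ) + 2 * k + 8) / ((k : ℝ) + 4))) *
          (((t - k + 1).factorial : ℝ) / ((t : ℝ) - 2 * k + 1)) := by
          refine mul_le_mul_of_nonneg_right (mul_le_mul_of_nonneg_left hs (by positivity)) ?_
          exact div_nonneg (by positivity) hd.le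
      _ = (((t + 3 + k).factorial : ℝ) * ((t - k + 1).factorial : ℝ)) *
          (1.0192 * (((t : ℝ) + 2 * k + 8) / ((t : ℝ) - 2 * k + 1)) /
          (((k + 3).factorial : ℝ) * ((k : ℝ) + 4) * (t.factorial : ℝ) *
            ((t + 3).factorial : ℝ))) := by
          field_simp
      _ ≤ (3 ^ (k - 1) * (((t + 3).factorial : ℝ) * (((t : ℝ) + 4) * (t.factorial : ℝ)))) *
          (1.0192 * (((t : ℝ) + 2 * k + 8) / ((t : ℝ) - 2 * k + 1)) /
          (((k + 3).factorial : ℝ) * ((k : ℝ) + 4) * (t.factorial : ℝ) *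
            ((t + 3).factorial : ℝ))) := by
          refine mul_le_mul_of_nonneg_right h3 ?_
          refine div_nonneg (mul_nonneg (by norm_num) (div_nonneg (by positivity) hd.le))
            (by positivity)
      _ = (3 ^ (k - 1) * 1.0192 * (((t : ℝ) + 2 * k + 8) / ((t : ℝ) - 2 * k + 1))) *
          (((t : ℝ) + 4) / (((k + 3).factorial : ℝ) * ((k : ℝ) + 4))) := by
          field_simp
      _ ≤ (0.07 * w k * (((k + 3).factorial : ℝ) * ((k : ℝ) + 4))) *
          (((t : ℝ) + 4) / (((k + 3).factorial : ℝ) * ((k : ℝ) + 4))) :=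
          mul_le_mul_of_nonneg_right h4 (by positivity)
      _ = 0.07 * w k * ((t : ℝ) + 4) := by
          field_simp
  · -- far
    have hk9 : 9 ≤ k := by omega
    have e1 : HH t k = (t.factorial : ℝ) / (k.factorial : ℝ) := by
      unfold HH
      rw [if_neg hkt]
    have h3 : ((t + 3 + k).factorial : ℝ) =
        ((t + 3 + k).choose k : ℝ) * (k.factorial : ℝ) * ((t + 3).factorial : ℝ) := by
      have := Nat.choose_mul_factorial_mul_factorial (n := t + 3 + k) (k := k) (by omega)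
      rw [Nat.add_sub_cancel] at this
      exact_mod_cast this.symm
    have h4 : (5 : ℝ) * 4 ^ k * ((t + 3 + k).choose k : ℝ) ≤ 2 * 27 ^ k := by
      have h5 : (t + 3 + k).choose k ≤ (3 * k + 2).choose k := Nat.choose_le_choose _ (by omega)
      have h6 := (Nat.mul_le_mul_left (5 * 4 ^ k) h5).trans (NK3 k hk9)
      exact_mod_cast h6
    have h5 : (146 : ℝ) * 9 ^ k ≤ ((k : ℝ) + 2) * ((k : ℝ) + 4) * ((k + 3).factorial : ℝ) := by
      exact_mod_cast NK2 k hk9
    have hkt2 : (k : ℝ) ≤ t := by exact_mod_cast hk.le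
    have h27 : (27 : ℝ) ^ k = 9 ^ k * 3 ^ k := by
      rw [← mul_pow]
      norm_num
    rw [e1, h3]
    calc ((t + 3 + k).choose k : ℝ) * (k.factorial : ℝ) * ((t + 3).factorial : ℝ) /
          (((k + 3).factorial : ℝ) * (t.factorial : ℝ) *
          ((t + 3).factorial : ℝ)) * (∑ q ∈ range t, w q / (q.factorial : ℝ) *
          (1 + ((t : ℝ) + 4 + k) / ((k : ℝ) + 4 + q))) * ((t.factorial : ℝ) / (k.factorial : ℝ))
        = ((t + 3 + k).choose k : ℝ) / ((k + 3).factorial : ℝ) *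
          (∑ q ∈ range t, w q / (q.factorial : ℝ) *
          (1 + ((t : ℝ) + 4 + k) / ((k : ℝ) + 4 + q))) := by
          field_simp
      _ ≤ ((t + 3 + k).choose k : ℝ) / ((k + 3).factorial : ℝ) *
          (1.0192 * (((t : ℝ) + 2 * k + 8) / ((k : ℝ) + 4))) :=
          mul_le_mul_of_nonneg_left hs (by positivity)
      _ ≤ ((t + 3 + k).choose k : ℝ) / ((k + 3).factorial : ℝ) *
          (1.0192 * ((3 * ((t : ℝ) + 4)) / ((k : ℝ) + 4))) := by
          refine mul_le_mul_of_nonneg_left (mul_le_mul_of_nonneg_left ?_ (by norm_num))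
            (by positivity)
          exact div_le_div_of_nonneg_right (by linarith) (by positivity)
      _ = (5 * 4 ^ k * ((t + 3 + k).choose k : ℝ)) *
          (3.0576 * ((t : ℝ) + 4) / (5 * 4 ^ k * ((k + 3).factorial : ℝ) * ((k : ℝ) + 4))) := by
          field_simp
          ring
      _ ≤ (2 * 27 ^ k) *
          (3.0576 * ((t : ℝ) + 4) / (5 * 4 ^ k * ((k + 3).factorial : ℝ) * ((k : ℝ) + 4))) :=
          mul_le_mul_of_nonneg_right h4 (by positivity)
      _ = (146 * 9 ^ k) * ((6.1152 / 730) * 3 ^ k * ((t : ℝ) + 4) /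
          (4 ^ k * ((k + 3).factorial : ℝ) * ((k : ℝ) + 4))) := by
          rw [h27]
          field_simp
          norm_num
      _ ≤ (((k : ℝ) + 2) * ((k : ℝ) + 4) * ((k + 3).factorial : ℝ)) *
          ((6.1152 / 730) * 3 ^ k * ((t : ℝ) + 4) /
          (4 ^ k * ((k + 3).factorial : ℝ) * ((k : ℝ) + 4))) :=
          mul_le_mul_of_nonneg_right h5 (by positivity)
      _ = (6.1152 / 730) * (((k : ℝ) + 2) * (3 ^ k / 4 ^ k)) * ((t : ℝ) + 4) := by
          field_simp
      _ ≤ 0.0084 * (((k : ℝ) + 2) * (3 ^ k / 4 ^ k)) * ((t : ℝ) + 4) := by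
          refine mul_le_mul_of_nonneg_right (mul_le_mul_of_nonneg_right (by norm_num)
            (by positivity)) (by positivity)
      _ = 0.07 * w k * ((t : ℝ) + 4) := by
          rw [hw.h1 k hk0, div_pow]
          ring

end Pool.JM
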