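import Pool.Agent.Work.MP_46fa68_31.NU4
import Pool.Agent.Work.MP_46fa68_T.LiftY
import Pool.Agent.Work.MP_46fa68_20.AsmDefs

/-!
# MP_46fa68_co, NU: the contraction
-/

set_option autoImplicit false

open Finset

namespace Pool.JM

theorem SS_nonneg {w : ℕ → ℝ} (hw : WOK w) (t l : ℕ) : 0 ≤ SS w t l :=
  sum_nonneg fun q _ => mul_nonneg (by positivity) (div_nonneg (hw.pos q).le (by positivity))

theorem exp2 : Real.exp 2 ≤ 7.3891 := by
  have h1 : Real.exp 2 = Real.exp 1 ^ 2 := by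
    rw [← Real.exp_nat_mul]
    norm_num
  have h2 := Real.exp_one_lt_d9
  have h3 : Real.exp 1 ^ 2 ≤ 2.7182818286 ^ 2 := by
    gcongr
  rw [h1]
  refine h3.trans ?_
  norm_num

/-- the number of beads above -/
def nab (C : Finset ℕ) (x : ℕ) : ℕ := (C.filter (x < ·)).card

theorem nab_lt {C : Finset ℕ} {x y : ℕ} (hy : y ∈ C) (h : x < y) : nab C y < nab C x := by
  unfold nab
  refine card_lt_card ⟨fun u hu => ?_, fun hs => ?_⟩
  · rw [mem_filter] at hu ⊢
    exact ⟨hu.1, by omega⟩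
  · have h1 : y ∈ C.filter (y < ·) := hs (mem_filter.2 ⟨hy, h⟩)
    exact lt_irrefl y (mem_filter.1 h1).2

theorem sum_nab {C : Finset ℕ} {z : ℕ} (hz : z ∈ C) (hz' : ∀ y ∈ C, y ≤ z) :
    ∑ x ∈ C.erase z, (2 : ℝ) ^ (nab C x) / ((nab C x).factorial : ℝ) ≤ 6.3891 := by
  have hinj : Set.InjOn (nab C) (C.erase z : Finset ℕ) := by
    intro x hx y hy h
    have hx' := (mem_erase.1 (mem_coe.1 hx)).2
    have hy' := (mem_erase.1 (mem_coe.1 hy)).2
    rcases lt_trichotomy x y with h1 | h1 | h1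
    · have := nab_lt hy' h1
      omega
    · exact h1
    · have := nab_lt hx' h1
      omega
  rw [← sum_image (g := nab C) (f := fun n => (2 : ℝ) ^ n / (n.factorial : ℝ)) hinj]
  have hsub : (C.erase z).image (nab C) ⊆ Ico 1 (C.card + 1) := by
    intro n hn
    obtain ⟨x, hx, rfl⟩ := mem_image.1 hn
    obtain ⟨h1, h2⟩ := mem_erase.1 hx
    rw [mem_Ico]
    constructor
    · unfold nab
      refine card_pos.2 ⟨z, mem_filter.2 ⟨hz, ?_⟩⟩
      exact lt_of_le_of_ne (hz' x h2) h1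
    · unfold nab
      have := card_le_card (filter_subset (x < ·) C)
      omega
  refine (sum_le_sum_of_subset_of_nonneg hsub fun n _ _ => by positivity).trans ?_
  have h1 := Real.sum_le_exp_of_nonneg (x := 2) (by norm_num) (C.card + 1)
  rw [range_eq_Ico, sum_eq_sum_Ico_succ_bot (Nat.succ_pos _)] at h1
  have h2 := exp2
  simp only [pow_zero, Nat.factorial_zero, Nat.cast_one, div_one, zero_add] at h1
  linarith

/-- the ratio of the top bead -/
theorem top_ratio {M t i : ℕ} (hi : i ≤ t) {C : Finset ℕ} (hC : C ∈ Lv (M + 1) i)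
    {z : ℕ} (hz : z ∈ C) (hz' : ∀ y ∈ C, y ≤ z) (hzM : M ≤ z) :
    ex (C.erase z) ≤ HH t (t - (z - M)) * ex C := by
  obtain ⟨a, rfl⟩ : ∃ a, z = M + a := ⟨z - M, by omega⟩
  have hzi := (Lv_spec hC).2.2.1 _ hz
  have ha : a ≤ i := by omega
  have hE := erase_mem hC hz
  rw [show i + M - (M + a) = i - a by omega] at hE
  have hlt : ∀ y ∈ C.erase (M + a), y < M + a := fun y hy =>
    lt_of_le_of_ne (hz' y (mem_erase.1 hy).2) (mem_erase.1 hy).1
  have hins : insert (M + a) (C.erase (M + a)) = C := insert_erase hz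
  rw [Nat.add_sub_cancel_left]
  obtain ⟨k, hk⟩ : ∃ k, k = t - a := ⟨_, rfl⟩
  rw [← hk]
  have hak : a = t - k := by omega
  have hex := (ex_pos (C.erase (M + a))).le
  unfold HH
  split_ifs with hkt
  · have h1 := ins_ge hE hlt
    rw [hins] at h1
    have hkt' : (2 : ℝ) * k ≤ t := by exact_mod_cast hkt
    have hd : (0 : ℝ) < (t : ℝ) - 2 * k + 1 := by linarith
    have hia : ((i - a : ℕ) : ℝ) ≤ k := by exact_mod_cast (by omega : i - a ≤ k)
    have haR : (a : ℝ) = (t : ℝ) - k := by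
      rw [hak, Nat.cast_sub (by omega)]
    have fa : (0 : ℝ) < (a.factorial : ℝ) := by exact_mod_cast Nat.factorial_pos _
    have h2 : ex (C.erase (M + a)) / (a.factorial : ℝ) * (((t : ℝ) - 2 * k + 1) / ((a : ℝ) + 1)) ≤
        ex C := by
      refine le_trans (mul_le_mul_of_nonneg_left ?_ (by positivity)) h1
      have ha1 : (0 : ℝ) < (a : ℝ) + 1 := by positivity
      rw [show (1 : ℝ) - ((i - a : ℕ) : ℝ) / ((a : ℝ) + 1) =
        ((a : ℝ) + 1 - ((i - a : ℕ) : ℝ)) / ((a : ℝ) + 1) by field_simp]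
      refine div_le_div_of_nonneg_right ?_ ha1.le
      linarith
    have h3 : ((t - k + 1).factorial : ℝ) = ((a : ℝ) + 1) * (a.factorial : ℝ) := by
      rw [← hak, Nat.factorial_succ]
      push_cast
      ring
    rw [h3]
    have h4 : ex (C.erase (M + a)) = (((a : ℝ) + 1) * (a.factorial : ℝ) / ((t : ℝ) - 2 * k + 1)) *
        (ex (C.erase (M + a)) / (a.factorial : ℝ) * (((t : ℝ) - 2 * k + 1) / ((a : ℝ) + 1))) := by
      field_simp
    rw [h4]
    exact mul_le_mul_of_nonneg_left h2 (div_nonneg (by positivity) hd.le)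
  · have h1 := ins_ge' _ _ hE hlt
    rw [hins, show i - a + a = i by omega] at h1
    have fi : (0 : ℝ) < (i.factorial : ℝ) := by exact_mod_cast Nat.factorial_pos _
    have fia : (0 : ℝ) < ((i - a).factorial : ℝ) := by exact_mod_cast Nat.factorial_pos _
    have fk : (0 : ℝ) < (k.factorial : ℝ) := by exact_mod_cast Nat.factorial_pos _
    have ft : (0 : ℝ) < (t.factorial : ℝ) := by exact_mod_cast Nat.factorial_pos _
    have h2 : i.factorial * k.factorial ≤ t.factorial * (i - a).factorial := by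
      have e1 := Nat.factorial_mul_descFactorial ha
      have e2 := Nat.factorial_mul_descFactorial (n := t) (k := a) (by omega)
      rw [← hk] at e2
      rw [← e1, ← e2]
      have e3 : i.descFactorial a ≤ t.descFactorial a := Nat.descFactorial_le a hi
      calc (i - a).factorial * i.descFactorial a * k.factorial
          = (k.factorial * (i - a).factorial) * i.descFactorial a := by ring
        _ ≤ (k.factorial * (i - a).factorial) * t.descFactorial a := Nat.mul_le_mul_left _ e3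
        _ = k.factorial * t.descFactorial a * (i - a).factorial := by ring
    have h3 : (i.factorial : ℝ) * (k.factorial : ℝ) ≤ (t.factorial : ℝ) * ((i - a).factorial : ℝ) := by
      exact_mod_cast h2
    have h4 : (k.factorial : ℝ) / (t.factorial : ℝ) ≤ ((i - a).factorial : ℝ) / (i.factorial : ℝ) := by
      rw [div_le_div_iff₀ ft fi]
      linarith
    have h5 := (mul_le_mul_of_nonneg_left h4 hex).trans h1
    have h6 : ex (C.erase (M + a)) = ((t.factorial : ℝ) / (k.factorial : ℝ)) *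
        (ex (C.erase (M + a)) * ((k.factorial : ℝ) / (t.factorial : ℝ))) := by
      field_simp
    rw [h6]
    exact mul_le_mul_of_nonneg_left h5 (by positivity)

/-- **the sum over the beads** -/
theorem NU_sum {w : ℕ → ℝ} (hw : WOK w) {M t i : ℕ} (ht : 16 ≤ t) (hi1 : 1 ≤ i) (hi : i ≤ t)
    {C : Finset ℕ} (hC : C ∈ Lv (M + 1) i) :
    ∑ x ∈ C, SS w t (t + 3 + t + (M + 1) - x) * ex (C.erase x) ≤
      1 / 12 * w (t - (tb C + 1 - (M + 1))) * ((t : ℝ) + 4) * ex C := by
  obtain ⟨hcard, -, hlt, hsum⟩ := Lv_spec hC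
  obtain ⟨z, hzt⟩ : ∃ z, z = tb C := ⟨_, rfl⟩
  obtain ⟨hz, hz'⟩ := tb_mem' (B := C) (by omega)
  rw [← hzt] at hz hz' ⊢
  have hzM : M + 1 ≤ z := by
    by_contra hcon
    rw [not_le] at hcon
    have h1 : C ⊆ range (M + 1) := fun y hy => mem_range.2 (by have := hz' y hy; omega)
    have h2 : C = range (M + 1) := eq_of_subset_of_card_le h1 (by rw [card_range]; omega)
    rw [h2] at hsum
    omega
  have hzi := hlt z hz
  rw [show z + 1 - (M + 1) = z - M by omega]
  obtain ⟨a, ha⟩ : ∃ a, a = z - M := ⟨_, rfl⟩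
  obtain ⟨k, hk⟩ : ∃ k, k = t - a := ⟨_, rfl⟩
  rw [← ha, ← hk]
  have hkt : k < t := by omega
  have hexC := ex_pos C
  rw [← add_sum_erase C _ hz]
  -- the top bead
  have htop : SS w t (t + 3 + t + (M + 1) - z) * ex (C.erase z) ≤
      tC k * w k * ((t : ℝ) + 4) * ex C := by
    have h1 := top_ratio hi hC hz hz' (by omega)
    rw [← ha, ← hk] at h1
    rw [show t + 3 + t + (M + 1) - z = t + 4 + k by omega]
    have h2 := top_bd hw ht hkt
    calc SS w t (t + 4 + k) * ex (C.erase z) ≤ SS w t (t + 4 + k) * (HH t k * ex C) :=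
          mul_le_mul_of_nonneg_left h1 (SS_nonneg hw _ _)
      _ = (SS w t (t + 4 + k) * HH t k) * ex C := by ring
      _ ≤ (tC k * w k * ((t : ℝ) + 4)) * ex C := mul_le_mul_of_nonneg_right h2 hexC.le
  -- the other beads
  have hoth : ∀ x ∈ C.erase z, SS w t (t + 3 + t + (M + 1) - x) * ex (C.erase x) ≤
      eC k * w k * ((t : ℝ) + 4) * ex C * ((2 : ℝ) ^ (nab C x) / ((nab C x).factorial : ℝ)) := by
    intro x hx
    obtain ⟨hxz, hxC⟩ := mem_erase.1 hx
    obtain ⟨h1, h2, h3⟩ := erase_le hC hxC hz (lt_of_le_of_ne (hz' x hxC) hxz) hz'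
    obtain ⟨c, hc⟩ : ∃ c, c = x + 1 - (C.filter (· ≤ x)).card := ⟨_, rfl⟩
    have hn : (C.filter (x < ·)).card = nab C x := rfl
    rw [hn] at h3
    rw [← hc] at h1 h2 h3
    obtain ⟨n, hn'⟩ : ∃ n, n = nab C x := ⟨_, rfl⟩
    rw [← hn'] at h3 ⊢
    have hFn : (C.filter (· ≤ x)).card + n = M + 1 := by
      have e1 : (C.filter (· ≤ x)).card + (C.filter fun y => ¬ y ≤ x).card = C.card :=
        card_filter_add_card_filter_not _
      have e2 : (C.filter fun y => ¬ y ≤ x) = C.filter (x < ·) := filter_congr fun y _ => not_le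
      rw [e2, hn, ← hn', hcard] at e1
      exact e1
    have hFx : (C.filter (· ≤ x)).card ≤ x + 1 := by
      have : C.filter (· ≤ x) ⊆ range (x + 1) := fun y hy =>
        mem_range.2 (by have := (mem_filter.1 hy).2; omega)
      have := card_le_card this
      rwa [card_range] at this
    have hck : c ≤ k := by omega
    have hct : c ≤ t - k := by omega
    have hl : t + 3 + t + (M + 1) - x = 2 * t + 4 + n - c := by omega
    rw [hl]
    have h4 := oth_bd hw (n := n) ht hkt hck hct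
    have hdf : (((M + 1 - 1 + i - z).descFactorial c : ℕ) : ℝ) ≤ ((k.descFactorial c : ℕ) : ℝ) := by
      exact_mod_cast Nat.descFactorial_le c (by omega : M + 1 - 1 + i - z ≤ k)
    have h5 : ex (C.erase x) ≤ ((k.descFactorial c : ℝ) / (n.factorial : ℝ)) * ex C := by
      refine h3.trans ?_
      rw [div_mul_eq_mul_div, mul_comm ((k.descFactorial c : ℝ))]
      exact div_le_div_of_nonneg_right (mul_le_mul_of_nonneg_left hdf hexC.le) (by positivity)
    calc SS w t (2 * t + 4 + n - c) * ex (C.erase x)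
        ≤ SS w t (2 * t + 4 + n - c) * (((k.descFactorial c : ℝ) / (n.factorial : ℝ)) * ex C) :=
          mul_le_mul_of_nonneg_left h5 (SS_nonneg hw _ _)
      _ = (SS w t (2 * t + 4 + n - c) * ((k.descFactorial c : ℝ) / (n.factorial : ℝ))) * ex C := by
          ring
      _ ≤ (eC k * w k * ((t : ℝ) + 4) * ((2 : ℝ) ^ n / (n.factorial : ℝ))) * ex C :=
          mul_le_mul_of_nonneg_right h4 hexC.le
      _ = eC k * w k * ((t : ℝ) + 4) * ex C * ((2 : ℝ) ^ n / (n.factorial : ℝ)) := by ring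
  have hrest : ∑ x ∈ C.erase z, SS w t (t + 3 + t + (M + 1) - x) * ex (C.erase x) ≤
      eC k * w k * ((t : ℝ) + 4) * ex C * 6.3891 := by
    refine (sum_le_sum hoth).trans ?_
    rw [← mul_sum]
    refine mul_le_mul_of_nonneg_left (sum_nab hz hz') ?_
    have : 0 ≤ eC k := by
      unfold eC
      split_ifs <;> norm_num
    have := (hw.pos k).le
    positivity
  refine (add_le_add htop hrest).trans ?_
  have hfac : tC k + eC k * 6.3891 ≤ 1 / 12 := by
    unfold tC eC
    split_ifs <;> norm_num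
  have h6 : 0 ≤ w k * ((t : ℝ) + 4) * ex C := by
    have := (hw.pos k).le
    positivity
  have h7 := mul_le_mul_of_nonneg_right hfac h6
  calc tC k * w k * ((t : ℝ) + 4) * ex C + eC k * w k * ((t : ℝ) + 4) * ex C * 6.3891
      = (tC k + eC k * 6.3891) * (w k * ((t : ℝ) + 4) * ex C) := by ring
    _ ≤ 1 / 12 * (w k * ((t : ℝ) + 4) * ex C) := h7
    _ = 1 / 12 * w k * ((t : ℝ) + 4) * ex C := by ring

/-- **NU**, for all `m = t + 3 ≥ 19`, with `ν = 1/12` -/
theorem NU_main {t : ℕ} (ht : 16 ≤ t) {w : ℕ → ℝ} (hw : WOK w) {W : ℕ → ℕ → Finset ℕ → ℝ}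
    (hW : ∃ M₀ : ℕ, ∀ M, M₀ ≤ M → (∀ i, 1 ≤ i → i ≤ t → ∀ C ∈ Lv M i,
      W M i C = w (t - (tb C + 1 - M)) * ex C /
        (((t : ℝ) + 3) * ((t + 3 + t - i).factorial : ℝ))) ∧ W M 0 (range M) = W0 M t (W M)) :
    Stmt_NU (t + 3) t (1 / 12) W := by
  obtain ⟨M₀, hM₀⟩ := hW
  refine ⟨M₀ + t + 1, fun M' hM' i hi1 hi C hC => ?_⟩
  obtain ⟨hWi, hW0⟩ := hM₀ M' (by omega)
  obtain ⟨M, rfl⟩ : ∃ M, M' = M + 1 := ⟨M' - 1, by omega⟩
  rw [hWi i hi1 hi C hC]
  obtain ⟨L, hL⟩ : ∃ L, L = t + 3 + t - i + 1 := ⟨_, rfl⟩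
  have hX : t + 3 + t + (M + 1) - i = M + L := by omega
  rw [hX]
  have hlt := (Lv_spec hC).2.2.1
  have hterm : ∀ x ∈ C, YR t (W (M + 1)) (t + 3 + t + (M + 1) - x)
      ((insert (M + L) C).erase x) ≤
      SS w t (t + 3 + t + (M + 1) - x) * ex (C.erase x) *
        (1 / (((t : ℝ) + 3) * (L.factorial : ℝ))) := by
    intro x hx
    have hxi := hlt x hx
    have hE := erase_mem hC hx
    have hEl : ∀ y ∈ C.erase x, y < M + L := fun y hy => by
      have := hlt y (mem_erase.1 hy).2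
      omega
    have hne : M + L ≠ x := by omega
    have hD : (insert (M + L) C).erase x = insert (M + L) (C.erase x) :=
      erase_insert_of_ne hne
    have hDm := ins_mem hE hEl
    rw [show i + M - x + L = t + 3 + t + (M + 1) - x by omega] at hDm
    rw [hD]
    have h1 := YR_le_SS hw (by omega) hWi hW0 (by omega) hDm
    have h2 := ins_le hE hEl
    refine h1.trans ?_
    have h3 : 0 ≤ SS w t (t + 3 + t + (M + 1) - x) / ((t : ℝ) + 3) :=
      div_nonneg (SS_nonneg hw _ _) (by positivity)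
    refine (mul_le_mul_of_nonneg_left h2 h3).trans (le_of_eq ?_)
    have fL : (L.factorial : ℝ) ≠ 0 := by exact_mod_cast Nat.factorial_ne_zero _
    field_simp
  refine (sum_le_sum hterm).trans ?_
  rw [← sum_mul]
  have h4 := NU_sum hw ht hi1 hi hC
  have hexC := ex_pos C
  have hwp := hw.pos (t - (tb C + 1 - (M + 1)))
  have fL : (0 : ℝ) < (L.factorial : ℝ) := by exact_mod_cast Nat.factorial_pos _
  refine (mul_le_mul_of_nonneg_right h4 (by positivity)).trans ?_
  obtain ⟨j, hj⟩ : ∃ j, j = t + 3 + t - i := ⟨_, rfl⟩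
  rw [← hj] at hL ⊢
  have fj : (0 : ℝ) < (j.factorial : ℝ) := by exact_mod_cast Nat.factorial_pos _
  have hLf : (L.factorial : ℝ) = ((j : ℝ) + 1) * (j.factorial : ℝ) := by
    rw [hL, Nat.factorial_succ]
    push_cast
    ring
  have hjt : (t : ℝ) + 3 ≤ j := by exact_mod_cast (by omega : t + 3 ≤ j)
  set wk := w (t - (tb C + 1 - (M + 1))) with hwk
  rw [hLf]
  have e1 : 1 / 12 * wk * ((t : ℝ) + 4) * ex C * (1 / (((t : ℝ) + 3) * (((j : ℝ) + 1) *
      (j.factorial : ℝ)))) =
      (1 / 12 * (wk * ex C / (((t : ℝ) + 3) * (j.factorial : ℝ)))) *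
        (((t : ℝ) + 4) / ((j : ℝ) + 1)) := by
    field_simp
  rw [e1]
  refine mul_le_of_le_one_right (by positivity) ?_
  rw [div_le_one (by positivity)]
  linarith

end Pool.JM
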