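import Pool.Agent.Work.MP_46fa68_82.Norm
import Pool.Agent.Work.MP_46fa68_95.Peel

/-! # The one-mark recursion in normalised variables

Normalised one-mark function: `A B C = ex B * a B C`; normalised class function `ex B * b B`. All the
coefficients are `1`, `1/r`, `1 - 1/r²`. -/

set_option autoImplicit false

open Finset Equiv

namespace Pool.JM

variable {N M : ℕ}

/-- normalised one-mark function -/
noncomputable def NA (a : Finset ℕ → Finset ℕ → ℝ) (B C : Finset ℕ) : ℝ := ex B * a B C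

/-- normalised class function -/
noncomputable def NC (b : Finset ℕ → ℝ) (B : Finset ℕ) : ℝ := ex B * b B

/-- peeling in normalised variables -/
noncomputable def nPE (A : Finset ℕ → Finset ℕ → ℝ) (B C : Finset ℕ) : ℝ :=
  ∑ y ∈ ad B, ((y : ℝ) - (ub B C : ℝ))⁻¹ * A (mv B y) B

/-- expectation in normalised variables -/
noncomputable def nEX (A : Finset ℕ → Finset ℕ → ℝ) (C : Finset ℕ) : ℝ :=
  ∑ x ∈ ad C, A (mv C x) C

/-- row function in normalised variables, `B = mv C u` -/
noncomputable def nRow (B : Finset ℕ → ℕ → ℕ → ℝ) (D : Finset ℕ → Finset ℕ → Finset ℕ → ℝ)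
    (C : Finset ℕ) (u : ℕ) : ℝ :=
  (∑ x ∈ ad (mv C u), ∑ y ∈ ad (mv C u),
    (((x : ℝ) - u)⁻¹ * ((y : ℝ) - u)⁻¹) * B (mv C u) x y) +
  ∑ y ∈ (ad C).erase u, (1 - qq y u) * D (mv (mv C u) y) (mv C y) (mv C u)

/-- cell function in normalised variables -/
noncomputable def nCell (B : Finset ℕ → ℕ → ℕ → ℝ) (C : Finset ℕ) : ℝ :=
  ∑ x ∈ ad C, ∑ y ∈ ad C, B C x y

theorem NA_PE (a : Finset ℕ → Finset ℕ → ℝ) (B C : Finset ℕ) :
    NA (PE a) B C = nPE (NA a) B C := by
  unfold NA PE nPE
  rw [Finset.mul_sum]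
  refine Finset.sum_congr rfl fun y hy => ?_
  simp only
  rw [ex_mv hy]
  ring

theorem NC_EX (a : Finset ℕ → Finset ℕ → ℝ) (C : Finset ℕ) : NC (EX a) C = nEX (NA a) C := by
  unfold NC EX nEX NA
  rw [Finset.mul_sum]
  refine Finset.sum_congr rfl fun x hx => ?_
  rw [ex_mv hx]
  ring

theorem NC_cellF (b : Finset ℕ → ℕ → ℕ → ℝ) (C : Finset ℕ) :
    NC (cellF b) C = nCell (NB b) C := by
  unfold NC cellF nCell NB
  rw [Finset.mul_sum]
  refine Finset.sum_congr rfl fun x _ => ?_
  rw [Finset.mul_sum]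
  refine Finset.sum_congr rfl fun y _ => ?_
  ring

theorem NA_rowF (b : Finset ℕ → ℕ → ℕ → ℝ) (d : Finset ℕ → Finset ℕ → ℝ) {C : Finset ℕ} {u : ℕ}
    (hu : u ∈ ad C) : NA (rowF b d) (mv C u) C = nRow (NB b) (ND d) C u := by
  unfold NA nRow NB ND
  rw [rowF_eq b d hu, mul_add, Finset.mul_sum, Finset.mul_sum]
  congr 1
  · refine Finset.sum_congr rfl fun x _ => ?_
    rw [Finset.mul_sum]
    refine Finset.sum_congr rfl fun y _ => ?_
    ring
  · refine Finset.sum_congr rfl fun y hy => ?_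
    obtain ⟨hne, hyC⟩ := mem_erase.1 hy
    have h1 : y ∈ ad (mv C u) := ad_swap hyC hu hne
    rw [ex_mv h1]
    unfold qq
    ring

/-- recursive bound, normalised variables -/
def nMaV (M : ℕ) : ℕ → (Finset ℕ → Finset ℕ → ℝ) → ℝ → Prop
  | 0, A, q => nEX A (range M) ≤ q
  | k + 1, A, q => nMaV M k (nPE A) q ∧ nMaV M k (fun B _ => nEX A B) q

/-- recursive bound, normalised variables, the mark is moved -/
def nMkV (M : ℕ) : ℕ → (Finset ℕ → Finset ℕ → ℝ) → ℝ → Prop
  | 0, _, _ => True
  | k + 1, A, q => nMaV M k (nPE A) q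

/-- recursive bound, normalised variables, class functions off the identity -/
def nClV (M : ℕ) : ℕ → (Finset ℕ → ℝ) → ℝ → Prop
  | 0, _, _ => True
  | l + 1, b, q => nMkV M l (fun B _ => b B) q ∧ nClV M l (nEX fun B _ => b B) q

theorem MaV_of_n : ∀ (k : ℕ) (a A : Finset ℕ → Finset ℕ → ℝ) (q : ℝ),
    (∀ C ∈ Lv M k, ∀ u ∈ ad C, A (mv C u) C = NA a (mv C u) C) → nMaV M k A q → MaV M k a q := by
  intro k
  induction k with
  | zero =>
    intro a A q h hq
    have h0 : range M ∈ Lv M 0 := by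
      change range M ∈ ({range M} : Finset (Finset ℕ))
      exact mem_singleton_self _
    change nEX A (range M) ≤ q at hq
    change EX a (range M) ≤ q
    have e : EX a (range M) = NC (EX a) (range M) := by
      unfold NC
      rw [ex_range', one_mul]
    rw [e, NC_EX]
    refine le_trans (le_of_eq ?_) hq
    unfold nEX
    exact Finset.sum_congr rfl fun x hx => (h _ h0 x hx).symm
  | succ k ih =>
    intro a A q h hq
    refine ⟨ih _ (nPE A) q ?_ hq.1, ih _ (fun B _ => nEX A B) q ?_ hq.2⟩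
    · intro C hC u hu
      rw [NA_PE]
      unfold nPE
      exact Finset.sum_congr rfl fun y hy => by rw [h _ (mv_mem hC hu) y hy]
    · intro C hC u hu
      change nEX A (mv C u) = NC (EX a) (mv C u)
      rw [NC_EX]
      unfold nEX
      exact Finset.sum_congr rfl fun y hy => h _ (mv_mem hC hu) y hy

theorem MkV_of_n {k : ℕ} {a A : Finset ℕ → Finset ℕ → ℝ} {q : ℝ}
    (h : ∀ C ∈ Lv M k, ∀ u ∈ ad C, A (mv C u) C = NA a (mv C u) C) (hq : nMkV M k A q) :
    MkV M k a q := by
  cases k with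
  | zero => trivial
  | succ k =>
    refine MaV_of_n k _ (nPE A) q ?_ hq
    intro C hC u hu
    rw [NA_PE]
    unfold nPE
    exact Finset.sum_congr rfl fun y hy => by rw [h _ (mv_mem hC hu) y hy]

theorem ClV_of_n : ∀ (l : ℕ) (b B : Finset ℕ → ℝ) (q : ℝ),
    (∀ C ∈ Lv M l, B C = NC b C) → nClV M l B q → ClV M l b q := by
  intro l
  induction l with
  | zero =>
    intro b B q _ _
    trivial
  | succ l ih =>
    intro b B q h hq
    refine ⟨MkV_of_n (A := fun C _ => B C) ?_ hq.1, ih _ (nEX fun C _ => B C) q ?_ hq.2⟩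
    · intro C hC u hu
      exact h _ (mv_mem hC hu)
    · intro C hC
      rw [NC_EX]
      unfold nEX
      exact Finset.sum_congr rfl fun x hx => h _ (mv_mem hC hx)

/-- the value at the identity -/
noncomputable def nId (M : ℕ) : ℕ → (Finset ℕ → ℝ) → ℝ
  | 0, b => b (range M)
  | l + 1, b => nId M l (nEX fun B _ => b B)

/-- homogeneity of the recursions -/
theorem nPE_smul (c : ℝ) (A : Finset ℕ → Finset ℕ → ℝ) :
    nPE (fun B C => c * A B C) = fun B C => c * nPE A B C := by
  funext B C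
  unfold nPE
  rw [Finset.mul_sum]
  exact Finset.sum_congr rfl fun y _ => by ring

theorem nEX_smul (c : ℝ) (A : Finset ℕ → Finset ℕ → ℝ) :
    nEX (fun B C => c * A B C) = fun C => c * nEX A C := by
  funext C
  unfold nEX
  rw [Finset.mul_sum]

/-- a bound for a multiple -/
theorem nMaV_smul {c : ℝ} (hc : 0 < c) : ∀ (k : ℕ) (A : Finset ℕ → Finset ℕ → ℝ) (q : ℝ),
    nMaV M k (fun B C => c * A B C) (c * q) ↔ nMaV M k A q := by
  intro k
  induction k with
  | zero =>
    intro A q
    change nEX _ _ ≤ _ ↔ nEX _ _ ≤ _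
    rw [nEX_smul]
    exact mul_le_mul_iff_right₀ hc
  | succ k ih =>
    intro A q
    change (nMaV M k _ _ ∧ nMaV M k _ _) ↔ (nMaV M k _ _ ∧ nMaV M k _ _)
    rw [nPE_smul, nEX_smul, ih, ih]

/-- the recursion depends only on the values on the pairs -/
theorem nMaV_congr : ∀ (k : ℕ) (A A' : Finset ℕ → Finset ℕ → ℝ) (q : ℝ),
    (∀ C ∈ Lv M k, ∀ u ∈ ad C, A (mv C u) C = A' (mv C u) C) → nMaV M k A q → nMaV M k A' q := by
  intro k
  induction k with
  | zero =>
    intro A A' q h hq
    have h0 : range M ∈ Lv M 0 := by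
      change range M ∈ ({range M} : Finset (Finset ℕ))
      exact mem_singleton_self _
    change nEX A (range M) ≤ q at hq
    change nEX A' (range M) ≤ q
    refine le_trans (le_of_eq ?_) hq
    exact Finset.sum_congr rfl fun x hx => (h _ h0 x hx).symm
  | succ k ih =>
    intro A A' q h hq
    refine ⟨ih _ _ q ?_ hq.1, ih _ _ q ?_ hq.2⟩
    · intro C hC u hu
      exact Finset.sum_congr rfl fun y hy => by rw [h _ (mv_mem hC hu) y hy]
    · intro C hC u hu
      exact Finset.sum_congr rfl fun y hy => h _ (mv_mem hC hu) y hy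

theorem G_one_id (hM : N < M) : ∀ (l : ℕ) (b : Finset ℕ → ℝ), l ≤ N →
    G N M b l 1 1 = nId M l (NC b) := by
  intro l
  induction l with
  | zero =>
    intro b _
    have h0 : G N M b 0 = b (range M) • (1 : Mat N) := by
      unfold G
      rw [show Lv M 0 = {range M} from rfl, sum_singleton]
      congr 1
      exact if_pos rfl
    rw [h0, Matrix.smul_apply, Matrix.one_apply_eq, smul_eq_mul, mul_one]
    change b (range M) = NC b (range M)
    unfold NC
    rw [ex_range', one_mul]
  | succ l ih =>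
    intro b hl
    rw [← T1_hi, T1_fix hM (by omega) _ (Sn_one l), ih _ (by omega)]
    change nId M l _ = nId M l (nEX fun B _ => NC b B)
    congr 1
    funext C
    rw [NC_EX]
    rfl

end Pool.JM
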