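import Pool.Agent.Work.MP_46fa68_19.Mk5
import Pool.Agent.Work.MP_46fa68_31.Tree
import Pool.Agent.Work.MP_46fa68_95.Peel

/-! # The row (and column) of the mark from the integer tables of the level `m` -/

set_option autoImplicit false

open Finset

namespace Pool.JM.RT

/-- all the differences of a path are at most `k + 1` -/
theorem path_dist {M k : ℕ} {C : Finset ℕ} (hC : C ∈ Lv M k) {u : ℕ} (hu : u ∈ ad C) {y : ℕ}
    (hy : y ∈ ad (mv C u)) : y ≤ u + (k + 1) ∧ u ≤ y + (k + 1) := by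
  have h1 := MK.span_lt (mv_mem hC hu) (y + 1) (u + 1) (mem_ad.1 hy).2 mv_mem_succ
  have h2 := MK.span_lt (mv_mem hC hu) u y mv_not_mem (mem_ad.1 hy).1
  omega

theorem Div31_of {M L R k : ℕ} (hL : ∀ r, 1 ≤ r → r ≤ R → r ∣ L) (hR : k + 1 ≤ R) :
    Div31 M L k := by
  intro C hC u hu y hy
  have h := path_dist hC hu hy
  have hne : y ≠ u := path_ne hy
  exact hL _ (by omega) (by omega)

theorem rowI_real {M k L W R : ℕ} {σ : ℝ} {tB tD : MK.Tr}
    (hL : ∀ r, 1 ≤ r → r ≤ R → r ∣ L) (hR : k + 1 ≤ R) (hW : M + k + 1 ≤ W) (hσ : σ ≠ 0)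
    {C : Finset ℕ} (hC : C ∈ Lv M k) {u : ℕ} (hu : u ∈ ad C) :
    ((rowI L W tB tD (cd C) u : ℤ) : ℝ) =
      ((L : ℝ) ^ 2 * σ) * NA (rowF (MK.bK σ tB) (MK.dK σ tD)) (mv C u) C := by
  have hA := mv_mem hC hu
  have hW0 : ∀ z ∈ ad C, z < W := fun z hz => by
    have := MK.Lv_ad_lt hC hz
    omega
  have hW1 : ∀ z ∈ ad (mv C u), z < W := fun z hz => by
    have := MK.Lv_ad_lt hA hz
    omega
  have c1 : Nat.add (cd C) (Nat.pow 2 u) = MK.cd (mv C u) := (MK.cd_mv hu).symm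
  have hp : ∀ x ∈ ad (mv C u), ((MK.pp L x u : ℤ) : ℝ) = L * iv x u := fun x hx => by
    have h := path_dist hC hu hx
    exact MK.pp_real hL (path_ne hx) (by omega) (by omega)
  have e1 : ((MK.sumL (MK.posl 1 W (Nat.add (cd C) (Nat.pow 2 u))) (fun x => Int.mul (MK.pp L x u)
      (MK.sumL (MK.posl 1 W (Nat.add (cd C) (Nat.pow 2 u)))
        (fun y => Int.mul (MK.pp L y u) (MK.gt tB (Nat.add (cd C) (Nat.pow 2 u)) x y)))) : ℤ) :
          ℝ) = ((L : ℝ) ^ 2 * σ) * ∑ x ∈ ad (mv C u), iv x u * ∑ y ∈ ad (mv C u), iv y u *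
            MK.bt σ tB (mv C u) x y := by
    rw [c1, MK.sum_ad_real hW1, Finset.mul_sum]
    refine Finset.sum_congr rfl fun x hx => ?_
    change (((MK.pp L x u) * (MK.sumL (MK.posl 1 W (MK.cd (mv C u)))
        (fun y => Int.mul (MK.pp L y u) (MK.gt tB (MK.cd (mv C u)) x y))) : ℤ) : ℝ) = _
    rw [Int.cast_mul, MK.sum_ad_real hW1, hp x hx]
    have : ∀ y ∈ ad (mv C u), (((Int.mul (MK.pp L y u) (MK.gt tB (MK.cd (mv C u)) x y)) : ℤ) : ℝ) =
        (L : ℝ) * σ * (iv y u * MK.bt σ tB (mv C u) x y) := by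
      intro y hy
      change (((MK.pp L y u) * (MK.gt tB (MK.cd (mv C u)) x y) : ℤ) : ℝ) = _
      push_cast
      rw [hp y hy]
      unfold MK.bt
      field_simp
    rw [Finset.sum_congr rfl this, ← Finset.mul_sum]
    ring
  have e2 : ((MK.sumL (MK.posl 1 W (cd C)) (fun y => cond (Nat.beq y u) (Int.ofNat 0)
      (Int.mul (MK.rI L y u) (MK.gt tD (Nat.add (Nat.add (cd C) (Nat.pow 2 u)) (Nat.pow 2 y))
        u y))) : ℤ) : ℝ) = ((L : ℝ) ^ 2 * σ) * ∑ y ∈ (ad C).erase u, (1 - iv y u ^ 2) *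
          MK.bt σ tD (mv (mv C u) y) u y := by
    change ((MK.sumL (MK.posl 1 W (MK.cd C)) (fun y => cond (Nat.beq y u) (Int.ofNat 0)
      (Int.mul (MK.rI L y u) (MK.gt tD (Nat.add (Nat.add (cd C) (Nat.pow 2 u)) (Nat.pow 2 y))
        u y))) : ℤ) : ℝ) = _
    rw [MK.sum_ad_real hW0, Finset.mul_sum, ← Finset.sum_subset (erase_subset u (ad C))]
    · refine Finset.sum_congr rfl fun y hy => ?_
      obtain ⟨hyu, hyC⟩ := mem_erase.1 hy
      have hyu' : y ∈ ad (mv C u) := ad_swap hyC hu hyu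
      have b1 : Nat.beq y u = false := by
        rw [Bool.eq_false_iff]
        exact fun h => hyu (Nat.eq_of_beq_eq_true h)
      have c3 : Nat.add (Nat.add (cd C) (Nat.pow 2 u)) (Nat.pow 2 y) = MK.cd (mv (mv C u) y) := by
        rw [c1]
        exact (MK.cd_mv hyu').symm
      rw [b1, c3]
      change (((MK.rI L y u) * (MK.gt tD (MK.cd (mv (mv C u) y)) u y) : ℤ) : ℝ) = _
      have h := path_dist hC hu hyu'
      push_cast
      rw [MK.rI_real hL hyu (by omega) (by omega)]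
      unfold MK.bt
      field_simp
    · intro y hy hny
      have : y = u := by
        by_contra hcon
        exact hny (mem_erase.2 ⟨hcon, hy⟩)
      rw [this, Nat.beq_refl]
      simp
  unfold NA
  rw [hat_row (MK.HB_bK _ _) (MK.HD_dK _ _) hu]
  have e0 : rowI L W tB tD (cd C) u =
    (MK.sumL (MK.posl 1 W (Nat.add (cd C) (Nat.pow 2 u))) (fun x => Int.mul (MK.pp L x u)
      (MK.sumL (MK.posl 1 W (Nat.add (cd C) (Nat.pow 2 u)))
        (fun y => Int.mul (MK.pp L y u) (MK.gt tB (Nat.add (cd C) (Nat.pow 2 u)) x y))))) +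
    (MK.sumL (MK.posl 1 W (cd C)) (fun y => cond (Nat.beq y u) (Int.ofNat 0)
      (Int.mul (MK.rI L y u) (MK.gt tD (Nat.add (Nat.add (cd C) (Nat.pow 2 u)) (Nat.pow 2 y))
        u y)))) := rfl
  rw [e0, Int.cast_add, e1, e2]
  ring

theorem rowChk_sound {N M j K L R W c0 : ℕ} {S : ℝ} {tB tD : MK.Tr} {z : ℤ} {cs : List ℕ}
    {s0 : Sc} {sch : List Sc} (hM : N < M) (hj : j + 1 < N) (hS : 0 < S)
    (hL : ∀ r, 1 ≤ r → r ≤ R → r ∣ L) (hL0 : 0 < L) (hR : j + 2 ≤ R) (hW : M + j + 2 ≤ W)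
    (hK : M + j + 2 ≤ K) (hc0 : c0 = cd (range M)) (hlen : sch.length = j + 1)
    (hs : scOK K c0 cs (s0 :: sch) = true)
    (h : rowChk L W c0 s0 sch tB tD z = true) :
    MkB N M (j + 1) (rowF (MK.bK (S * (j + 2).factorial) tB) (MK.dK (S * (j + 2).factorial) tD))
      (-((z : ℝ) / S) / (j + 2).factorial) := by
  set σ : ℝ := S * (j + 2).factorial with hσdef
  have hf : (0 : ℝ) < (j + 2).factorial := by positivity
  have hσ : 0 < σ := by positivity
  have hLr : (0 : ℝ) < L := by exact_mod_cast hL0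
  obtain ⟨-, hgood⟩ := scOK_sound hc0 (s0 :: sch) cs (j + 2) (by simp [hlen]) (by omega) hs
  have h' : fI (Int.neg (Int.mul (Int.ofNat (Nat.mul L L)) z)) (fun Q =>
    rowsF (rowI L W tB tD) s0 fun T => mkTree L c0 sch T Q) = true := h
  rw [fI_eq, rowsF_eq] at h'
  have hg0 : Good31 M K (j + 1) s0 := hgood 0 (by simp)
  refine MkV_sound hM (by omega) (MkV_of_n (A := NA (rowF (MK.bK σ tB) (MK.dK σ tD)))
    (fun C _ u _ => rfl) ?_)
  refine mkTree_sound (K := K) (S := (L : ℝ) ^ 2 * σ) hc0 hL0 hlen (by omega) ?_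
    (rep_step hg0 (rowI L W tB tD) _ (fun C hC u hu => rowI_real hL (by omega) (by omega) hσ.ne'
      hC hu)) (by positivity) ?_ h'
  · intro i hi
    have h1 := hgood (i + 1) (by simpa using hi)
    have e : j + 2 - 1 - (i + 1) = j + 1 - 1 - i := by omega
    rw [e] at h1
    exact ⟨h1, Div31_of hL (by omega)⟩
  · have e : ((Int.neg (Int.mul (Int.ofNat (Nat.mul L L)) z) : ℤ) : ℝ) = -((L : ℝ) ^ 2 * z) := by
      change ((-(((L * L : ℕ) : ℤ) * z) : ℤ) : ℝ) = _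
      push_cast
      ring
    rw [e, hσdef]
    refine le_of_eq ?_
    field_simp

/-- the column -/
theorem rowF_dK_symm (σ σ' : ℝ) (tB tD : MK.Tr) :
    rowF (MK.bK σ tB) (fun C C' => MK.dK σ' tD C' C) = rowF (MK.bK σ tB) (MK.dK σ' tD) := by
  have e : (fun C C' => MK.dK σ' tD C' C) = MK.dK σ' tD := by
    funext C C'
    exact MK.dK_symm σ' tD C' C
  rw [e]

end Pool.JM.RT
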