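import Pool.Agent.Work.MP_46fa68_23.Mo3
import Pool.Agent.Work.MP_46fa68_47.Inf

/-! # Shift of the wall, and the exactness sums of the source lists `vC` -/

set_option autoImplicit false

open Finset

namespace Pool.NW

open Pool.OB Pool.NV

/-- `kl t (Q+1) (0 :: v) τ (j-1) = kl t Q v τ j` -/
theorem kl_shift (t Q : ℕ) (v : ℕ → ℕ → ℝ) (h0 : ∀ p, v 0 p = 0) (τ : ℝ) (j : ℤ) (p : ℕ) :
    kl t (Q + 1) v τ (j - 1) p = kl t Q (fun q p => v (q + 1) p) τ j p := by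
  unfold kl
  rw [sum_range_succ']
  have e0 : (if 0 ≤ ((0 : ℕ) : ℤ) - 1 + (j - 1) then
      ∑ a ∈ range (p + 1), wq t (((0 : ℕ) : ℤ) - 1 + (j - 1)).toNat a * v 0 (p - a) else 0) = 0 := by
    split_ifs
    · exact sum_eq_zero fun a _ => by rw [h0, mul_zero]
    · rfl
  rw [e0, add_zero]
  congr 1
  · refine sum_congr rfl fun q _ => ?_
    have e : ((q + 1 : ℕ) : ℤ) - 1 + (j - 1) = (q : ℤ) - 1 + j := by push_cast; ring
    rw [e]
  · have e : ((Q + 1 : ℕ) : ℤ) - 1 + (j - 1) = (Q : ℤ) - 1 + j := by push_cast; ring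
    rw [e]

/-- the wall `w + 1` seen from the wall `w`, one bead -/
theorem HIx_up (K w t Q : ℕ) (v : ℕ → ℕ → ℝ) (h0 : ∀ p, v 0 p = 0) (τ : ℝ) (B : Finset ℕ) (x : ℕ) :
    HIx K w t (Q + 1) v τ B x = HIx K (w + 1) t Q (fun q p => v (q + 1) p) τ B x := by
  unfold HIx
  refine tsum_congr fun p => ?_
  have e : (((K - 1 + (w + 1) : ℕ) : ℤ) - x) - 1 = ((K - 1 + w : ℕ) : ℤ) - x := by push_cast; ring
  rw [← kl_shift t Q v h0 τ _ p, e]

/-- **the wall `w + 1` seen from the wall `w`** -/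
theorem HI_up (K w t Q : ℕ) (v : ℕ → ℕ → ℝ) (h0 : ∀ p, v 0 p = 0) (τ : ℝ) (B : Finset ℕ) :
    HI K w t (Q + 1) v τ B = HI K (w + 1) t Q (fun q p => v (q + 1) p) τ B := by
  unfold HI
  exact sum_congr rfl fun x _ => HIx_up K w t Q v h0 τ B x

/-- the same, from the wall `w + 1` to the wall `w` -/
theorem HI_down (K w t Q : ℕ) (v : ℕ → ℕ → ℝ) (τ : ℝ) (B : Finset ℕ) :
    HI K (w + 1) t Q v τ B = HI K w t (Q + 1) (fun q p => if q = 0 then 0 else v (q - 1) p) τ B := by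
  rw [HI_up K w t Q (fun q p => if q = 0 then 0 else v (q - 1) p) (fun p => if_pos rfl) τ B]
  congr 1

/-! ## helper23's tables -/

section tables

variable {cf : Cf} {m den : ℕ}

theorem vC_zero (q : ℕ) : vC cf m den q 0 = pev (cf.v.getD q ([], [])).1 (1 / m) / den := by
  unfold vC
  rw [if_pos rfl]

theorem vC_one (q : ℕ) : vC cf m den q 1 = m * pev (cf.v.getD q ([], [])).2 (1 / m) / den := by
  unfold vC
  rw [if_neg one_ne_zero, if_pos rfl]

/-- an empty first entry -/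
theorem vC_nil {l : List (List ℤ × List ℤ)} {ta : List ℤ} (p : ℕ) :
    vC ⟨([], []) :: l, ta⟩ m den 0 p = 0 := by
  unfold vC
  simp [pev]

/-- the rest of the list -/
theorem vC_cons {c : List ℤ × List ℤ} {l : List (List ℤ × List ℤ)} {ta : List ℤ} (q p : ℕ) :
    vC ⟨c :: l, ta⟩ m den (q + 1) p = vC ⟨l, ta⟩ m den q p := by
  unfold vC
  simp

theorem tauC_cons {c : List ℤ × List ℤ} {l : List (List ℤ × List ℤ)} {ta : List ℤ} :
    tauC ⟨c :: l, ta⟩ m den = tauC ⟨l, ta⟩ m den := rfl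

/-- helper23's normal form (wall `m + 1`, first entry empty) against helper27's form -/
theorem HI_vC_up (K t : ℕ) (l : List (List ℤ × List ℤ)) (ta : List ℤ) (B : Finset ℕ) :
    HI K m t (([], []) :: l).length (vC ⟨([], []) :: l, ta⟩ m den) (tauC ⟨([], []) :: l, ta⟩ m den) B =
      HI K (m + 1) t l.length (vC ⟨l, ta⟩ m den) (tauC ⟨l, ta⟩ m den) B := by
  rw [List.length_cons, HI_up K m t l.length _ (fun p => vC_nil p) _ B]
  congr 1

/-- a function with wall `m - 1` seen from the wall `m` -/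
theorem HI_vC_down (K t : ℕ) (hm : 1 ≤ m) (l : List (List ℤ × List ℤ)) (ta : List ℤ)
    (B : Finset ℕ) :
    HI K (m - 1) t (([], []) :: l).length (vC ⟨([], []) :: l, ta⟩ m den)
      (tauC ⟨([], []) :: l, ta⟩ m den) B =
      HI K m t l.length (vC ⟨l, ta⟩ m den) (tauC ⟨l, ta⟩ m den) B := by
  obtain ⟨w, rfl⟩ : ∃ w, m = w + 1 := ⟨m - 1, by omega⟩
  rw [Nat.add_sub_cancel, List.length_cons, HI_up K w t l.length _ (fun p => vC_nil p) _ B]
  congr 1

/-! ### exactness -/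

theorem r1_zero {w : ℕ} (hw : 2 ≤ w) : r1 w 0 = 1 := by
  unfold r1
  have h1 : (((w - 1 : ℕ) : ℝ)) ≠ 0 := by
    have : w - 1 ≠ 0 := by omega
    exact_mod_cast this
  have h2 : (w.factorial : ℝ) ≠ 0 := by exact_mod_cast w.factorial_ne_zero
  have e1 : (((w - 1 : ℕ) : ℝ) + ((0 : ℕ) : ℝ)) / ((w - 1 : ℕ) : ℝ) = 1 := by
    rw [Nat.cast_zero, add_zero, div_self h1]
  rw [e1, Nat.add_zero, div_self h2, one_mul]

theorem fac_ratio (w : ℕ) : (w.factorial : ℝ) / (w + 1).factorial = 1 / ((w : ℝ) + 1) := by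
  have h2 : (w.factorial : ℝ) ≠ 0 := by exact_mod_cast w.factorial_ne_zero
  have h3 : (w : ℝ) + 1 ≠ 0 := by positivity
  rw [Nat.factorial_succ]
  push_cast
  field_simp

theorem r1_one {w : ℕ} (hw : 2 ≤ w) : r1 w 1 = w / (((w : ℝ) - 1) * (w + 1)) := by
  unfold r1
  have e : ((w - 1 : ℕ) : ℝ) = (w : ℝ) - 1 := by
    rw [Nat.cast_sub (by omega)]
    simp
  have hwR : (2 : ℝ) ≤ w := by exact_mod_cast hw
  have h1 : (w : ℝ) - 1 ≠ 0 := by
    have : 0 < (w : ℝ) - 1 := by linarith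
    exact this.ne'
  have h3 : (w : ℝ) + 1 ≠ 0 := by positivity
  rw [fac_ratio, e]
  push_cast
  field_simp
  ring

/-- **row one, general wall** -/
theorem sum_r1 {w : ℕ} (hw : 2 ≤ w) (q : ℕ) :
    ∑ p ∈ range 2, vC cf m den q p * r1 w p =
      (pev (cf.v.getD q ([], [])).1 (1 / m) +
        m * w / (((w : ℝ) - 1) * (w + 1)) * pev (cf.v.getD q ([], [])).2 (1 / m)) / den := by
  rw [sum_range_succ, sum_range_succ, range_zero, sum_empty, zero_add, vC_zero, vC_one, r1_zero hw,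
    r1_one hw]
  ring

/-- **value at the row shape, general wall** -/
theorem sv_vC (w q : ℕ) : sv w 2 (vC cf m den q) =
    (pev (cf.v.getD q ([], [])).1 (1 / m) +
      m / ((w : ℝ) + 1) * pev (cf.v.getD q ([], [])).2 (1 / m)) / den := by
  unfold sv
  rw [sum_range_succ, sum_range_succ, range_zero, sum_empty, zero_add, vC_zero, vC_one]
  have h2 : (w.factorial : ℝ) ≠ 0 := by exact_mod_cast w.factorial_ne_zero
  have e1 : (w.factorial : ℝ) / (w + 0).factorial = 1 := by rw [Nat.add_zero, div_self h2]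
  rw [e1, fac_ratio]
  ring

/-- wall `m` -/
theorem sum_r1_m (hm : 2 ≤ m) (q : ℕ) :
    ∑ p ∈ range 2, vC cf m den q p * r1 m p =
      (pev (cf.v.getD q ([], [])).1 (1 / m) +
        pev (cf.v.getD q ([], [])).2 (1 / m) / (1 - (1 / (m : ℝ)) ^ 2)) / den := by
  rw [sum_r1 hm]
  have hmR : (2 : ℝ) ≤ m := by exact_mod_cast hm
  have h0 : (m : ℝ) ≠ 0 := by linarith
  have h1 : (m : ℝ) - 1 ≠ 0 := by
    have : 0 < (m : ℝ) - 1 := by linarith
    exact this.ne'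
  have h3 : (m : ℝ) + 1 ≠ 0 := by positivity
  have e : (1 : ℝ) - (1 / m) ^ 2 = (m - 1) * (m + 1) / (m * m) := by
    field_simp
    ring
  rw [e]
  congr 2
  field_simp

/-- wall `m + 1` -/
theorem sum_r1_up (hm : 2 ≤ m) (q : ℕ) :
    ∑ p ∈ range 2, vC cf m den q p * r1 (m + 1) p =
      (pev (cf.v.getD q ([], [])).1 (1 / m) +
        (1 + 1 / (m : ℝ)) / (1 + 2 * (1 / m)) * pev (cf.v.getD q ([], [])).2 (1 / m)) / den := by
  rw [sum_r1 (by omega)]
  have hmR : (2 : ℝ) ≤ m := by exact_mod_cast hm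
  have h0 : (m : ℝ) ≠ 0 := by linarith
  have h2 : (m : ℝ) + 2 ≠ 0 := by positivity
  have e : (1 + 1 / (m : ℝ)) / (1 + 2 * (1 / m)) = (m + 1) / (m + 2) := by
    field_simp
  have e2 : (m : ℝ) * ((m + 1 : ℕ) : ℝ) / ((((m + 1 : ℕ) : ℝ) - 1) * (((m + 1 : ℕ) : ℝ) + 1)) =
      (m + 1) / (m + 2) := by
    push_cast
    have e3 : (m : ℝ) + 1 - 1 = m := by ring
    have e4 : (m : ℝ) + 1 + 1 = m + 2 := by ring
    rw [e3, e4]
    field_simp
  rw [e, e2]

/-- wall `m - 1` -/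
theorem sum_r1_down (hm : 3 ≤ m) (q : ℕ) :
    ∑ p ∈ range 2, vC cf m den q p * r1 (m - 1) p =
      (pev (cf.v.getD q ([], [])).1 (1 / m) +
        (1 - 1 / (m : ℝ)) / (1 - 2 * (1 / m)) * pev (cf.v.getD q ([], [])).2 (1 / m)) / den := by
  rw [sum_r1 (by omega)]
  have hmR : (3 : ℝ) ≤ m := by exact_mod_cast hm
  have h0 : (m : ℝ) ≠ 0 := by linarith
  have h2 : (m : ℝ) - 2 ≠ 0 := by
    have : 0 < (m : ℝ) - 2 := by linarith
    exact this.ne'
  have ec : ((m - 1 : ℕ) : ℝ) = (m : ℝ) - 1 := by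
    rw [Nat.cast_sub (by omega)]
    simp
  have e : (1 - 1 / (m : ℝ)) / (1 - 2 * (1 / m)) = (m - 1) / (m - 2) := by
    have h5 : (1 : ℝ) - 2 * (1 / m) = (m - 2) / m := by field_simp
    have h6 : (1 : ℝ) - 1 / m = (m - 1) / m := by field_simp
    rw [h5, h6]
    field_simp
  have e2 : (m : ℝ) * ((m - 1 : ℕ) : ℝ) / ((((m - 1 : ℕ) : ℝ) - 1) * (((m - 1 : ℕ) : ℝ) + 1)) =
      (m - 1) / (m - 2) := by
    rw [ec]
    have e3 : (m : ℝ) - 1 - 1 = m - 2 := by ring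
    have e4 : (m : ℝ) - 1 + 1 = m := by ring
    rw [e3, e4]
    field_simp
  rw [e, e2]

theorem sv_m (hm : 1 ≤ m) (q : ℕ) : sv m 2 (vC cf m den q) =
    (pev (cf.v.getD q ([], [])).1 (1 / m) +
      1 / (1 + 1 / (m : ℝ)) * pev (cf.v.getD q ([], [])).2 (1 / m)) / den := by
  rw [sv_vC]
  have hmR : (1 : ℝ) ≤ m := by exact_mod_cast hm
  have h0 : (m : ℝ) ≠ 0 := by linarith
  have e : (m : ℝ) / (m + 1) = 1 / (1 + 1 / (m : ℝ)) := by field_simp
  rw [e]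

theorem sv_up (hm : 1 ≤ m) (q : ℕ) : sv (m + 1) 2 (vC cf m den q) =
    (pev (cf.v.getD q ([], [])).1 (1 / m) +
      1 / (1 + 2 * (1 / (m : ℝ))) * pev (cf.v.getD q ([], [])).2 (1 / m)) / den := by
  rw [sv_vC]
  have hmR : (1 : ℝ) ≤ m := by exact_mod_cast hm
  have h0 : (m : ℝ) ≠ 0 := by linarith
  have e : (m : ℝ) / (((m + 1 : ℕ) : ℝ) + 1) = 1 / (1 + 2 * (1 / (m : ℝ))) := by
    push_cast
    field_simp
    ring
  rw [e]

theorem sv_down (hm : 1 ≤ m) (q : ℕ) : sv (m - 1) 2 (vC cf m den q) =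
    (pev (cf.v.getD q ([], [])).1 (1 / m) + pev (cf.v.getD q ([], [])).2 (1 / m)) / den := by
  rw [sv_vC]
  have hmR : (1 : ℝ) ≤ m := by exact_mod_cast hm
  have h0 : (m : ℝ) ≠ 0 := by linarith
  have ec : ((m - 1 : ℕ) : ℝ) = (m : ℝ) - 1 := by
    rw [Nat.cast_sub hm]
    simp
  have e : (m : ℝ) / (((m - 1 : ℕ) : ℝ) + 1) = 1 := by
    rw [ec, sub_add_cancel, div_self h0]
  rw [e, one_mul]

end tables

end Pool.NW
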