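import Pool.Agent.Work.MP_46fa68_11.YRBound

/-!
# MP_46fa68_co: the bound of `YR` with the first row (Stmt_STAR, general form)

`STAR`: if `W i C ≤ b i c * ex C` on the shapes `C` of size `i` (`1 ≤ i ≤ T`) with first row `≤ c`, and
`W 0` at the vacuum is `W0 M T W`, then for a shape `C` of size `l > T` with first row `≤ c`
`YR T W l C ≤ (∑_(1 ≤ i ≤ T) C(l,i) C(l-i-1,T-i) b i (min c i) + C(l-1,T) ∑_(1 ≤ j ≤ T) C(T,j) b j j) * ex C`.
-/

set_option autoImplicit false

open Finset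

namespace Pool.JM

/-- `Foi_le_ex` using only shapes with first row `≤ c` -/
theorem Foi_le_ex_top {M i c : ℕ} {y : Finset ℕ → ℝ} {w : ℝ}
    (hy : ∀ C ∈ Lv M i, (∀ x ∈ C, x < M + c) → y C ≤ w * ex C) : ∀ (k : ℕ), ∀ C ∈ Lv M (i + k),
    (∀ x ∈ C, x < M + c) →
    (Fo fun _ => 1)^[k] y C ≤ w * (((i + k).factorial : ℝ) / (i.factorial : ℝ)) * ex C
  | 0, C, hC, hc => by
    have hi : (i.factorial : ℝ) ≠ 0 := by exact_mod_cast i.factorial_ne_zero
    have h := hy C hC hc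
    simp only [Function.iterate_zero, id, Nat.add_zero]
    rw [div_self hi, mul_one]
    exact h
  | k + 1, C, hC, hc => by
    have hC' : C ∈ Lv M (i + k + 1) := hC
    rw [Function.iterate_succ_apply']
    have h1 : Fo (fun _ => 1) ((Fo fun _ => 1)^[k] y) C =
        ∑ x ∈ rm C, ((Fo fun _ => 1)^[k] y) (mvd C x) := by
      unfold Fo
      exact sum_congr rfl fun x _ => one_mul _
    rw [h1]
    have h2 : ∑ x ∈ rm C, ((Fo fun _ => 1)^[k] y) (mvd C x) ≤
        ∑ x ∈ rm C, w * (((i + k).factorial : ℝ) / (i.factorial : ℝ)) * ex (mvd C x) := by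
      refine sum_le_sum fun x hx => Foi_le_ex_top hy k _ (mvd_mem hC' hx) fun z hz => ?_
      unfold mvd at hz
      rcases mem_insert.1 hz with rfl | hz
      · have := hc x (mem_rm.1 hx).1
        omega
      · exact hc z (mem_erase.1 hz).2
    refine h2.trans (le_of_eq ?_)
    rw [← mul_sum, sum_rm_ex hC']
    have hf : ((i + (k + 1)).factorial : ℝ) = ((i + k + 1 : ℕ) : ℝ) * ((i + k).factorial : ℝ) := by
      rw [show i + (k + 1) = (i + k) + 1 by omega, Nat.factorial_succ]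
      push_cast
      ring
    rw [hf]
    ring

/-- iterates of `Dl` on functions bounded by a multiple of `ex` -/
theorem Dli_le_ex {M i : ℕ} (hi : i < M) {y : Finset ℕ → ℝ} {w : ℝ}
    (hy : ∀ C ∈ Lv M i, y C ≤ w * ex C) : ∀ (j n : ℕ), n + j = i → ∀ C ∈ Lv M n,
    Dl^[j] y C ≤ w * ex C
  | 0, n, h, C, hC => by
    rw [add_zero] at h
    subst h
    exact hy C hC
  | j + 1, n, h, C, hC => by
    rw [Function.iterate_succ_apply']
    have h1 : Dl (Dl^[j] y) C ≤ ∑ x ∈ ad C, w * ex (mv C x) := by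
      unfold Dl
      exact sum_le_sum fun x hx => Dli_le_ex hi hy j (n + 1) (by omega) _ (mv_mem hC hx)
    refine h1.trans (le_of_eq ?_)
    rw [← mul_sum]
    have h2 := Dl_ex (Lv_zero_mem hC (by omega : n < M))
    unfold Dl at h2
    rw [h2]

theorem ex_vac_le {M T : ℕ} (hTM : T < M) {W : ℕ → Finset ℕ → ℝ} {b : ℕ → ℝ}
    (hb : ∀ j, 1 ≤ j → j ≤ T → ∀ C ∈ Lv M j, W j C ≤ b j * ex C) :
    W0 M T W ≤ (∑ j ∈ Icc 1 T, (T.choose j : ℝ) * b j) * ex (range M) := by
  have h1 : ∑ j ∈ Icc 1 T, (T.choose j : ℝ) * b j =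
      ∑ j ∈ range T, (T.choose (j + 1) : ℝ) * b (j + 1) := by
    rw [range_eq_Ico, sum_Ico_add' (fun j => (T.choose j : ℝ) * b j) 0 T 1, zero_add]
    rfl
  rw [h1, sum_mul]
  unfold W0
  refine sum_le_sum fun j hj => ?_
  have hj' := mem_range.1 hj
  rw [mul_assoc]
  refine mul_le_mul_of_nonneg_left ?_ (by positivity)
  exact Dli_le_ex (by omega) (hb (j + 1) (by omega) (by omega)) (j + 1) 0 (by omega) _ (by simp [Lv])

/-- **the bound of `YR` with the first row** -/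
theorem STAR {M T : ℕ} (hTM : T < M) {W : ℕ → Finset ℕ → ℝ} {b : ℕ → ℕ → ℝ}
    (hb : ∀ i, 1 ≤ i → i ≤ T → ∀ c, c ≤ i → ∀ C ∈ Lv M i, (∀ x ∈ C, x < M + c) →
      W i C ≤ b i c * ex C)
    (hW0 : W 0 (range M) = W0 M T W) {l : ℕ} (hl : T < l) {C : Finset ℕ} (hC : C ∈ Lv M l)
    {c : ℕ} (hc : ∀ x ∈ C, x < M + c) :
    YR T W l C ≤ (∑ i ∈ Icc 1 T, (l.choose i : ℝ) * ((l - i - 1).choose (T - i) : ℝ) * b i (min c i) +
      ((l - 1).choose T : ℝ) * ∑ j ∈ Icc 1 T, (T.choose j : ℝ) * b j j) * ex C := by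
  have hterm : ∀ i, i ≤ T → ∀ w : ℝ, (∀ K ∈ Lv M i, (∀ x ∈ K, x < M + c) → W i K ≤ w * ex K) →
      |dk (l - i) (T - i)| * (Fo fun _ => 1)^[l - i] (W i) C ≤
        (l.choose i : ℝ) * ((l - i - 1).choose (T - i) : ℝ) * w * ex C := by
    intro i hi' w hw
    have hil : i ≤ l := by omega
    rw [abs_dk (by omega : 0 < l - i)]
    have h1 : (Fo fun _ => 1)^[l - i] (W i) C ≤
        w * ((l.factorial : ℝ) / (i.factorial : ℝ)) * ex C := by
      have h := Foi_le_ex_top hw (l - i) C (by rwa [Nat.add_sub_cancel' hil]) hc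
      rwa [Nat.add_sub_cancel' hil] at h
    have h2 : (0 : ℝ) ≤ ((l - i - 1).choose (T - i) : ℝ) / ((l - i).factorial : ℝ) := by positivity
    refine (mul_le_mul_of_nonneg_left h1 h2).trans (le_of_eq ?_)
    have h3 : (l.choose i : ℝ) =
        (l.factorial : ℝ) / ((i.factorial : ℝ) * ((l - i).factorial : ℝ)) := by
      rw [Nat.cast_choose ℝ hil]
    rw [h3]
    have a1 : (i.factorial : ℝ) ≠ 0 := by exact_mod_cast i.factorial_ne_zero
    have a2 : ((l - i).factorial : ℝ) ≠ 0 := by exact_mod_cast (l - i).factorial_ne_zero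
    field_simp
  unfold YR
  rw [range_eq_Ico, sum_eq_sum_Ico_succ_bot (Nat.succ_pos T), zero_add, add_mul, add_comm]
  refine add_le_add ?_ ?_
  · rw [sum_mul]
    refine sum_le_sum fun i hi => ?_
    have hi' := mem_Ico.1 hi
    rw [if_pos (by omega : i ≤ l)]
    refine hterm i (by omega) (b i (min c i)) fun K hK hKc => ?_
    refine hb i (by omega) (by omega) (min c i) (min_le_right _ _) K hK fun x hx => ?_
    have h1 := hKc x hx
    have h2 := (Lv_spec hK).2.2.1 x hx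
    omega
  · rw [if_pos (Nat.zero_le _)]
    have h0 : ∀ K ∈ Lv M 0, (∀ x ∈ K, x < M + c) →
        W 0 K ≤ (∑ j ∈ Icc 1 T, (T.choose j : ℝ) * b j j) * ex K := by
      intro K hK _
      have hK' : K = range M := by
        simpa [Lv] using hK
      rw [hK', hW0]
      refine ex_vac_le hTM (b := fun j => b j j) fun j hj hjT D hD => ?_
      exact hb j hj hjT j le_rfl D hD (fun x hx => (Lv_spec hD).2.2.1 x hx)
    refine (hterm 0 (Nat.zero_le _) _ h0).trans (le_of_eq ?_)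
    rw [Nat.choose_zero_right, Nat.sub_zero, Nat.sub_zero, Nat.cast_one, one_mul]

end Pool.JM
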